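import Pool.Agent.RSP.Targets
import Pool.Agent.RSL.CASEL

/-!
# CASEP: trees with at least `n / (log n) ^ s₀` leaves
-/

set_option autoImplicit false

open Finset Filter Topology

namespace Pool.Agent.RSP

open Pool.Agent.RST Pool.Agent.RSL

namespace CASEP_

/-- the constants -/
theorem consts {A r k₀ s₀ : ℕ} {l cs : ℝ} (hr : (r : ℝ) ≤ 2 * l ^ s₀) (hk : k₀ = A * r ^ A)
    (hcs : 0 ≤ cs) :
    cs * (k₀ : ℝ) ^ 3 ≤ (cs * ((A : ℝ) * 2 ^ A) ^ 3) * l ^ (3 * (s₀ * A)) := by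
  have h1 : (k₀ : ℝ) ≤ (A : ℝ) * 2 ^ A * l ^ (s₀ * A) := by
    rw [hk]
    push_cast
    calc (A : ℝ) * (r : ℝ) ^ A ≤ (A : ℝ) * (2 * l ^ s₀) ^ A := by gcongr
      _ = _ := by rw [mul_pow, ← pow_mul]; ring
  have h2 : (k₀ : ℝ) ^ 3 ≤ ((A : ℝ) * 2 ^ A * l ^ (s₀ * A)) ^ 3 := by gcongr
  calc cs * (k₀ : ℝ) ^ 3 ≤ cs * ((A : ℝ) * 2 ^ A * l ^ (s₀ * A)) ^ 3 := by gcongr
    _ = _ := by rw [mul_pow, ← pow_mul, mul_comm (s₀ * A) 3]; ring

end CASEP_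

open CASEL_ CASEP_ in
theorem pCASEP (h1 : T_RPART) (h2 : T_WSL) (h3 : T_TREEP) (h4 : T_MATL) (h5 : T_SLOT)
    (h6 : T_CTX) (h7 : T_PF) (h8 : T_COVL) (h9 : T_FINL) (h10 : T_NUMP) : T_CASEP := by
  classical
  intro Δ s₀ γ C₁ hΔ hγ hγ2 hC
  obtain ⟨g, hg⟩ : ∃ g, g = γ / 2 := ⟨_, rfl⟩
  obtain ⟨η, hη⟩ : ∃ η, η = γ / 100 := ⟨_, rfl⟩
  have hΔ' : (1 : ℝ) ≤ Δ := by exact_mod_cast hΔ
  have hg0 : 0 < g := by rw [hg]; positivity
  have hg1 : g ≤ 1 / 4 := by rw [hg]; linarith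
  have hη0 : 0 < η := by rw [hη]; positivity
  obtain ⟨ε, hε⟩ : ∃ ε, ε = g ^ 2 * 1 / (1600 * Δ) := ⟨_, rfl⟩
  have hε0 : 0 < ε := by rw [hε]; positivity
  obtain ⟨b, A, hb2, hA1, hTREE⟩ := h3 Δ ε hΔ hε0
  obtain ⟨d, hd⟩ : ∃ d, d = b + Δ + 2 := ⟨_, rfl⟩
  obtain ⟨σ, hσ⟩ : ∃ σ, σ = g * 1 / (16 * Δ) := ⟨_, rfl⟩
  have hσ0 : 0 < σ := by rw [hσ]; positivity
  have hd1 : (1 : ℝ) ≤ d := by exact_mod_cast (by omega : 1 ≤ d)
  obtain ⟨Z, hZ⟩ : ∃ Z : ℝ, Z = 8 * (4 * ((b : ℝ) + 1) + 3 * d + 4) := ⟨_, rfl⟩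
  have hZ0 : 0 < Z := by rw [hZ]; positivity
  obtain ⟨cs, hcs⟩ : ∃ cs : ℝ, cs = 4 + 1 / ε + 16 * d / σ + Z / (g / 4 * σ) + 1 / σ + 8 * Δ :=
    ⟨_, rfl⟩
  have p1 : 0 < 1 / ε := by positivity
  have p2 : 0 < 16 * d / σ := by positivity
  have p3 : 0 < Z / (g / 4 * σ) := by positivity
  have p4 : 0 < 1 / σ := by positivity
  have hcs1 : 4 ≤ cs := by rw [hcs]; linarith
  have hcs2 : 1 / ε ≤ cs := by rw [hcs]; linarith
  have hcs3 : 16 * d / σ ≤ cs := by rw [hcs]; linarith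
  have hcs4 : Z / (g / 4 * σ) ≤ cs := by rw [hcs]; linarith
  have hcs5 : 1 / σ ≤ cs := by rw [hcs]; linarith
  have hcs6 : 8 * (Δ : ℝ) ≤ cs := by rw [hcs]; linarith
  have hcs0 : 0 ≤ cs := by linarith
  obtain ⟨B₀, hB₀⟩ : ∃ B₀ : ℝ, B₀ = cs * ((A : ℝ) * 2 ^ A) ^ 3 := ⟨_, rfl⟩
  obtain ⟨C, n₁, hNUM⟩ := h10 g C₁ η B₀ (3 * (s₀ * A)) d hg0 hC hη0 (by rw [hB₀]; positivity)
  refine ⟨C, n₁, ?_⟩
  intro n hn p hp hp1 H hUU hdeg par₀ hVT₀ hBD₀ hlv₀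
  obtain ⟨hn5, hp0, hl1, hmY, hmK, hdY, hsY, hIY, hexpY⟩ := hNUM n hn p hp hp1
  obtain ⟨r, hr⟩ : ∃ r, r = ⌈Real.log n ^ s₀⌉₊ := ⟨_, rfl⟩
  obtain ⟨k₀, hk₀⟩ : ∃ k₀, k₀ = A * r ^ A := ⟨_, rfl⟩
  have hls1 : 1 ≤ Real.log n ^ s₀ := one_le_pow₀ hl1
  have hr1 : 1 ≤ r := by
    rw [hr]; exact Nat.one_le_ceil_iff.2 (by linarith)
  have hr2 : (r : ℝ) ≤ 2 * Real.log n ^ s₀ := by
    rw [hr]
    have := Nat.ceil_lt_add_one (a := Real.log n ^ s₀) (by linarith)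
    linarith
  have hrk : r ≤ k₀ := by
    rw [hk₀]
    calc r = 1 * r ^ 1 := by ring
      _ ≤ A * r ^ A := Nat.mul_le_mul hA1 (Nat.pow_le_pow_right hr1 hA1)
  have hk1 : 1 ≤ k₀ := hr1.trans hrk
  have hk1' : (1 : ℝ) ≤ k₀ := by exact_mod_cast hk1
  have hr1' : (1 : ℝ) ≤ r := by exact_mod_cast hr1
  have hrk' : (r : ℝ) ≤ k₀ := by exact_mod_cast hrk
  obtain ⟨Y, hY⟩ : ∃ Y : ℝ, Y = B₀ * Real.log n ^ (3 * (s₀ * A)) := ⟨_, rfl⟩
  have hYk : cs * (k₀ : ℝ) ^ 3 ≤ Y := by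
    rw [hY, hB₀]
    exact consts hr2 hk₀ hcs0
  rw [← hY] at hmY hdY hsY hIY hexpY
  have hk3 : (k₀ : ℝ) ≤ (k₀ : ℝ) ^ 3 := le_self_pow₀ hk1' (by norm_num)
  have hk31 : (1 : ℝ) ≤ (k₀ : ℝ) ^ 3 := hk1'.trans hk3
  have hY0 : 0 < Y := lt_of_lt_of_le (mul_pos (by linarith) (by linarith)) hYk
  have hYc : ∀ c x : ℝ, 0 ≤ x → c ≤ cs → x ≤ (k₀ : ℝ) ^ 3 → c * x ≤ Y := by
    intro c x hx hc hxk
    calc c * x ≤ cs * x := by gcongr
      _ ≤ cs * (k₀ : ℝ) ^ 3 := by gcongr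
      _ ≤ Y := hYk
  have hk2r : (k₀ : ℝ) ^ 2 * r ≤ (k₀ : ℝ) ^ 3 := by
    calc (k₀ : ℝ) ^ 2 * r ≤ (k₀ : ℝ) ^ 2 * k₀ := by gcongr
      _ = _ := by ring
  obtain ⟨m, hm⟩ : ∃ m, m = ⌈8 * (C₁ * Real.log n) / (g * p)⌉₊ + 1 := ⟨_, rfl⟩
  rw [← hm] at hmY hmK
  have hm1 : 1 ≤ m := by omega
  have hm1' : (1 : ℝ) ≤ m := by exact_mod_cast hm1
  have hnR : (0 : ℝ) < n := by exact_mod_cast hn5
  have hKu : 0 ≤ C₁ * Real.log n := mul_nonneg hC (Real.log_natCast_nonneg n)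
  -- the leaves
  obtain ⟨Λ, hΛ⟩ : ∃ Λ, Λ = (lv n par₀).card := ⟨_, rfl⟩
  rw [← hΛ] at hlv₀
  have hΛr : (n : ℝ) ≤ r * Λ := by
    refine hlv₀.trans ?_
    have : Real.log n ^ s₀ ≤ r := by rw [hr]; exact Nat.le_ceil _
    gcongr
  have hΛ0 : (0 : ℝ) ≤ Λ := Nat.cast_nonneg _
  have hΛ1 : (0 : ℝ) < Λ := by
    rcases hΛ0.lt_or_eq with h | h
    · exact h
    · rw [← h, mul_zero] at hΛr
      linarith
  -- a tool: `c r X m ≤ n` implies `c X m ≤ Λ`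
  have htool : ∀ c x : ℝ, 0 ≤ x → 0 ≤ c → c ≤ cs → x * r ≤ (k₀ : ℝ) ^ 3 →
      c * x * m ≤ Λ := by
    intro c x hx hc0 hc hxk
    have h11 := hYc c (x * r) (by positivity) hc hxk
    have h12 : c * (x * r) * m ≤ r * Λ := by
      calc c * (x * r) * m ≤ Y * m := by gcongr
        _ ≤ n := hmY
        _ ≤ _ := hΛr
    have h13 : (r : ℝ) * (c * x * m) ≤ r * Λ := by
      calc (r : ℝ) * (c * x * m) = c * (x * r) * m := by ring
        _ ≤ _ := h12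
    exact le_of_mul_le_mul_left h13 (by linarith)
  have hr3 : (1 : ℝ) * r ≤ (k₀ : ℝ) ^ 3 := by rw [one_mul]; exact hrk'.trans hk3
  have hmn2 : (k₀ : ℝ) ^ 2 * m ≤ ε * Λ := by
    have h := htool (1 / ε) ((k₀ : ℝ) ^ 2) (by positivity) p1.le hcs2 hk2r
    have h' := mul_le_mul_of_nonneg_left h hε0.le
    calc (k₀ : ℝ) ^ 2 * m = ε * (1 / ε * (k₀ : ℝ) ^ 2 * m) := by field_simp
      _ ≤ _ := h'
  have hmn3 : 16 * (m : ℝ) * d ≤ σ * Λ := by
    have h := htool (16 * d / σ) 1 (by norm_num) p2.le hcs3 hr3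
    have h' := mul_le_mul_of_nonneg_left h hσ0.le
    calc 16 * (m : ℝ) * d = σ * (16 * d / σ * 1 * m) := by field_simp
      _ ≤ _ := h'
  have hmn4 : Z * m ≤ g / 4 * (σ * Λ) := by
    have h := htool (Z / (g / 4 * σ)) 1 (by norm_num) p3.le hcs4 hr3
    have h' := mul_le_mul_of_nonneg_left h (show 0 ≤ g / 4 * σ by positivity)
    calc Z * m = g / 4 * σ * (Z / (g / 4 * σ) * 1 * m) := by field_simp
      _ ≤ g / 4 * σ * Λ := h'
      _ = _ := by ring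
  have hn3 : 32 * (Δ : ℝ) / (g * 1) ≤ Λ := by
    have h11 : 16 * (1 : ℝ) * 1 ≤ 16 * (m : ℝ) * d := by gcongr
    have h12 : 2 ≤ σ * Λ := by linarith
    rw [hσ] at h12
    rw [div_mul_eq_mul_div, le_div_iff₀ (by positivity)] at h12
    rw [div_le_iff₀ (by positivity)]
    linarith
  -- the minimal size of a class
  obtain ⟨smin, hsmin⟩ : ∃ smin : ℝ, smin = min ((n : ℝ) / k₀) (min (σ * Λ) (1 / (8 * Δ) * Λ)) :=
    ⟨_, rfl⟩
  have hsmin0 : 0 < smin := by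
    rw [hsmin]
    refine lt_min (by positivity) (lt_min (by positivity) (by positivity))
  have hsn : (n : ℝ) ≤ Y * smin := by
    rw [hsmin]
    rcases min_cases ((n : ℝ) / k₀) (min (σ * Λ) (1 / (8 * Δ) * Λ)) with h | h
    · rw [h.1]
      have h11 : (k₀ : ℝ) ≤ Y := by
        have := hYc 1 k₀ (by linarith) (by linarith) hk3
        linarith
      calc (n : ℝ) = k₀ * (n / k₀) := by field_simp
        _ ≤ Y * (n / k₀) := by gcongr
    · rw [h.1]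
      rcases min_cases (σ * Λ) (1 / (8 * (Δ : ℝ)) * Λ) with h' | h'
      · rw [h'.1]
        have h11 := hYc (1 / σ) r (by linarith) hcs5 (hrk'.trans hk3)
        calc (n : ℝ) ≤ r * Λ := hΛr
          _ = 1 / σ * r * (σ * Λ) := by field_simp
          _ ≤ Y * (σ * Λ) := by gcongr
      · rw [h'.1]
        have h11 := hYc (8 * Δ) r (by linarith) hcs6 (hrk'.trans hk3)
        calc (n : ℝ) ≤ r * Λ := hΛr
          _ = 8 * Δ * r * (1 / (8 * Δ) * Λ) := by field_simp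
          _ ≤ Y * (1 / (8 * Δ) * Λ) := by gcongr
  have hdK : 4 * (C₁ * Real.log n) * (1 + d) < p * smin := by
    have h11 : 4 * (C₁ * Real.log n) * (1 + d) * Y < p * smin * Y := by
      calc 4 * (C₁ * Real.log n) * (1 + d) * Y < p * n := hdY
        _ ≤ p * (Y * smin) := by gcongr
        _ = _ := by ring
    exact lt_of_mul_lt_mul_right h11 hY0.le
  have hsK : 16 * (C₁ * Real.log n) ≤ g * p * smin := by
    have h11 : 16 * (C₁ * Real.log n) * Y ≤ g * p * smin * Y := by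
      calc 16 * (C₁ * Real.log n) * Y ≤ g * p * n := hsY
        _ ≤ g * p * (Y * smin) := by gcongr
        _ = _ := by ring
    exact le_of_mul_le_mul_right h11 hY0
  have hexp := hexpY (k₀ + 3) smin (by
    push_cast
    have := hYc 4 ((k₀ : ℝ) ^ 3) (by positivity) hcs1 le_rfl
    linarith) hsn
  -- the structure of the tree
  have hT1 : (A * r ^ A) ^ 3 * m ≤ n := by
    rw [← hk₀]
    have h11 := hYc 1 ((k₀ : ℝ) ^ 3) (by positivity) (by linarith) le_rfl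
    have h12 : (k₀ : ℝ) ^ 3 * m ≤ n := by
      calc (k₀ : ℝ) ^ 3 * m ≤ Y * m := by gcongr; linarith
        _ ≤ n := hmY
    exact_mod_cast h12
  have hT2 : ((A * r ^ A) ^ 3 * (Nat.log 2 n + 3) ^ 2) ^ 2 ≤ n := by
    rw [← hk₀]
    have h11 := hYc 1 ((k₀ : ℝ) ^ 3) (by positivity) (by linarith) le_rfl
    have h12 : ((k₀ : ℝ) ^ 3 * ((Nat.log 2 n : ℝ) + 3) ^ 2) ^ 2 ≤ (n : ℝ) := by
      refine le_trans ?_ hIY
      have h13 : (k₀ : ℝ) ^ 3 * ((Nat.log 2 n : ℝ) + 3) ^ 2 ≤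
          Y * ((Nat.log 2 n : ℝ) + 3) ^ 2 :=
        mul_le_mul_of_nonneg_right (by linarith) (by positivity)
      exact pow_le_pow_left₀ (by positivity) h13 2
    exact_mod_cast h12
  obtain ⟨par, I, E, Q, M, κ, S, lf, t, hVT, hBD, htr, hTS, hWs, hSs, hcls, hMbig⟩ :=
    hTREE n m r par₀ hn5 hm1 hr1 hVT₀ hBD₀ (by rw [← hΛ]; exact_mod_cast hΛr) hT1 hT2
  rw [← hΛ] at hWs hSs hMbig
  rw [← hk₀] at hTS hcls
  obtain ⟨w, hw1, hw2, hw3, hw4⟩ := nums hΔ one_pos hg0 hg1 hn3 M.card (by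
    rw [one_mul]; exact_mod_cast hMbig)
  rw [← hσ] at hw1
  have hM0 : (0 : ℝ) ≤ (M.card : ℝ) := Nat.cast_nonneg _
  have hwM : w + 1 ≤ M.card := by
    have : (w : ℝ) + 1 ≤ (M.card : ℝ) := num2 hg1 hM0 hw2
    exact_mod_cast this
  obtain ⟨Ws, hWsd⟩ : ∃ Ws, Ws = range n \ E := ⟨_, rfl⟩
  have hME : M ⊆ E := fun x hx => (hTS.MS x hx).1
  have hcardE : (E \ M).card + M.card = E.card := card_sdiff_add_card_eq_card hME
  have hcardW : Ws.card + E.card = n := by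
    rw [hWsd, card_sdiff_add_card_eq_card hTS.dcp.EC, card_range]
  -- random partition
  let s : Fin k₀ ⊕ Fin 3 → ℕ := Sum.elim
    (fun c => ((E \ M).filter (fun x => κ x = c)).card)
    (fun j => if j = 0 then w else if j = 1 then 1 else M.card + Ws.card - 1 - w)
  have hsum : ∑ i, s i = n := by
    rw [Fintype.sum_sum_type]
    have e1 : ∑ c : Fin k₀, s (Sum.inl c) = (E \ M).card := by
      have : (E \ M).card = ∑ c ∈ range k₀, ((E \ M).filter (fun x => κ x = c)).card := by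
        apply card_eq_sum_card_fiberwise
        intro x hx
        rw [mem_coe, mem_range]
        exact hTS.kap x (Finset.mem_sdiff.1 hx).1
      rw [this, Finset.sum_range]
      simp only [s, Sum.elim_inl]
    rw [e1, Fin.sum_univ_three]
    simp only [s, Sum.elim_inr, if_true]
    rw [if_neg (by decide), if_neg (by decide), if_neg (by decide)]
    omega
  have hcard : Fintype.card (Fin k₀ ⊕ Fin 3) = k₀ + 3 := by simp
  obtain ⟨P, hPc, hPd, hPu, hPdeg⟩ := h1 n H (Fin k₀ ⊕ Fin 3) s (1 / 2 * p * n) η (smin)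
    hn5 hsum hη0 (by rw [hη]; linarith) (by positivity)
    (fun v => le_trans (num1 hp0 hnR hγ) (hdeg v))
    (by rw [hcard]; exact hexp)
  have hDG : ∀ i, smin ≤ s i → DG H g p (P i) := by
    intro i hi v
    have h7 := hPdeg i hi v
    rw [hPc i]
    refine le_trans ?_ h7
    have h8 : (1 / 2 + γ) * p * n ≤ dg H v univ := hdeg v
    have h9 : (0 : ℝ) ≤ s i := Nat.cast_nonneg _
    have h10 : (0 : ℝ) ≤ (1 - η) * (s i / n) := by
      have : 0 ≤ 1 - η := by rw [hη]; linarith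
      positivity
    calc (1 / 2 + g) * p * (s i : ℝ)
        ≤ ((1 - η) * (1 / 2 + γ)) * p * (s i : ℝ) := by
          gcongr
          rw [hg, hη]; exact num3 hγ hγ2
      _ = (1 - η) * (s i / n) * ((1 / 2 + γ) * p * n) := by field_simp
      _ ≤ _ := by gcongr
  obtain ⟨W, hWd⟩ : ∃ W, W = P (Sum.inr 0) := ⟨_, rfl⟩
  obtain ⟨L₀, hLd⟩ : ∃ L₀, L₀ = P (Sum.inr 2) := ⟨_, rfl⟩
  have hWc : W.card = w := by rw [hWd, hPc]; simp [s]
  have hLc : L₀.card = M.card + Ws.card - 1 - w := by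
    rw [hLd, hPc]
    simp only [s, Sum.elim_inr]
    rw [if_neg (by decide), if_neg (by decide)]
  have h1c : (P (Sum.inr 1)).card = 1 := by rw [hPc]; simp [s]
  obtain ⟨v₀, hv₀⟩ := card_eq_one.1 h1c
  have hs₁σ : smin ≤ σ * Λ := by
    rw [hsmin]; exact le_trans (min_le_right _ _) (min_le_left _ _)
  have hs₁α : smin ≤ 1 / (8 * Δ) * Λ := by
    rw [hsmin]; exact le_trans (min_le_right _ _) (min_le_right _ _)
  have hs₁ξ : smin ≤ n / k₀ := by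
    rw [hsmin]; exact min_le_left _ _
  have hsW : smin ≤ (W.card : ℝ) := by
    rw [hWc]
    exact le_trans (by gcongr) hw1
  have hDW : DG H g p W := by
    rw [hWd]
    refine hDG _ ?_
    rw [← hPc, ← hWd]
    exact hsW
  have hL0 : (1 - g / 2) * (M.card : ℝ) ≤ (L₀.card : ℝ) := by
    have h7 : M.card ≤ L₀.card + 1 + w := by rw [hLc]; omega
    have h8 : (M.card : ℝ) ≤ L₀.card + 1 + w := by exact_mod_cast h7
    linarith
  have hDL : DG H g p L₀ := by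
    rw [hLd]
    refine hDG _ ?_
    rw [← hPc, ← hLd]
    refine le_trans ?_ hL0
    refine le_trans ?_ hw3
    gcongr
  -- the waste set
  have hgp : 0 < g * p := mul_pos hg0 hp0
  obtain ⟨hWS, hOK⟩ := h2 (Fin n) H η p (C₁ * Real.log n) g W d m b hp0 hg0 (by linarith) hη0.le
    (by rw [hη, hg]; linarith) hKu (by rw [hη]; exact hUU) hDW hm1 hmK
    (by
      have : g * p * (smin) ≤ g * p * W.card := by gcongr
      linarith)
    (by rw [hWc]; exact hmn3.trans hw1)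
    (by
      refine lt_of_lt_of_le hdK ?_
      gcongr)
    hb2 (by omega)
    (by
      rw [hWc]
      have h11 : g / 4 * (σ * Λ) ≤ g / 4 * w := by gcongr
      have h12 : 8 * (4 * ((b : ℝ) + 1) * m + 3 * (m : ℝ) * d + 4) ≤ Z * m := by
        rw [hZ]; exact num4 hm1'
      linarith)
  -- the classes
  let Vc : ℕ → Finset (Fin n) := fun c => if h : c < k₀ then P (Sum.inl ⟨c, h⟩) else ∅
  have hVc : ∀ x ∈ E, ∃ c : Fin k₀, (c : ℕ) = κ x ∧ Vc (κ x) = P (Sum.inl c) := by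
    intro x hx
    refine ⟨⟨κ x, hTS.kap x hx⟩, rfl, ?_⟩
    simp only [Vc]
    rw [dif_pos (hTS.kap x hx)]
  have hVcd : ∀ k k', k ≠ k' → Disjoint (Vc k) (Vc k') := by
    intro k k' hkk
    simp only [Vc]
    by_cases hk : k < k₀
    · by_cases hk' : k' < k₀
      · rw [dif_pos hk, dif_pos hk']
        apply hPd
        intro h
        rw [Sum.inl.injEq, Fin.mk.injEq] at h
        exact hkk h
      · rw [dif_neg hk']; exact disjoint_empty_right _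
    · rw [dif_neg hk]; exact disjoint_empty_left _
  have hVcr : ∀ k, ∀ j : Fin 3, Disjoint (Vc k) (P (Sum.inr j)) := by
    intro k j
    simp only [Vc]
    by_cases hk : k < k₀
    · rw [dif_pos hk]; apply hPd; simp
    · rw [dif_neg hk]; exact disjoint_empty_left _
  have hVcc : ∀ x ∈ E \ M, (Vc (κ x)).card = ((E \ M).filter (fun y => κ y = κ x)).card := by
    intro x hx
    obtain ⟨c, hc, hVx⟩ := hVc x (Finset.mem_sdiff.1 hx).1
    rw [hVx, hPc]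
    simp only [s, Sum.elim_inl, hc]
  have hVcs : ∀ x ∈ E \ M, smin ≤ ((Vc (κ x)).card : ℝ) := by
    intro x hx
    rw [hVcc x hx, class_eq hTS hx]
    refine hs₁ξ.trans ?_
    rw [div_le_iff₀ (by linarith), mul_comm]
    exact_mod_cast hcls x (Finset.mem_sdiff.1 hx).1
  have hVcD : ∀ x ∈ E \ M, DG H g p (Vc (κ x)) := by
    intro x hx
    have h11 := hVcs x hx
    obtain ⟨c, hc, hVx⟩ := hVc x (Finset.mem_sdiff.1 hx).1
    rw [hVx] at h11 ⊢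
    refine hDG _ ?_
    rw [← hPc]
    exact h11
  -- matchings
  obtain ⟨Mt, hMt⟩ := h4 (Fin n) H g η p (C₁ * Real.log n) par (E \ M) Q κ Vc hp0 hg0 hη0.le
    (by rw [hη, hg]; linarith) hKu (by rw [hη]; exact hUU) (up' hTS) (col' hTS)
    (by
      intro x hx
      refine ⟨hVcc x hx, hVcD x hx, ?_⟩
      have h11 := hVcs x hx
      have : g * p * (smin) ≤ g * p * (Vc (κ x)).card := by gcongr
      linarith)
  -- slots
  obtain ⟨Sl, φ, hGS⟩ := h5 (Fin n) H par E Q M κ k₀ Vc Mt hTS.dcp.QE hTS.dcp.up hTS.col hTS.kap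
    hTS.MS hTS.Mc (fun x hx hxQ => par_notMem hTS hx hxQ) hVcd hVcc hMt
  -- the data
  obtain ⟨B, hB⟩ : ∃ B, B = k₀ * k₀ * m + 2 * ∑ i ∈ Icc 1 I, (S i).card := ⟨_, rfl⟩
  have hBR : (B : ℝ) ≤ 3 * (ε * Λ) := by
    rw [hB]
    push_cast
    have h11 : ((∑ i ∈ Icc 1 I, (S i).card : ℕ) : ℝ) ≤ ε * Λ := hSs
    push_cast at h11
    have h12 : (k₀ : ℝ) * k₀ * m = (k₀ : ℝ) ^ 2 * m := by ring
    rw [h12]
    linarith
  have hv₀1 : v₀ ∈ P (Sum.inr 1) := by rw [hv₀]; exact mem_singleton_self _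
  have hv₀W : v₀ ∉ W := by
    rw [hWd]
    intro h
    exact Finset.disjoint_left.1 (hPd (Sum.inr 1) (Sum.inr 0) (by simp)) hv₀1 h
  have hv₀L : v₀ ∉ L₀ := by
    rw [hLd]
    intro h
    exact Finset.disjoint_left.1 (hPd (Sum.inr 1) (Sum.inr 2) (by simp)) hv₀1 h
  have hVd := h6 (Fin n) H W (g / 4) d m b n par Δ v₀ k₀ I E Q M κ S lf t Vc Sl φ B hWS hOK
    (by omega) hVT hBD hn5 hTS hGS
    (fun k => ⟨by rw [hWd]; exact hVcr k 0, fun h =>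
      Finset.disjoint_left.1 (hVcr k 1) h hv₀1⟩) hv₀W (le_of_eq hB.symm)
    (by
      rw [hWc]
      have h11 : g / 4 * (σ * Λ) ≤ g / 4 * w := by gcongr
      have h12 : 16 * (ε * Λ) ≤ g / 4 * (σ * Λ) := by
        have : g / 4 * (σ * Λ) = 25 * (ε * Λ) := by
          rw [hσ, hε]; field_simp; ring
        rw [this]
        have : 0 < ε * Λ := mul_pos hε0 hΛ1
        linarith
      linarith)
  obtain ⟨c, hc⟩ : ∃ c, c = mk H W (g / 4) d m b n par Δ v₀ k₀ I E Q M κ S lf Vc Sl φ B :=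
    ⟨_, rfl⟩
  rw [← hc] at hVd
  have hcN : c.N = n := by rw [hc]; rfl
  obtain ⟨f, Su, ρ, J, F, hPS, hDJ⟩ := h7 (Fin n) c hVd
  rw [hcN] at hPS hDJ
  have hcov := h8 (Fin n) H W (g / 4) d m b n par Δ v₀ k₀ I E Q M κ S lf t Vc Sl φ B hVT hTS hGS
    hm1 c hc Su ρ hPS.su hPS.rho (slots_disj c hVd hPS) hDJ
  -- the size of the union of the active classes
  have hacE : ∀ k ∈ ac par M κ, ∃ x ∈ E \ M, κ x = k := by
    intro k hk
    unfold ac at hk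
    rw [mem_image] at hk
    obtain ⟨x, hx, rfl⟩ := hk
    obtain ⟨hxE, hxQ⟩ := hTS.MS x hx
    exact ⟨par x, Finset.mem_sdiff.2 ⟨(hTS.dcp.up x hxE hxQ).2, par_notMem hTS hxE hxQ⟩, rfl⟩
  have hZZ0 : (ZZ par M κ Vc).card = ∑ k ∈ ac par M κ, (Vc k).card := by
    unfold ZZ
    rw [card_biUnion (fun k _ k' _ h => hVcd k k' h)]
  have hZZ : (ZZ par M κ Vc).card = M.card := by
    rw [hZZ0, card_M hTS]
    refine sum_congr rfl fun k hk => ?_
    obtain ⟨x, hx, rfl⟩ := hacE k hk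
    exact hVcc x hx
  have hMbig' : smin ≤ (M.card : ℝ) := by
    refine le_trans ?_ hw4
    gcongr
  have hdZ : ∀ v, (1 / 2 + g / 2) * p * (ZZ par M κ Vc).card ≤ dg H v (ZZ par M κ Vc) := by
    intro v
    have h11 : (dg H v (ZZ par M κ Vc) : ℝ) = ∑ k ∈ ac par M κ, (dg H v (Vc k) : ℝ) := by
      unfold ZZ
      rw [dg_biUnion H v _ _ (fun k _ k' _ h => hVcd k k' h), Nat.cast_sum]
    rw [h11, hZZ0, Nat.cast_sum, mul_sum]
    refine sum_le_sum fun k hk => ?_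
    obtain ⟨x, hx, rfl⟩ := hacE k hk
    refine le_trans ?_ (hVcD x hx v)
    have h13 : (1 / 2 + g / 2) * p ≤ (1 / 2 + g) * p :=
      mul_le_mul_of_nonneg_right (by linarith) hp0.le
    exact mul_le_mul_of_nonneg_right h13 (Nat.cast_nonneg _)
  have hdL : ∀ v, (1 / 2 + g / 2) * p * (M.card : ℝ) ≤ dg H v L₀ := by
    intro v
    refine le_trans ?_ (hDL v)
    have h13 : (0 : ℝ) ≤ (1 / 2 + g) * p := by positivity
    have h11 : (1 / 2 + g) * p * ((1 - g / 2) * (M.card : ℝ)) ≤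
        (1 / 2 + g) * p * (L₀.card : ℝ) := mul_le_mul_of_nonneg_left hL0 h13
    refine le_trans ?_ h11
    have h12 : (1 / 2 + g / 2) ≤ (1 / 2 + g) * (1 - g / 2) := num5 hg0 hg1
    have h14 : (0 : ℝ) ≤ p * (M.card : ℝ) := mul_nonneg hp0.le hM0
    have h15 := mul_le_mul_of_nonneg_right h12 h14
    calc (1 / 2 + g / 2) * p * (M.card : ℝ) = (1 / 2 + g / 2) * (p * (M.card : ℝ)) := by ring
      _ ≤ (1 / 2 + g) * (1 - g / 2) * (p * (M.card : ℝ)) := h15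
      _ = _ := by ring
  obtain ⟨f', hf'⟩ := h9 (Fin n) H W (g / 4) d m b n par Δ v₀ k₀ I E Q M κ S lf t Vc Sl φ B hVT
    hTS hGS (by rw [Fintype.card_fin]) hn5 c hc hVd f Su ρ J F hPS hcov L₀ η p
    (C₁ * Real.log n) (g / 2) hp0 (by positivity) hη0.le (by rw [hη, hg]; linarith) hKu
    (by rw [hη]; exact hUU)
    (by rw [hLd, hWd]; apply hPd; simp)
    (fun k => by rw [hLd]; exact (hVcr k 2).symm) hv₀L
    (by
      rw [hZZ]
      have : g * p * (smin) ≤ g * p * M.card := mul_le_mul_of_nonneg_left hMbig' hgp.le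
      linarith)
    hdZ (by rw [hZZ]; exact hdL)
  exact htr (Fin n) H f' hf'

end Pool.Agent.RSP
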