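import Pool.Agent.RSP.Targets
import Pool.Agent.RST.CASEB

/-!
# CASEQ: trees with at most `n / (log n) ^ 3` leaves
-/

set_option autoImplicit false

open Finset

namespace Pool.Agent.RSP

open Pool.Agent.RST Pool.Agent.RSL

namespace CASEQ_

open Pool.Agent.RST.CASEB_

set_option maxHeartbeats 4000000 in
lemma core (h1 : T_RPART) (h3 : T_PHS) (h8 : T_LINK)
    (n : ℕ) (H : SimpleGraph (Fin n)) (p γ g gw Ku c1 c2 ξ eps : ℝ)
    (Δ a ω q K ℓ C3 C4 k₀ J h b m d z' z Ng : ℕ)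
    (hn : 0 < n) (hp0 : 0 < p) (hγ : 0 < γ) (hγ1 : γ ≤ 1 / 2) (hg : g = γ / 2) (hgw : gw = g / 4)
    (hKu0 : 0 ≤ Ku) (hUU : UU H (γ / 100) p Ku) (hdeg : ∀ v, (1 / 2 + γ) * p * n ≤ dg H v univ)
    (hK2 : 2 ≤ K) (hℓ : ℓ = K + 4 * a + 3) (hgl : gl a ≤ ℓ) (hω : ω = q + (4 * a + 2))
    (hω2 : 16 * (a : ℝ) + 16 ≤ gw * ω) (hK4 : 4 * (ω : ℝ) ≤ g * K) (hC3 : C3 = K * q)
    (hC4 : 4 * ((ℓ : ℝ) * C3) ≤ gw * C4) (hC41 : 1 ≤ C4)
    (hz' : z' = C4 * h) (hz : z = z' + (ℓ - 2) * (K * (q * h)))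
    (hc2p : 0 ≤ c2) (hc2g : g / 400 ≤ c2) (hc2e : c2 = K * g * c1 / 12)
    (heps : eps = gw * (g / 400) / 16)
    (hkm : 1000 * (((k₀ : ℝ) * k₀ + 1) * m) ≤ gw * (g / 400 * n))
    (hh1 : 1 ≤ h) (hKu : 16 * Ku ≤ gw * p * h) (hhξ : (h : ℝ) ≤ ξ * (n / 2))
    (hξ : 0 < ξ)
    (hNg : 8 * ((Ng : ℝ) * ℓ) ≤ gw * (c2 * n))
    (hc2 : 10 * ((C4 : ℝ) * h) + K + 3 ≤ c2 * n)
    (hJ1 : 1 ≤ J) (hJc2 : c1 * n / 2 ≤ (K : ℝ) * 2 ^ (J - 1) * h)
    (hexp : (n : ℝ) * ((k₀ + 5 + J * K + J : ℕ) : ℝ) * ((n : ℝ) + 1) ^ (k₀ + 5 + J * K + J) *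
      Real.exp (-((γ / 100) ^ 2 * h * (1 / 2 * p * n) / (2 * n))) < 1)
    (hWP : ∀ W : Finset (Fin n), (h : ℝ) ≤ W.card → DG H g p W →
      WPar H W gw d m b a ℓ ∧ OK H W d m ∅ ∅ ∧ WS H W gw d m b)
    (hbd : b + Δ + 2 ≤ d) (hbd2 : b + 2 * b + 6 ≤ d)
    (Γ : ℕ → Finset ℕ)
    (hΓ : ∀ x < 10 * z', Γ x ⊆ range (9 * z' + z) ∧ (Γ x).Nonempty)
    (hΓd : ∀ y, ((range (10 * z')).filter (fun x => y ∈ Γ x)).card ≤ b)
    (hrob : ∀ Z' : Finset ℕ, Z' ⊆ Ico (9 * z') (9 * z' + z) → Z'.card = z' →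
      ∃ μ : ℕ → ℕ, Set.BijOn μ (range (10 * z') : Set ℕ) (range (9 * z') ∪ Z' : Finset ℕ) ∧
        ∀ x < 10 * z', μ x ∈ Γ x)
    (hNgΓ : ∑ x ∈ range (10 * z'), (Γ x).card = Ng)
    (N1 : ℕ) (par par1 : ℕ → ℕ) (hVT1 : VT N1 par1) (hBD1 : BD N1 par1 Δ)
    (hN1 : N1 + (ℓ - 1) * (Ng + ∑ j ∈ range J, K * 2 ^ (J - 1 - j) * h + K * (q * h)) = n)
    (hN1h : (n : ℝ) / 2 ≤ N1)
    (E Q : Finset ℕ) (κ : ℕ → ℕ) (hD : Dcp 2 par1 (range N1) E Q)
    (hWs : ((range N1 \ E).card : ℝ) ≤ eps * N1) (hCol : Col par1 E Q κ)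
    (hκ : ∀ x ∈ E, κ x < k₀ ∧ ξ * N1 ≤ ((E.filter (fun y => κ y = κ x)).card : ℝ))
    (X : Finset ℕ)
    (hXc : X.card = Ng + ∑ j ∈ range J, K * 2 ^ (J - 1 - j) * h + K * (q * h))
    (hctr : ∀ f₁ : ℕ → Fin n, Emb H N1 par1 f₁ →
      ∃ a b : ℕ → Fin n, (∀ x ∈ X, ∃ i < N1, a x = f₁ i) ∧ (∀ x ∈ X, ∃ i < N1, b x = f₁ i) ∧
        Set.InjOn a X ∧ Set.InjOn b X ∧ (∀ x ∈ X, ∀ y ∈ X, a x ≠ b y) ∧
        ∀ S : Finset (Fin n), (∀ i < N1, f₁ i ∉ S) → Lk H ℓ X a b S →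
          ∃ f : ℕ → Fin n, Emb H n par f) :
    ∃ f : ℕ → Fin n, Emb H n par f := by
  have hg0 : 0 < g := by rw [hg]; linarith
  have hg1 : g ≤ 1 / 4 := by rw [hg]; linarith
  have hgw0 : 0 < gw := by rw [hgw]; linarith
  have hgw1 : gw ≤ 1 := by rw [hgw]; linarith
  have hn0 : (0 : ℝ) < n := by exact_mod_cast hn
  have hh0 : (0 : ℝ) < h := by exact_mod_cast hh1
  have hη0 : (0 : ℝ) ≤ γ / 100 := by linarith
  -- the exceptional vertices
  set Ws : Finset ℕ := range N1 \ E with hWsd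
  have hN1n : N1 ≤ n := by omega
  have hN1n' : (N1 : ℝ) ≤ n := by exact_mod_cast hN1n
  have heps0 : 0 ≤ eps := by rw [heps]; positivity
  have hWs1 : (Ws.card : ℝ) ≤ eps * n := hWs.trans (mul_le_mul_of_nonneg_left hN1n' heps0)
  have hc2n : 0 ≤ c2 * n := mul_nonneg hc2p hn0.le
  have hgn : g / 400 * n ≤ c2 * n := mul_le_mul_of_nonneg_right hc2g hn0.le
  have hgn0 : 0 ≤ g / 400 * n := by positivity
  have hWs2 : 4 * ((Ws.card : ℝ) + k₀ * k₀ * m) ≤ gw * (c2 * n) := by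
    have e1 : gw * (g / 400 * n) ≤ gw * (c2 * n) := mul_le_mul_of_nonneg_left hgn hgw0.le
    have e2 : 0 ≤ gw * (g / 400 * n) := by positivity
    have e3 : (Ws.card : ℝ) ≤ gw * (g / 400 * n) / 16 := by
      rw [heps] at hWs1
      linarith
    have e4 : (k₀ : ℝ) * k₀ * m ≤ ((k₀ : ℝ) * k₀ + 1) * m := by
      have : (0 : ℝ) ≤ m := Nat.cast_nonneg _
      nlinarith
    linarith
  have hNpos : 0 < N1 := by
    have : (0 : ℝ) < N1 := by linarith
    exact_mod_cast this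
  have hWs0 : 0 ∈ Ws := by
    rw [hWsd, mem_sdiff, mem_range]
    refine ⟨hNpos, fun h0 => ?_⟩
    by_cases hq : 0 ∈ Q
    · have := hD.pos 0 hq 0 (by omega)
      simp only [Function.iterate_zero, id_eq] at this
      omega
    · have := (hD.up 0 h0 hq).1
      omega
  have hWsp : 0 < Ws.card := card_pos.2 ⟨0, hWs0⟩
  obtain ⟨wsc, hwsc⟩ : ∃ wsc, Ws.card = wsc + 1 := ⟨Ws.card - 1, by omega⟩
  have hWs3 : (wsc : ℝ) ≤ c2 * n := by
    have e1 : (wsc : ℝ) ≤ Ws.card := by rw [hwsc]; push_cast; linarith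
    have e2 : eps * n ≤ g / 400 * n := by
      apply mul_le_mul_of_nonneg_right _ hn0.le
      rw [heps]
      nlinarith
    linarith
  have hEW : (E.card + 1) + wsc = N1 := by
    have : E.card + Ws.card = N1 := by
      rw [hWsd, ← card_union_of_disjoint disjoint_sdiff, union_sdiff_of_subset hD.EC, card_range]
    omega
  have hℓ1 : ℓ - 1 = (ℓ - 2) + 1 := by omega
  -- the numbers
  have hN8 : 8 * ((Ng : ℝ) * (((ℓ - 1 : ℕ) : ℝ) + 1)) ≤ gw * (c2 * n) := by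
    have : ((ℓ - 1 : ℕ) : ℝ) + 1 = ℓ := by
      rw [Nat.cast_sub (by omega)]
      push_cast
      ring
    rw [this]
    exact hNg
  obtain ⟨w1, wA, r0, hw1, hwA, hweq, hr0⟩ := numW g gw c1 c2 n K (ℓ - 1) C4 h J Ng wsc hg0
    hgw1 (by omega) hc2p hc2e hWs3 hN8 hc2 hJc2
  obtain ⟨ρ, hρ0, hρJ, hρW, hρg, hρN⟩ := rho_ok g K J h ω q r0 a hg1 hω hK4 hJ1 hr0
  have hph := phsum (fun j => K * 2 ^ (J - 1 - j) * h) ρ (fun j => ω * (K * 2 ^ (J - 1 - j) * h))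
    (4 * a + 2) K J hρW (fun j hj => by have := hρN j hj; omega)
  rw [hρ0, hρJ, show K + (4 * a + 2) = (ℓ - 2) + 1 by omega] at hph
  rw [hℓ1] at hweq hN1
  rw [← hz'] at hweq
  have hsum := sumn (E.card + 1) wsc w1 wA z' Ng r0 K (ℓ - 2) (K * (q * h)) _ _ n N1 hweq hph hN1
    hEW
  rw [← hz] at hsum
  have hcol : ∑ c ∈ range k₀, (E.filter (fun y => κ y = c)).card = E.card :=
    (Finset.card_eq_sum_card_fiberwise (fun x hx => by
      rw [mem_coe, mem_range]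
      exact (hκ x hx).1)).symm
  have hcol' : ∑ c ∈ range (k₀ + 1), (if c = k₀ then 1 else (E.filter (fun y => κ y = c)).card) =
      E.card + 1 := by
    rw [Finset.sum_range_succ, if_pos rfl, ← hcol]
    congr 1
    refine Finset.sum_congr rfl fun c hc => ?_
    rw [if_neg (by rw [mem_range] at hc; omega)]
  -- the partition
  obtain ⟨Vd, B, Ej, Wf, cV, cB, cE, cW, dVV, dVB, dVE, dVW, dBB, dEB, dWB, dEE, dEW, dWW, hdg⟩ :=
    part h1 n H (k₀ + 1) J K (fun c => if c = k₀ then 1 else (E.filter (fun y => κ y = c)).card)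
      ![w1, wA, 9 * z', z]
      (fun j => K * 2 ^ (J - 1 - j) * h - ρ j) (fun j => ω * (K * 2 ^ (J - 1 - j) * h))
      (1 / 2 * p * n) (γ / 100) h hn (by
        rw [hcol']
        simpa using hsum) (by linarith) (by linarith) (by positivity) (fun v => by
        refine le_trans ?_ (hdeg v)
        have : 0 ≤ γ * (p * n) := by positivity
        nlinarith) (by
        have e : k₀ + 1 + 4 + J * K + J = k₀ + 5 + J * K + J := by ring
        rw [e]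
        exact hexp)
  have cB0 : (B 0).card = w1 := cB 0
  have cB1 : (B 1).card = wA := cB 1
  have cB2 : (B 2).card = 9 * z' := cB 2
  have cB3 : (B 3).card = z := cB 3
  -- the extra vertex
  obtain ⟨v₀, hv₀⟩ : ∃ v₀, Vd k₀ = {v₀} := by
    rw [← card_eq_one]
    have := cV k₀ (Nat.lt_succ_self _)
    simpa using this
  set Vc : ℕ → Finset (Fin n) := fun c => if c < k₀ then Vd c else ∅ with hVc
  have hVclt : ∀ c < k₀, Vc c = Vd c := fun c hc => if_pos hc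
  have hVcge : ∀ c, ¬ c < k₀ → Vc c = ∅ := fun c hc => if_neg hc
  have cVc : ∀ c < k₀, (Vc c).card = (E.filter (fun y => κ y = c)).card := by
    intro c hc
    rw [hVclt c hc, cV c (by omega), if_neg (by omega)]
  have dVV' : ∀ c c', c ≠ c' → Disjoint (Vc c) (Vc c') := by
    intro c c' hne
    by_cases h2 : c < k₀
    · by_cases h4 : c' < k₀
      · rw [hVclt c h2, hVclt c' h4]
        exact dVV c (by omega) c' (by omega) hne
      · rw [hVcge c' h4]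
        exact disjoint_empty_right _
    · rw [hVcge c h2]
      exact disjoint_empty_left _
  have hDGc : ∀ S : Finset (Fin n), ((∃ c < k₀ + 1, S = Vd c) ∨ (∃ t, S = B t) ∨
        (∃ j < J, ∃ i < K, S = Ej j i) ∨ (∃ j < J, S = Wf j)) → (h : ℝ) ≤ S.card →
      DG H g p S := by
    intro S hS hS'
    rw [hg]
    exact dgl H γ p S hn hγ hγ1 hp0.le hdeg (hdg S hS hS')
  -- sizes are at least `h`
  have hh10 : (h : ℝ) ≤ c2 * n := by
    have h1 : (1 : ℝ) ≤ C4 := by exact_mod_cast hC41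
    have h2 : (h : ℝ) ≤ C4 * h := by nlinarith
    have h3 : (0 : ℝ) ≤ K := Nat.cast_nonneg _
    linarith
  have hz'h : h ≤ z' := by
    rw [hz']
    exact Nat.le_mul_of_pos_left h (by omega)
  have hsB0 : (h : ℝ) ≤ (B 0).card := by rw [cB0]; exact hh10.trans hw1
  have hsB1 : (h : ℝ) ≤ (B 1).card := by rw [cB1]; exact hh10.trans hwA
  have hsB3 : (h : ℝ) ≤ (B 3).card := by
    rw [cB3, hz]
    have : h ≤ z' + (ℓ - 2) * (K * (q * h)) := by omega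
    exact_mod_cast this
  have hNh : ∀ j < J, 2 * h ≤ K * 2 ^ (J - 1 - j) * h := by
    intro j _
    apply Nat.mul_le_mul_right
    calc 2 = 2 * 1 := rfl
      _ ≤ K * 2 ^ (J - 1 - j) := Nat.mul_le_mul hK2 (Nat.one_le_two_pow)
  have hsE : ∀ j < J, ∀ i < K, (h : ℝ) ≤ (Ej j i).card := by
    intro j hj i hi
    rw [cE j hj i hi]
    have h1 := hNh j hj
    have h2 := hρN j hj
    have : h ≤ K * 2 ^ (J - 1 - j) * h - ρ j := by omega
    exact_mod_cast this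
  have hω0 : (1 : ℝ) ≤ ω := by
    have e1 : gw * (ω : ℝ) ≤ 1 * ω := mul_le_mul_of_nonneg_right hgw1 (Nat.cast_nonneg _)
    have e2 : (0 : ℝ) ≤ a := Nat.cast_nonneg _
    linarith
  have hω1 : 1 ≤ ω := by exact_mod_cast hω0
  have hsW : ∀ j < J, (h : ℝ) ≤ (Wf j).card := by
    intro j hj
    rw [cW j hj]
    have h1 := hNh j hj
    have h2 : K * 2 ^ (J - 1 - j) * h ≤ ω * (K * 2 ^ (J - 1 - j) * h) :=
      Nat.le_mul_of_pos_left _ (by omega)
    have : h ≤ ω * (K * 2 ^ (J - 1 - j) * h) := by omega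
    exact_mod_cast this
  have hsV : ∀ x ∈ E, (h : ℝ) ≤ (Vc (κ x)).card := by
    intro x hx
    rw [cVc _ (hκ x hx).1]
    refine le_trans (hhξ.trans ?_) (hκ x hx).2
    exact mul_le_mul_of_nonneg_left hN1h hξ.le
  obtain ⟨wpB0, okB0, wsB0⟩ := hWP (B 0) hsB0 (hDGc _ (Or.inr (Or.inl ⟨0, rfl⟩)) hsB0)
  obtain ⟨wpB1, okB1, -⟩ := hWP (B 1) hsB1 (hDGc _ (Or.inr (Or.inl ⟨1, rfl⟩)) hsB1)
  obtain ⟨wpB3, okB3, -⟩ := hWP (B 3) hsB3 (hDGc _ (Or.inr (Or.inl ⟨3, rfl⟩)) hsB3)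
  have hKup : ∀ x : ℝ, (h : ℝ) ≤ x → 16 * Ku ≤ g * p * x := by
    intro x hx
    refine hKu.trans ?_
    have h1 : gw * p ≤ g * p := mul_le_mul_of_nonneg_right (by rw [hgw]; linarith) hp0.le
    have h2 : 0 ≤ gw * p := by positivity
    calc gw * p * h ≤ g * p * h := mul_le_mul_of_nonneg_right h1 hh0.le
      _ ≤ g * p * x := mul_le_mul_of_nonneg_left hx (by positivity)
  have hv₀mem : v₀ ∈ Vd k₀ := by rw [hv₀]; exact mem_singleton_self _
  have hv₀B : ∀ t, v₀ ∉ B t := fun t h =>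
    disjoint_left.mp (dVB k₀ (Nat.lt_succ_self _) t) hv₀mem h
  have hv₀V : ∀ c, v₀ ∉ Vc c := by
    intro c
    by_cases h2 : c < k₀
    · rw [hVclt c h2]
      intro h
      exact disjoint_left.mp (dVV c (by omega) k₀ (Nat.lt_succ_self _) (by omega)) h hv₀mem
    · rw [hVcge c h2]
      exact notMem_empty _
  have hVB : ∀ c t, Disjoint (Vc c) (B t) := by
    intro c t
    by_cases h2 : c < k₀
    · rw [hVclt c h2]
      exact dVB c (by omega) t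
    · rw [hVcge c h2]
      exact disjoint_empty_left _
  have hVW : ∀ c, ∀ j < J, Disjoint (Vc c) (Wf j) := by
    intro c j hj
    by_cases h2 : c < k₀
    · rw [hVclt c h2]
      exact dVW c (by omega) j hj
    · rw [hVcge c h2]
      exact disjoint_empty_left _
  have hVE : ∀ c, ∀ j < J, ∀ i < K, Disjoint (Vc c) (Ej j i) := by
    intro c j hj i hi
    by_cases h2 : c < k₀
    · rw [hVclt c h2]
      exact dVE c (by omega) j hj i hi
    · rw [hVcge c h2]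
      exact disjoint_empty_left _
  -- phase 1
  obtain ⟨f1, hemb, f1m⟩ := h3 (Fin n) H (B 0) g gw (γ / 100) p Ku d m b hp0 hg0
    hη0 (by rw [hg]; linarith) hKu0 hUU wsB0 okB0 N1 par1 Δ v₀ k₀ E Q κ Vc hVT1 hBD1
    hbd hNpos hD hCol (fun x hx => (hκ x hx).1) dVV'
    (fun x hx => ⟨cVc _ (hκ x hx).1, by
      have e := hVclt _ (hκ x hx).1
      rw [e]
      exact hDGc _ (Or.inl ⟨κ x, Nat.lt_succ_of_lt (hκ x hx).1, rfl⟩) (by rw [← e]; exact hsV x hx),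
      by
      have := hKup _ (hsV x hx)
      linarith⟩) (fun c => ⟨hVB c 0, hv₀V c⟩) (hv₀B 0) (by
      rw [cB0]
      refine hWs2.trans ?_
      exact mul_le_mul_of_nonneg_left hw1 hgw0.le)
  obtain ⟨ya, yb, hya, hyb, yai, ybi, yne, hfin⟩ := hctr f1 hemb
  -- the remainder
  set T₁ : Finset (Fin n) := B 0 ∪ (range k₀).biUnion Vc ∪ {v₀} with hT₁
  have hT₁c : T₁.card = w1 + E.card + 1 := by
    have e1 : Disjoint (B 0) ((range k₀).biUnion Vc) := by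
      rw [disjoint_biUnion_right]
      intro c _
      exact (hVB c 0).symm
    have e2 : Disjoint (B 0 ∪ (range k₀).biUnion Vc) {v₀} := by
      rw [disjoint_singleton_right, mem_union, mem_biUnion]
      rintro (h2 | ⟨c, -, h2⟩)
      · exact hv₀B 0 h2
      · exact hv₀V c h2
    rw [hT₁, card_union_of_disjoint e2, card_union_of_disjoint e1, card_singleton, cB0,
      card_biUnion (fun c _ c' _ hne => dVV' c c' hne), ← hcol]
    congr 2
    refine Finset.sum_congr rfl fun c hc => cVc c (mem_range.1 hc)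
  have hT₁m : ∀ i < N1, f1 i ∈ T₁ := by
    intro i hi
    rw [hT₁, mem_union, mem_union, mem_biUnion, mem_singleton]
    rcases f1m i hi with h2 | h2 | ⟨c, hc, h2⟩
    · exact Or.inr h2
    · exact Or.inl (Or.inl h2)
    · exact Or.inl (Or.inr ⟨c, mem_range.2 hc, h2⟩)
  have hT₁d : ∀ S : Finset (Fin n), Disjoint (B 0) S → (∀ c < k₀ + 1, Disjoint (Vd c) S) →
      Disjoint T₁ S := by
    intro S hS1 hS2
    rw [hT₁, disjoint_union_left, disjoint_union_left, disjoint_biUnion_left]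
    refine ⟨⟨hS1, fun c hc => ?_⟩, ?_⟩
    · rw [mem_range] at hc
      rw [hVclt c hc]
      exact hS2 c (by omega)
    · rw [← hv₀]
      exact hS2 k₀ (Nat.lt_succ_self _)
  set R₁ : Finset (Fin n) := T₁ \ (range N1).image f1 with hR₁
  have hR₁c : R₁.card + wsc = w1 := by
    have h2 : ((range N1).image f1).card = N1 := by
      rw [card_image_of_injOn (by
        intro x hx y hy hxy
        exact hemb.1 hx hy hxy), card_range]
    have h4 : (range N1).image f1 ⊆ T₁ := by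
      intro v hv
      obtain ⟨x, hx, rfl⟩ := mem_image.mp hv
      exact hT₁m x (mem_range.1 hx)
    have h5 := card_sdiff_add_card_eq_card h4
    rw [← hR₁, h2, hT₁c] at h5
    omega
  have hR₁s : R₁ ⊆ T₁ := sdiff_subset
  have dTB : ∀ t, t ≠ 0 → Disjoint T₁ (B t) := fun t ht =>
    hT₁d _ (dBB 0 t (Ne.symm ht)) (fun c hc => dVB c hc t)
  have dTW : ∀ j < J, Disjoint T₁ (Wf j) := fun j hj =>
    hT₁d _ (dWB 0 j hj).symm (fun c hc => dVW c hc j hj)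
  have dTE : ∀ j < J, ∀ i < K, Disjoint T₁ (Ej j i) := fun j hj i hi =>
    hT₁d _ (dEB 0 j hj i hi).symm (fun c hc => dVE c hc j hj i hi)
  -- the image of the small tree avoids everything
  have hav : ∀ i < N1, (f1 i ∉ R₁ ∪ B 1 ∪ B 2 ∪ B 3) ∧ ∀ j < J, f1 i ∉ Wf j ∧
      ∀ k < K, f1 i ∉ Ej j k := by
    intro i hi
    have hm := hT₁m i hi
    refine ⟨?_, fun j hj => ⟨fun h => ?_, fun k hk' h => ?_⟩⟩
    · intro h
      rw [mem_union, mem_union, mem_union] at h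
      rcases h with ((h | h) | h) | h
      · rw [hR₁, mem_sdiff] at h
        exact h.2 (mem_image_of_mem f1 (mem_range.2 hi))
      · exact disjoint_left.mp (dTB 1 (by decide)) hm h
      · exact disjoint_left.mp (dTB 2 (by decide)) hm h
      · exact disjoint_left.mp (dTB 3 (by decide)) hm h
    · exact disjoint_left.mp (dTW j hj) hm h
    · exact disjoint_left.mp (dTE j hj k hk') hm h
  refine hfin (R₁ ∪ B 1 ∪ B 2 ∪ B 3 ∪
    (range J).biUnion (fun j => Wf j ∪ (range K).biUnion (Ej j))) ?_ ?_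
  · intro i hi h
    obtain ⟨h2, h3⟩ := hav i hi
    rw [mem_union] at h
    rcases h with h | h
    · exact h2 h
    · rw [mem_biUnion] at h
      obtain ⟨j, hj, h⟩ := h
      rw [mem_range] at hj
      rw [mem_union] at h
      rcases h with h | h
      · exact (h3 j hj).1 h
      · rw [mem_biUnion] at h
        obtain ⟨k, hk, h⟩ := h
        exact (h3 j hj).2 k (mem_range.mp hk) h
  -- the templates
  obtain ⟨Γ', hΓ1, hΓ2, hΓ3⟩ := transport (⟨0, hn⟩ : Fin n) z' z b (B 2) (B 3) cB2 cB3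
    (dBB 2 3 (by decide)) Γ hΓ hΓd hrob
  have hNg' : ∑ x ∈ range (10 * z'), (Γ' x).card = Ng := by
    rw [← hNgΓ]
    exact Finset.sum_congr rfl fun x hx => (hΓ1 x (mem_range.mp hx)).2.2
  have hNg'' : ∑ x ∈ range (10 * z'), ((Γ' x).card : ℝ) = Ng := by
    rw [← hNg']
    push_cast
    rfl
  have dRB : ∀ t, t ≠ 0 → Disjoint R₁ (B t) := fun t ht => (dTB t ht).mono_left hR₁s
  refine h8 (Fin n) H g gw (γ / 100) p Ku d m b a ℓ K J Ej Wf
    (fun j => K * 2 ^ (J - 1 - j) * h) ρ R₁ (B 1) (B 2) (B 3) (10 * z') b z' Γ' hp0 hg0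
    (by linarith) hη0 (by rw [hg]; linarith) hKu0 hUU hK2 hℓ hgl ?_ ?_ dEE
    (fun j hj j' hj' hne => dWW j hj j' hj' hne) (fun j hj i hi j' hj' => dEW j hj i hi j' hj')
    ?_ (dRB 1 (by decide)) ?_ ?_ wpB1 okB1 wpB3 okB3 (fun x hx => ⟨(hΓ1 x hx).1, (hΓ1 x hx).2.1⟩)
    hΓ2 hbd2 hΓ3 ?_ ?_ ?_ ?_ ℕ X ya yb ?_ yai ybi yne ?_
  · intro j hj i hi
    refine ⟨?_, hDGc _ (Or.inr (Or.inr (Or.inl ⟨j, hj, i, hi, rfl⟩))) (hsE j hj i hi)⟩
    rw [cE j hj i hi]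
    have := hρN j hj
    omega
  · intro j hj
    obtain ⟨wp, ok, -⟩ := hWP (Wf j) (hsW j hj)
      (hDGc _ (Or.inr (Or.inr (Or.inr ⟨j, hj, rfl⟩))) (hsW j hj))
    refine ⟨wp, ok, ?_, ?_, ?_, hρg j hj⟩
    · rw [cW j hj]
      exact hρW j hj
    · rw [cW j hj]
      push_cast
      have h2 : (0 : ℝ) ≤ (K : ℝ) * 2 ^ (J - 1 - j) * h := by positivity
      have h3 := mul_le_mul_of_nonneg_right hω2 h2
      linarith
    · apply hKup
      have h2 := hNh j hj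
      have h3 : h ≤ K * 2 ^ (J - 1 - j) * h := by omega
      exact_mod_cast h3
  · intro j hj
    constructor
    · rw [disjoint_union_right, disjoint_union_right, disjoint_union_right]
      exact ⟨⟨⟨(dTW j hj).symm.mono_right hR₁s, dWB 1 j hj⟩, dWB 2 j hj⟩, dWB 3 j hj⟩
    · intro i hi
      rw [disjoint_union_right, disjoint_union_right, disjoint_union_right]
      exact ⟨⟨⟨(dTE j hj i hi).symm.mono_right hR₁s, dEB 1 j hj i hi⟩, dEB 2 j hj i hi⟩,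
        dEB 3 j hj i hi⟩
  · rw [disjoint_union_left]
    exact ⟨dRB 2 (by decide), dBB 1 2 (by decide)⟩
  · rw [disjoint_union_left, disjoint_union_left]
    exact ⟨⟨dRB 3 (by decide), dBB 1 3 (by decide)⟩, dBB 2 3 (by decide)⟩
  · rw [hNg'', cB1]
    exact hNg.trans (mul_le_mul_of_nonneg_left hwA hgw0.le)
  · rw [cB3, hρJ]
    exact hz
  · rw [cB3, hρJ]
    have e1 : (z' : ℝ) ≤ z := by
      have : z' ≤ z := by omega
      exact_mod_cast this
    have e2 : (z' : ℝ) = C4 * h := by rw [hz']; push_cast; rfl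
    have e3 := mul_le_mul_of_nonneg_right hC4 hh0.le
    have e4 := mul_le_mul_of_nonneg_left e1 hgw0.le
    have e5 : (C3 : ℝ) = K * q := by rw [hC3]; push_cast; rfl
    rw [e5] at e3
    rw [e2] at e4
    push_cast
    linarith
  · rw [hNg', hρ0, cB1, hℓ1]
    omega
  · rw [hXc, hNg', hρJ]
  · intro i hi
    obtain ⟨i1, hi1, e1⟩ := hya i hi
    obtain ⟨i2, hi2, e2⟩ := hyb i hi
    rw [e1, e2]
    obtain ⟨u1, u2⟩ := hav i1 hi1
    obtain ⟨v1, v2⟩ := hav i2 hi2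
    exact ⟨u1, v1, fun j hj => ⟨(u2 j hj).1, (v2 j hj).1, fun k hk =>
      ⟨(u2 j hj).2 k hk, (v2 j hj).2 k hk⟩⟩⟩

end CASEQ_

set_option maxHeartbeats 4000000 in
open CASEQ_ Pool.Agent.RST.CASEB_ in
theorem pCASEQ (h1 : T_RPART) (h2 : T_LG) (h3 : T_INIT) (h4 : T_WSL) (h5 : T_PHS) (h6 : T_DEC)
    (h7 : T_BARE) (h8 : T_CTR) (h9 : T_TPLP) (h10 : T_LINK) (h11 : T_NUMQ) : T_CASEQ := by
  intro Δ γ C₁ hΔ hγ hγ1 hC
  obtain ⟨g, hg⟩ : ∃ g : ℝ, g = γ / 2 := ⟨_, rfl⟩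
  obtain ⟨gw, hgw⟩ : ∃ gw : ℝ, gw = g / 4 := ⟨_, rfl⟩
  have hg0 : 0 < g := by rw [hg]; linarith
  have hg1 : g ≤ 1 / 4 := by rw [hg]; linarith
  have hgw0 : 0 < gw := by rw [hgw]; linarith
  obtain ⟨eps, heps⟩ : ∃ eps : ℝ, eps = gw * (g / 400) / 16 := ⟨_, rfl⟩
  have heps0 : 0 < eps := by rw [heps]; positivity
  obtain ⟨k₀, ξ, N₀, hξ, hDEC⟩ := h6 Δ 2 hΔ (by norm_num) eps heps0
  obtain ⟨C₀, z₀, hC₀, hTPL⟩ := h9
  obtain ⟨C, n₀, hNUM⟩ := h11 g (C₁ + 1) (γ / 100) ξ C₀ k₀ z₀ N₀ Δ hg0 hg1 (by linarith)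
    (by linarith) hξ hC₀
  refine ⟨C, n₀, ?_⟩
  intro n hn p hp hp1 H hUU hdeg par hVT hBD hlv
  obtain ⟨a, ω, q, K, ℓ, C3, C4, h, m, b, d, z', z, J, c1, c2, hn1, hp0, hN0, hK2, hℓ, hgl, hq,
    hω2, hK4, hC3', hC4, hC34, hC31, hC41, hz', hz, hz0, hzn, hc1e, hc2e, hc2g, hm1, hh1, hb2,
    hCb, hmb, hbd, hbd2, haℓ, hKm, hKu, hmd, hKd, hbud, hwsl, hhξ, hhg, hNg, hc2, hc1, hkm, hlog,
    hJ1, hJc1, hJc2, hexp⟩ := hNUM n hn p hp hp1
  have hn0 : (0 : ℝ) < n := by exact_mod_cast hn1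
  have hh0 : (0 : ℝ) < h := by exact_mod_cast hh1
  have hL0 : 0 ≤ Real.log n := Real.log_nonneg (by exact_mod_cast hn1)
  have hKu0 : 0 ≤ C₁ * Real.log n := mul_nonneg hC hL0
  have hKle : C₁ * Real.log n ≤ (C₁ + 1) * Real.log n := by nlinarith
  have hℓp : (0 : ℝ) < (ℓ : ℝ) + 1 := by positivity
  have hc1ℓ : c1 * (8 * ((ℓ : ℝ) + 1)) = 1 := by
    rw [hc1e]
    field_simp
  have hc10 : 0 < c1 := by rw [hc1e]; positivity
  have hc20 : 0 < c2 := by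
    have : 0 < g / 400 := by positivity
    linarith
  -- `1 ≤ a`
  have ha1 : 1 ≤ a := by
    by_contra hcon
    have ha0 : a = 0 := by omega
    rw [ha0, pow_zero] at hmb
    have hm : (m : ℝ) ≤ 1 := by exact_mod_cast hmb
    have e1 : g * p * m ≤ 1 / 4 := by
      have e2 : g * p ≤ 1 / 4 := by nlinarith
      have e3 : 0 ≤ g * p := by positivity
      calc g * p * m ≤ g * p * 1 := mul_le_mul_of_nonneg_left hm e3
        _ ≤ 1 / 4 := by linarith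
    have e2 : Real.log n ≤ 1 := by nlinarith
    have e3 : Real.log n ^ 3 ≤ 1 := pow_le_one₀ hL0 e2
    have e4 : (0 : ℝ) ≤ ℓ := Nat.cast_nonneg _
    linarith
  -- the waste sets
  have hWP : ∀ W : Finset (Fin n), (h : ℝ) ≤ W.card → DG H g p W →
      WPar H W gw d m b a ℓ ∧ OK H W d m ∅ ∅ ∧ WS H W gw d m b := by
    intro W hW hDG
    have hη0 : (0 : ℝ) ≤ γ / 100 := by linarith
    have hη1 : γ / 100 ≤ g / 4 := by rw [hg]; linarith
    have hg2 : g ≤ 1 / 2 := by linarith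
    have hphW : p * h ≤ p * W.card := mul_le_mul_of_nonneg_left hW hp0.le
    have hKm' : 8 * (C₁ * Real.log n) ≤ g * p * m := by linarith
    have hKW : 8 * (C₁ * Real.log n) ≤ g * p * W.card := by
      have e1 : g * (p * h) ≤ g * (p * W.card) := mul_le_mul_of_nonneg_left hphW hg0.le
      have e2 : 0 ≤ g * (p * h) := by positivity
      have e3 : 0 ≤ (C₁ + 1) * Real.log n := by positivity
      nlinarith
    have hgW : g / 4 * h ≤ g / 4 * W.card := mul_le_mul_of_nonneg_left hW (by linarith)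
    have hmd' : 16 * (m : ℝ) * d ≤ W.card := hmd.trans hW
    have hKd' : 4 * (C₁ * Real.log n) * (1 + d) < p * W.card := by
      have e1 : (0 : ℝ) ≤ 1 + d := by positivity
      have e2 : 4 * (C₁ * Real.log n) * (1 + d) ≤ 4 * ((C₁ + 1) * Real.log n) * (1 + d) :=
        mul_le_mul_of_nonneg_right (by linarith) e1
      linarith
    obtain ⟨hWS, hOK⟩ := h4 (Fin n) H (γ / 100) p (C₁ * Real.log n) g W d m b hp0 hg0 hg2 hη0 hη1
      hKu0 hUU hDG hm1 hKm' hKW hmd' hKd' hb2 (by omega) (hwsl.trans hgW)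
    refine ⟨?_, hOK, by rw [hgw]; exact hWS⟩
    exact
      { g0 := hgw0
        g1 := by rw [hgw]; linarith
        lg := by
          intro X hX
          rw [hgw]
          exact h2 (Fin n) H (γ / 100) p (C₁ * Real.log n) g W m hp0 hg0 hg2 hη0 hη1 hKu0 hm1 hUU
            hKm' hKW hDG X hX
        m1 := hm1
        b1 := by omega
        a1 := ha1
        bd := by omega
        mb := hmb
        len := haℓ
        bud := by rw [hgw]; exact hbud.trans hgW }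
  -- the templates
  have hz1 : (ℓ - 2) * (K * (q * h)) ≤ z' := by
    rw [hz']
    calc (ℓ - 2) * (K * (q * h)) = ((ℓ - 2) * C3) * h := by rw [hC3']; ring
      _ ≤ C4 * h := Nat.mul_le_mul_right _ hC34
  have hz'1 : 1 ≤ z' := by
    rw [hz']
    exact Nat.mul_pos (by omega) (by omega)
  obtain ⟨Γ, hΓ, hΓd, hrob⟩ := hTPL z' z (by omega) (by omega) (by omega)
  have hz'r : (z' : ℝ) = C4 * h := by rw [hz']; push_cast; rfl
  have hzb : C₀ * Real.log z ≤ b := by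
    have e1 : Real.log z ≤ Real.log n := by
      apply Real.log_le_log
      · have : 1 ≤ z := by omega
        exact_mod_cast this
      · exact_mod_cast hzn
    have e2 := mul_le_mul_of_nonneg_left e1 hC₀.le
    exact e2.trans hCb
  have hΓc : ∀ x < 10 * z', (Γ x).card ≤ b := by
    intro x hx
    have := (hΓ x hx).2.2.trans hzb
    exact_mod_cast this
  have hΓd' : ∀ y, ((range (10 * z')).filter (fun x => y ∈ Γ x)).card ≤ b := by
    intro y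
    have := (hΓd y).trans hzb
    exact_mod_cast this
  obtain ⟨Ng, hNgd⟩ : ∃ Ng, ∑ x ∈ range (10 * z'), (Γ x).card = Ng := ⟨_, rfl⟩
  have hNg1 : Ng ≤ 10 * z' * b := by
    rw [← hNgd]
    calc ∑ x ∈ range (10 * z'), (Γ x).card ≤ ∑ x ∈ range (10 * z'), b :=
          Finset.sum_le_sum fun x hx => hΓc x (mem_range.mp hx)
      _ = 10 * z' * b := by simp
  have hNg1r : (Ng : ℝ) ≤ 10 * (C4 * h) * b := by
    have : (Ng : ℝ) ≤ 10 * z' * b := by exact_mod_cast hNg1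
    rw [hz'r] at this
    exact this
  have hNg8 : 8 * ((Ng : ℝ) * ℓ) ≤ gw * (c2 * n) := by
    have h0 : (0 : ℝ) ≤ ℓ := Nat.cast_nonneg _
    have := mul_le_mul_of_nonneg_right hNg1r h0
    rw [hgw]
    linarith
  -- the bare paths
  obtain ⟨Nres, hNres⟩ : ∃ Nres, Nres = Ng + ∑ j ∈ range J, K * 2 ^ (J - 1 - j) * h +
    K * (q * h) := ⟨_, rfl⟩
  have hNres1 : (Nres : ℝ) ≤ 3 * (c1 * n) := by
    have e1 : Nres ≤ Ng + 2 * (K * 2 ^ (J - 1) * h) + C3 * h := by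
      have := sumN K J h hJ1
      have e2 : K * (q * h) = C3 * h := by rw [hC3']; ring
      omega
    have e2 : (Nres : ℝ) ≤ Ng + 2 * (K * 2 ^ (J - 1) * h) + C3 * h := by exact_mod_cast e1
    linarith
  have hlv' : ((lv n par).card : ℝ) ≤ c1 * n := by
    have e0 : (0 : ℝ) ≤ (lv n par).card := Nat.cast_nonneg _
    have e1 : (16 : ℝ) * ((ℓ : ℝ) + 1) * (lv n par).card ≤ n :=
      (mul_le_mul_of_nonneg_right hlog e0).trans hlv
    have e2 : ((ℓ : ℝ) + 1) * (8 * (lv n par).card) ≤ ((ℓ : ℝ) + 1) * (8 * (c1 * n)) := by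
      have e3 : ((ℓ : ℝ) + 1) * (8 * (c1 * n)) = n := by
        have : ((ℓ : ℝ) + 1) * (8 * (c1 * n)) = (c1 * (8 * ((ℓ : ℝ) + 1))) * n := by ring
        rw [this, hc1ℓ, one_mul]
      rw [e3]
      have e4 : 0 ≤ ((ℓ : ℝ) + 1) * (8 * (lv n par).card) := by positivity
      linarith
    have e5 := le_of_mul_le_mul_left e2 hℓp
    linarith
  obtain ⟨X0, hX0, hX0c⟩ := h7 n par ℓ (by omega) hVT
  have hX0r : (n : ℝ) ≤ ((ℓ : ℝ) + 1) * (X0.card + 2 * (lv n par).card) := by exact_mod_cast hX0c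
  have hX0N : Nres ≤ X0.card := by
    have e1 : ((ℓ : ℝ) + 1) * (X0.card + 2 * (lv n par).card) ≤
        ((ℓ : ℝ) + 1) * (X0.card + 2 * (c1 * n)) :=
      mul_le_mul_of_nonneg_left (by linarith) hℓp.le
    have e2 : ((ℓ : ℝ) + 1) * (2 * (c1 * n)) = n / 4 := by
      have : ((ℓ : ℝ) + 1) * (2 * (c1 * n)) = (c1 * (8 * ((ℓ : ℝ) + 1))) * n / 4 := by ring
      rw [this, hc1ℓ, one_mul]
    have e3 : ((ℓ : ℝ) + 1) * (3 * (c1 * n)) = 3 * n / 8 := by
      have : ((ℓ : ℝ) + 1) * (3 * (c1 * n)) = 3 * ((c1 * (8 * ((ℓ : ℝ) + 1))) * n) / 8 := by ring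
      rw [this, hc1ℓ, one_mul]
    have e4 : ((ℓ : ℝ) + 1) * (3 * (c1 * n)) ≤ ((ℓ : ℝ) + 1) * X0.card := by
      rw [e3]
      linarith
    have e5 := le_of_mul_le_mul_left e4 hℓp
    exact_mod_cast hNres1.trans e5
  obtain ⟨X, hXX, hXc⟩ := Finset.exists_subset_card_eq hX0N
  have hX : Bare n par ℓ X :=
    { sub := hXX.trans hX0.sub
      pos := fun x hx => hX0.pos x (hXX hx)
      one := fun x hx => hX0.one x (hXX hx)
      disj := fun x hx y hy => hX0.disj x (hXX hx) y (hXX hy) }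
  obtain ⟨N1, par1, hN1, hVT1, hBD1, hctr⟩ := h8 n par Δ ℓ X (by omega) hVT hBD hX
  rw [hXc] at hN1
  have hN1h : (n : ℝ) / 2 ≤ N1 := by
    have e1 : (N1 : ℝ) + ((ℓ - 1 : ℕ) : ℝ) * Nres = n := by exact_mod_cast hN1
    have e2 : ((ℓ - 1 : ℕ) : ℝ) ≤ (ℓ : ℝ) + 1 := by
      have : ℓ - 1 ≤ ℓ + 1 := by omega
      exact_mod_cast this
    have e3 : ((ℓ : ℝ) + 1) * (3 * (c1 * n)) = 3 * n / 8 := by
      have : ((ℓ : ℝ) + 1) * (3 * (c1 * n)) = 3 * ((c1 * (8 * ((ℓ : ℝ) + 1))) * n) / 8 := by ring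
      rw [this, hc1ℓ, one_mul]
    have e4 : ((ℓ - 1 : ℕ) : ℝ) * Nres ≤ ((ℓ : ℝ) + 1) * (3 * (c1 * n)) :=
      mul_le_mul e2 hNres1 (Nat.cast_nonneg _) hℓp.le
    linarith
  have hN1N : N₀ ≤ N1 := by
    have e1 : (2 : ℝ) * N₀ ≤ n := by exact_mod_cast hN0
    have e2 : (N₀ : ℝ) ≤ N1 := by linarith
    exact_mod_cast e2
  obtain ⟨E, Q, κ, hD, hWs, hCol, hκ, -⟩ := hDEC N1 par1 (fun _ => false) hN1N hVT1 hBD1
  rw [hNres] at hN1 hXc
  exact core h1 h5 h10 n H p γ g gw (C₁ * Real.log n) c1 c2 ξ eps Δ a ω q K ℓ C3 C4 k₀ J h b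
    m d z' z Ng hn1 hp0 hγ hγ1 hg hgw hKu0 hUU hdeg hK2 hℓ hgl hq
    (by rw [hgw]; exact hω2) hK4 hC3' (by rw [hgw]; exact hC4) hC41 hz' hz hc20.le hc2g hc2e heps
    (by rw [hgw]; exact hkm) hh1 (by rw [hgw]; linarith) hhξ hξ hNg8 hc2 hJ1 hJc2 hexp hWP
    hbd hbd2 Γ
    (fun x hx => ⟨(hΓ x hx).1, (hΓ x hx).2.1⟩) hΓd' hrob hNgd N1 par par1 hVT1 hBD1 hN1 hN1h E Q κ
    hD hWs hCol hκ X hXc (fun f₁ hf => hctr (Fin n) H f₁ hf)

end Pool.Agent.RSP
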