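import Pool.Agent.RSP.Targets

/-!
# DECP: decomposition of a tree, where the waste is small compared with the number of leaves
-/

set_option autoImplicit false

open Finset

namespace Pool.Agent.RSP

open Pool.Agent.RST Pool.Agent.RSL

namespace DECP_

/-- iterates of the parent function below a positive vertex -/
private lemma iter_lt {n : ℕ} {par : ℕ → ℕ} (hVT : VT n par) {x : ℕ} (hx : x < n) :
    ∀ j : ℕ, (∀ i < j, 0 < par^[i] x) → par^[j] x < n := by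
  intro j
  induction j with
  | zero => intro _; exact hx
  | succ j ih =>
    intro h
    have h1 := ih (fun i hi => h i (by omega))
    have h2 := h j (by omega)
    rw [Function.iterate_succ_apply']
    exact (hVT _ h2 h1).trans h1

/-- few long bare paths -/
private lemma long_card {Δ n N' : ℕ} {par par' e len : ℕ → ℕ} (hVT : VT n par)
    (hNd : Nd Δ n par N' par' e len) (Lm : ℕ) :
    Lm * ((range N').filter (fun i => 0 < i ∧ Lm ≤ len i)).card ≤ n := by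
  have h1 : (((range N').filter (fun i => 0 < i ∧ Lm ≤ len i)) ×ˢ range Lm).card ≤
      (range n).card := by
    refine card_le_card_of_injOn (fun p => par^[p.2] (e p.1)) ?_ ?_
    · rintro ⟨i, j⟩ hij
      have h := mem_product.1 (mem_coe.1 hij)
      rw [mem_filter, mem_range, mem_range] at h
      obtain ⟨⟨h1, h2, h3⟩, h4⟩ := h
      simp only at h1 h2 h3 h4
      refine mem_coe.2 (mem_range.2 ?_)
      refine iter_lt hVT (hNd.lt i h1) j fun l hl => ?_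
      exact hNd.pos i h1 h2 l (by omega)
    · rintro ⟨i, j⟩ hij ⟨i', j'⟩ hij' heq
      have h := mem_product.1 (mem_coe.1 hij)
      have h' := mem_product.1 (mem_coe.1 hij')
      rw [mem_filter, mem_range, mem_range] at h h'
      obtain ⟨⟨h1, h2, h3⟩, h4⟩ := h
      obtain ⟨⟨h1', h2', h3'⟩, h4'⟩ := h'
      simp only at h1 h2 h3 h4 h1' h2' h3' h4'
      obtain ⟨h5, h6⟩ := hNd.dis i h1 i' h1' h2 h2' j (by omega) j' (by omega) heq
      rw [h5, h6]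
  rw [card_product, card_range, card_range, mul_comm] at h1
  exact h1

/-- the numerical choices -/
private lemma numbers {AT L1 cε r : ℕ} (hr : 1 ≤ r) :
    ((AT * (2 * (L1 * r) + 2) ^ AT + L1 * r + 1) * (L1 * r + 1)) ^ 2 * cε * r ≤
      ((AT * (2 * L1 + 2) ^ AT + L1 + 1) * (L1 + 1)) ^ 2 * cε * r ^ (2 * (AT + 2) + 1) := by
  have h0 : 1 ≤ r ^ (AT + 1) := Nat.one_le_pow _ _ hr
  have h1 : (2 * (L1 * r) + 2) ^ AT ≤ (2 * L1 + 2) ^ AT * r ^ AT := by
    rw [← mul_pow]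
    refine Nat.pow_le_pow_left ?_ _
    have : 2 * L1 * r + 2 * 1 ≤ 2 * L1 * r + 2 * r := by omega
    calc 2 * (L1 * r) + 2 = 2 * L1 * r + 2 * 1 := by ring
      _ ≤ 2 * L1 * r + 2 * r := this
      _ = (2 * L1 + 2) * r := by ring
  have h2 : AT * (2 * (L1 * r) + 2) ^ AT + L1 * r + 1 ≤
      (AT * (2 * L1 + 2) ^ AT + L1 + 1) * r ^ (AT + 1) := by
    have e1 : AT * (2 * (L1 * r) + 2) ^ AT ≤ AT * (2 * L1 + 2) ^ AT * r ^ (AT + 1) := by
      calc AT * (2 * (L1 * r) + 2) ^ AT ≤ AT * ((2 * L1 + 2) ^ AT * r ^ AT) :=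
            Nat.mul_le_mul_left _ h1
        _ = AT * (2 * L1 + 2) ^ AT * r ^ AT := by ring
        _ ≤ AT * (2 * L1 + 2) ^ AT * r ^ (AT + 1) :=
            Nat.mul_le_mul_left _ (Nat.pow_le_pow_right hr (Nat.le_succ _))
    have e2 : L1 * r ≤ L1 * r ^ (AT + 1) := by
      refine Nat.mul_le_mul_left _ ?_
      calc r = r ^ 1 := (pow_one r).symm
        _ ≤ r ^ (AT + 1) := Nat.pow_le_pow_right hr (by omega)
    calc AT * (2 * (L1 * r) + 2) ^ AT + L1 * r + 1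
        ≤ AT * (2 * L1 + 2) ^ AT * r ^ (AT + 1) + L1 * r ^ (AT + 1) + r ^ (AT + 1) := by
          omega
      _ = (AT * (2 * L1 + 2) ^ AT + L1 + 1) * r ^ (AT + 1) := by ring
  have h3 : L1 * r + 1 ≤ (L1 + 1) * r := by
    calc L1 * r + 1 ≤ L1 * r + r := by omega
      _ = (L1 + 1) * r := by ring
  calc ((AT * (2 * (L1 * r) + 2) ^ AT + L1 * r + 1) * (L1 * r + 1)) ^ 2 * cε * r
      ≤ (((AT * (2 * L1 + 2) ^ AT + L1 + 1) * r ^ (AT + 1)) * ((L1 + 1) * r)) ^ 2 * cε * r := by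
        refine Nat.mul_le_mul_right _ (Nat.mul_le_mul_right _ (Nat.pow_le_pow_left ?_ _))
        exact Nat.mul_le_mul h2 h3
    _ = ((AT * (2 * L1 + 2) ^ AT + L1 + 1) * (L1 + 1)) ^ 2 * cε * r ^ (2 * (AT + 2) + 1) := by
        ring

end DECP_

open DECP_ in
/-- DECP -/
theorem pDECP (h1 : T_CUT) (h2 : T_TYP) (h3 : T_NODE) (h4 : T_EXP) (h5 : T_RARE) (h6 : T_PIEC)
    (h7 : T_DISS) : T_DECP := by
  classical
  intro Δ ε hΔ hε
  obtain ⟨ε₁, hε₁⟩ : ∃ ε₁ : ℝ, ε₁ = min ε 1 / 200 := ⟨_, rfl⟩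
  have hε₁0 : 0 < ε₁ := by
    rw [hε₁]
    have := lt_min hε one_pos
    positivity
  have hε₁1 : ε₁ ≤ 1 / 200 := by
    rw [hε₁]
    have := min_le_right ε 1
    linarith
  have hε₁ε : 200 * ε₁ ≤ ε := by
    rw [hε₁]
    have := min_le_left ε 1
    linarith
  obtain ⟨S, hS⟩ := h1 Δ 2 hΔ (by norm_num) ε₁ hε₁0
  obtain ⟨AT, hAT⟩ := h2 S
  obtain ⟨L1, hL1⟩ : ∃ L1 : ℕ, L1 = ⌈((S : ℝ) + 1) / ε₁⌉₊ + 1 := ⟨_, rfl⟩
  have hL1' : ((S : ℝ) + 1) / ε₁ ≤ L1 := by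
    rw [hL1]
    push_cast
    have := Nat.le_ceil (((S : ℝ) + 1) / ε₁)
    linarith
  have hL1'' : (S : ℝ) + 1 ≤ ε₁ * L1 := by
    rw [div_le_iff₀ hε₁0] at hL1'
    linarith
  have hL1pos : 1 ≤ L1 := by omega
  obtain ⟨cε, hcε⟩ : ∃ cε : ℕ, cε = ⌈2 / ε₁⌉₊ + 1 := ⟨_, rfl⟩
  have hcε' : 2 ≤ ε₁ * cε := by
    have h : 2 / ε₁ ≤ cε := by
      rw [hcε]
      push_cast
      have := Nat.le_ceil (2 / ε₁)
      linarith
    rw [div_le_iff₀ hε₁0] at h
    linarith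
  obtain ⟨B, hB⟩ : ∃ B : ℕ, B = ((AT * (2 * L1 + 2) ^ AT + L1 + 1) * (L1 + 1)) ^ 2 * cε :=
    ⟨_, rfl⟩
  obtain ⟨cS, hcS⟩ : ∃ cS : ℕ, cS = ⌈13 * (ε₁ + S) / ε₁⌉₊ := ⟨_, rfl⟩
  have hcS' : 13 * (ε₁ + S) ≤ ε₁ * cS := by
    have h : 13 * (ε₁ + S) / ε₁ ≤ cS := by
      rw [hcS]
      exact Nat.le_ceil _
    rw [div_le_iff₀ hε₁0] at h
    linarith
  obtain ⟨A, hA⟩ : ∃ A : ℕ, A = B + (2 * (AT + 2) + 1) + cS + 1 := ⟨_, rfl⟩
  refine ⟨A, by omega, ?_⟩
  intro n r par hn hr hVT hBD hlam hAn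
  obtain ⟨lam, hlamdef⟩ : ∃ lam : ℕ, lam = (lv n par).card := ⟨_, rfl⟩
  rw [← hlamdef] at hlam ⊢
  -- the number of leaves is large
  have hlamA : A ≤ lam := by
    have e1 : A * r ^ A ≤ r * lam := hAn.trans hlam
    obtain ⟨A', hA'⟩ : ∃ A', A = A' + 1 := ⟨A - 1, by omega⟩
    have e2 : r * A ≤ A * r ^ A := by
      have : r ≤ r ^ A := by
        calc r = r ^ 1 := (pow_one r).symm
          _ ≤ r ^ A := Nat.pow_le_pow_right hr (by omega)
      calc r * A = A * r := mul_comm _ _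
        _ ≤ A * r ^ A := Nat.mul_le_mul_left _ this
    exact Nat.le_of_mul_le_mul_left (e2.trans e1) (by omega)
  obtain ⟨Lm, hLm⟩ : ∃ Lm : ℕ, Lm = L1 * r := ⟨_, rfl⟩
  have hLmpos : 1 ≤ Lm := by
    rw [hLm]
    exact Nat.mul_pos (by omega) (by omega)
  obtain ⟨k₁, hk₁⟩ : ∃ k₁ : ℕ, k₁ = (AT * (2 * Lm + 2) ^ AT + Lm + 1) * (Lm + 1) := ⟨_, rfl⟩
  have hk₁pos : 1 ≤ k₁ := by
    rw [hk₁]
    exact Nat.mul_pos (by omega) (by omega)
  have hkey : k₁ ^ 2 * cε * r ≤ A * r ^ A := by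
    have e1 := numbers (AT := AT) (L1 := L1) (cε := cε) hr
    rw [← hLm, ← hk₁, ← hB] at e1
    refine e1.trans ?_
    exact Nat.mul_le_mul (by omega) (Nat.pow_le_pow_right hr (by omega))
  -- the topological tree
  obtain ⟨N', par', e, len, hNd⟩ := h3 Δ n par hn hVT hBD
  have hN' : N' ≤ 2 * lam + 1 := by
    rw [hlamdef]
    exact hNd.c1
  obtain ⟨E₀, Q₀, hdcp, hps, hw⟩ := hS N' par' hNd.vt hNd.bd
  -- colours
  obtain ⟨κ', hκ1, hκ2, hκ3, hκ4, hκ5⟩ := hAT (2 * Lm + 2) par' E₀ Q₀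
    (fun i => 2 * min (len i) Lm + if chd N' par' i = ∅ then 1 else 0) (by omega) hdcp.QE
    hdcp.up hps (fun x => by
      have : (if chd N' par' x = ∅ then 1 else 0) ≤ 1 := by split_ifs <;> simp
      have := min_le_right (len x) Lm
      omega)
  obtain ⟨hP1, hP2, -, hP4, hP5, -, -, -, -⟩ := h6 par' E₀ Q₀ κ' _ hdcp.QE hdcp.up hκ3 hκ1
  -- removal of pieces with long bare paths
  set Bad : Finset ℕ := Q₀.filter (fun q => ∃ i ∈ pc par' E₀ Q₀ q, i ≠ q ∧ Lm ≤ len i) with hBad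
  have hBadQ : Bad ⊆ Q₀ := filter_subset _ _
  have hBadcard : Bad.card ≤ ((range N').filter (fun i => 0 < i ∧ Lm ≤ len i)).card := by
    have hch : ∀ q ∈ Bad, ∃ i ∈ pc par' E₀ Q₀ q, i ≠ q ∧ Lm ≤ len i := fun q hq =>
      (mem_filter.1 hq).2
    choose! i hi1 hi2 hi3 using hch
    refine card_le_card_of_injOn i ?_ ?_
    · intro q hq
      have hq' := mem_coe.1 hq
      have hqQ := hBadQ hq'
      have e1 := hi1 q hq'
      have e2 : i q ∈ E₀ := by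
        rw [hP5]
        exact mem_biUnion.2 ⟨q, hqQ, e1⟩
      have e3 := (hP2 q hqQ (i q) e1 (hi2 q hq')).1
      have e4 := (hdcp.up _ e2 e3).1
      refine mem_coe.2 (mem_filter.2 ⟨hdcp.EC e2, by omega, hi3 q hq'⟩)
    · intro q hq q' hq' heq
      by_contra hne
      have hd := hP4 q (hBadQ (mem_coe.1 hq)) q' (hBadQ (mem_coe.1 hq')) hne
      have e1 := hi1 q (mem_coe.1 hq)
      have e2 := hi1 q' (mem_coe.1 hq')
      rw [← heq] at e2
      exact (disjoint_left.1 hd) e1 e2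
  have hBadn : Lm * Bad.card ≤ n :=
    (Nat.mul_le_mul_left _ hBadcard).trans (long_card hVT hNd Lm)
  obtain ⟨hd1, hd2, hd3, hd4, -, -⟩ := h7 N' par' E₀ Q₀ Bad ((Q₀ \ Bad).biUnion (pc par' E₀ Q₀))
    (Q₀ \ Bad) κ' _ hdcp hκ3 hκ1 hBadQ rfl rfl
  set Q' : Finset ℕ := Q₀ \ Bad with hQ'
  set E' : Finset ℕ := Q'.biUnion (pc par' E₀ Q₀) with hE'
  have hrem : (E₀ \ E').card ≤ S * Bad.card := by
    have e1 : E₀ \ E' ⊆ Bad.biUnion (pc par' E₀ Q₀) := by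
      intro x hx
      rw [mem_sdiff] at hx
      have e2 := hx.1
      rw [hP5, mem_biUnion] at e2
      obtain ⟨q, hq, hxq⟩ := e2
      refine mem_biUnion.2 ⟨q, ?_, hxq⟩
      by_contra hcon
      exact hx.2 (mem_biUnion.2 ⟨q, mem_sdiff.2 ⟨hq, hcon⟩, hxq⟩)
    refine (card_le_card e1).trans ?_
    rw [mul_comm]
    exact card_biUnion_le_card_mul _ _ _ fun q hq => hκ5 q (hBadQ hq)
  have hshort : ∀ i ∈ E', i ∉ Q' → len i < Lm := by
    intro i hi hiQ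
    rw [hE', mem_biUnion] at hi
    obtain ⟨q, hq, hiq⟩ := hi
    have hq' := mem_sdiff.1 hq
    by_contra hcon
    refine hq'.2 (mem_filter.2 ⟨hq'.1, i, hiq, ?_, Nat.not_lt.1 hcon⟩)
    rintro rfl
    exact hiQ hq
  -- expansion
  obtain ⟨E₂, Q₂, κ, hx1, hx2, hx3, hx4, hx5⟩ := h4 Δ n N' Lm (AT * (2 * Lm + 2) ^ AT) par par' e
    len E' Q' κ' hn hLmpos hVT hBD hNd hd1 hd2 (fun i hi => hκ1 i (hd3 hi)) hshort
    (fun i hi i' hi' hii => by
      have hm := hκ4 i (hd3 hi) i' (hd3 hi') hii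
      constructor
      · by_cases c1 : chd N' par' i = ∅ <;> by_cases c2 : chd N' par' i' = ∅
        · exact ⟨fun _ => c2, fun _ => c1⟩
        · rw [if_pos c1, if_neg c2] at hm
          omega
        · rw [if_neg c1, if_pos c2] at hm
          omega
        · exact ⟨fun h => absurd h c1, fun h => absurd h c2⟩
      · intro hiQ
        have hiQ' : i' ∉ Q' := fun h => hiQ ((hd2.root i hi i' hi' hii).2 h)
        have s1 := hshort i hi hiQ
        have s2 := hshort i' hi' hiQ'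
        rw [min_eq_left s1.le, min_eq_left s2.le] at hm
        by_cases c1 : chd N' par' i = ∅ <;> by_cases c2 : chd N' par' i' = ∅
        · rw [if_pos c1, if_pos c2] at hm
          omega
        · rw [if_pos c1, if_neg c2] at hm
          omega
        · rw [if_neg c1, if_pos c2] at hm
          omega
        · rw [if_neg c1, if_neg c2] at hm
          omega)
  rw [← hk₁] at hx3
  -- removal of rare types
  obtain ⟨τ, hτ⟩ : ∃ τ : ℕ, τ = ⌊ε₁ * lam / k₁ ^ 2⌋₊ := ⟨_, rfl⟩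
  obtain ⟨E, Q, hr1, hr2, hr3, hr4, hr5⟩ := h5 n par E₂ Q₂ κ k₁ τ hx1 hx2 hx3
  -- the estimates
  have hlam0 : (0 : ℝ) ≤ lam := Nat.cast_nonneg _
  have hkr : (0 : ℝ) < (k₁ : ℝ) ^ 2 := by
    have : (1 : ℝ) ≤ k₁ := by exact_mod_cast hk₁pos
    positivity
  have hrpos : (0 : ℝ) < r := by exact_mod_cast hr
  have hnlam : (n : ℝ) ≤ r * lam := by exact_mod_cast hlam
  have hkeyR : (k₁ : ℝ) ^ 2 * cε * r ≤ A * (r : ℝ) ^ A := by exact_mod_cast hkey
  have hAnR : (A : ℝ) * (r : ℝ) ^ A ≤ n := by exact_mod_cast hAn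
  have hk2lam : 2 * (k₁ : ℝ) ^ 2 ≤ ε₁ * lam := by
    have e1 : (k₁ : ℝ) ^ 2 * cε * r ≤ r * lam := hkeyR.trans (hAnR.trans hnlam)
    have e2 : (k₁ : ℝ) ^ 2 * cε ≤ lam := by
      have e3 : (k₁ : ℝ) ^ 2 * cε * r ≤ lam * r := by linarith
      exact le_of_mul_le_mul_right e3 hrpos
    have e3 : ε₁ * ((k₁ : ℝ) ^ 2 * cε) ≤ ε₁ * lam := mul_le_mul_of_nonneg_left e2 hε₁0.le
    have e4 : (k₁ : ℝ) ^ 2 * 2 ≤ (k₁ : ℝ) ^ 2 * (ε₁ * cε) :=
      mul_le_mul_of_nonneg_left hcε' hkr.le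
    linarith
  have hτle : (τ : ℝ) ≤ ε₁ * lam / k₁ ^ 2 := by
    rw [hτ]
    exact Nat.floor_le (by positivity)
  have hτge : ε₁ * lam ≤ 2 * (k₁ : ℝ) ^ 2 * τ := by
    have e1 : ε₁ * lam / k₁ ^ 2 < τ + 1 := by
      rw [hτ]
      exact Nat.lt_floor_add_one _
    have e2 : 2 ≤ ε₁ * lam / k₁ ^ 2 := by
      rw [le_div_iff₀ hkr]
      exact hk2lam
    have e3 : ε₁ * lam / k₁ ^ 2 ≤ 2 * τ := by linarith
    rw [div_le_iff₀ hkr] at e3
    linarith
  have hwaste1 : ((E₀ \ E').card : ℝ) ≤ ε₁ * lam := by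
    have e1 : ((E₀ \ E').card : ℝ) ≤ S * Bad.card := by exact_mod_cast hrem
    have e2 : (Lm : ℝ) * Bad.card ≤ n := by exact_mod_cast hBadn
    have e3 : (Lm : ℝ) = L1 * r := by
      rw [hLm]
      push_cast
      ring
    rw [e3] at e2
    have e4 : (L1 : ℝ) * Bad.card ≤ lam := by
      have e5 : (L1 : ℝ) * Bad.card * r ≤ lam * r := by linarith
      exact le_of_mul_le_mul_right e5 hrpos
    have e5 : (S : ℝ) * Bad.card ≤ ε₁ * L1 * Bad.card := by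
      refine mul_le_mul_of_nonneg_right ?_ (Nat.cast_nonneg _)
      linarith
    have e6 : ε₁ * (L1 * Bad.card) ≤ ε₁ * lam := mul_le_mul_of_nonneg_left e4 hε₁0.le
    linarith
  have hwaste2 : ((range N' \ E').card : ℝ) ≤ 3 * ε₁ * lam + ε₁ + S := by
    have e1 : range N' \ E' ⊆ (range N' \ E₀) ∪ (E₀ \ E') := by
      intro x hx
      rw [mem_sdiff] at hx
      rw [mem_union, mem_sdiff, mem_sdiff]
      by_cases h : x ∈ E₀
      · exact Or.inr ⟨h, hx.2⟩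
      · exact Or.inl ⟨hx.1, h⟩
    have e2 := (card_le_card e1).trans (card_union_le _ _)
    have e3 : ((range N' \ E').card : ℝ) ≤ (range N' \ E₀).card + (E₀ \ E').card := by
      exact_mod_cast e2
    have e4 : (N' : ℝ) ≤ 2 * lam + 1 := by exact_mod_cast hN'
    have e5 : ε₁ * N' ≤ ε₁ * (2 * lam + 1) := mul_le_mul_of_nonneg_left e4 hε₁0.le
    linarith
  have hwaste3 : ((range n \ E₂).card : ℝ) ≤ 42 * ε₁ * lam := by
    have e1 : (Lm : ℝ) * (range n \ E₂).card ≤ 13 * Lm * (range N' \ E').card + 2 * n := by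
      exact_mod_cast hx5
    have e3 : (Lm : ℝ) = L1 * r := by
      rw [hLm]
      push_cast
      ring
    have hL1r : (1 : ℝ) ≤ L1 := by exact_mod_cast hL1pos
    have e4 : 2 * (n : ℝ) ≤ (Lm : ℝ) * (2 * ε₁ * lam) := by
      have e5 : (1 : ℝ) ≤ ε₁ * L1 := by
        have : (0 : ℝ) ≤ S := Nat.cast_nonneg _
        linarith
      have e6 : (r : ℝ) * lam * 1 ≤ r * lam * (ε₁ * L1) :=
        mul_le_mul_of_nonneg_left e5 (by positivity)
      rw [e3]
      nlinarith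
    have hLmr : (0 : ℝ) < Lm := by exact_mod_cast hLmpos
    have e5 : ((range n \ E₂).card : ℝ) ≤ 13 * (range N' \ E').card + 2 * ε₁ * lam := by
      have e6 : (Lm : ℝ) * (range n \ E₂).card ≤
          Lm * (13 * (range N' \ E').card + 2 * ε₁ * lam) := by linarith
      exact le_of_mul_le_mul_left e6 hLmr
    have e6 : 13 * (ε₁ + S) ≤ ε₁ * lam := by
      have e7 : (cS : ℝ) ≤ lam := by
        have : cS ≤ lam := by omega
        exact_mod_cast this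
      have e8 : ε₁ * cS ≤ ε₁ * lam := mul_le_mul_of_nonneg_left e7 hε₁0.le
      linarith
    linarith
  have hwaste4 : ((E₂ \ E).card : ℝ) ≤ ε₁ * lam := by
    have e1 : ((E₂ \ E).card : ℝ) ≤ k₁ * k₁ * τ := by exact_mod_cast hr4
    have e2 : (k₁ : ℝ) * k₁ * τ ≤ k₁ * k₁ * (ε₁ * lam / k₁ ^ 2) :=
      mul_le_mul_of_nonneg_left hτle (by positivity)
    have e3 : (k₁ : ℝ) * k₁ * (ε₁ * lam / k₁ ^ 2) = ε₁ * lam := by
      field_simp
    linarith
  refine ⟨E, Q, κ, hr2, hr3, ?_, ?_, ?_⟩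
  · have e1 : range n \ E ⊆ (range n \ E₂) ∪ (E₂ \ E) := by
      intro x hx
      rw [mem_sdiff] at hx
      rw [mem_union, mem_sdiff, mem_sdiff]
      by_cases h : x ∈ E₂
      · exact Or.inr ⟨h, hx.2⟩
      · exact Or.inl ⟨hx.1, h⟩
    have e2 := (card_le_card e1).trans (card_union_le _ _)
    have e3 : ((range n \ E).card : ℝ) ≤ (range n \ E₂).card + (E₂ \ E).card := by
      exact_mod_cast e2
    have e4 : 200 * ε₁ * lam ≤ ε * lam := mul_le_mul_of_nonneg_right hε₁ε hlam0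
    have e5 : 0 ≤ ε₁ * lam := by positivity
    linarith
  · intro x hx
    constructor
    · refine (hx3 x (hr1 hx)).trans_le ?_
      refine le_trans ?_ hkey
      have hc1 : 1 ≤ cε := by omega
      calc k₁ = k₁ * 1 * 1 := by ring
        _ ≤ k₁ ^ 2 * cε * r := by
          refine Nat.mul_le_mul (Nat.mul_le_mul ?_ hc1) hr
          rw [pow_two]
          exact Nat.le_mul_of_pos_left _ hk₁pos
    · have e1 := hr5 x hx
      have e2 : (τ : ℝ) ≤ ((E.filter (fun y => κ y = κ x)).card : ℝ) := by exact_mod_cast e1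
      have e3 : (n : ℝ) ≤ A * (r : ℝ) ^ A * ((E.filter (fun y => κ y = κ x)).card : ℝ) := by
        have e4 : (lam : ℝ) ≤ k₁ ^ 2 * cε * τ := by
          have e5 : 2 * (lam : ℝ) ≤ ε₁ * cε * lam := mul_le_mul_of_nonneg_right hcε' hlam0
          have e6 : cε * (ε₁ * lam) ≤ cε * (2 * (k₁ : ℝ) ^ 2 * τ) :=
            mul_le_mul_of_nonneg_left hτge (Nat.cast_nonneg _)
          linarith
        calc (n : ℝ) ≤ r * lam := hnlam
          _ ≤ r * (k₁ ^ 2 * cε * τ) := mul_le_mul_of_nonneg_left e4 hrpos.le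
          _ = (k₁ ^ 2 * cε * r) * τ := by ring
          _ ≤ (A * (r : ℝ) ^ A) * τ := mul_le_mul_of_nonneg_right hkeyR (Nat.cast_nonneg _)
          _ ≤ _ := mul_le_mul_of_nonneg_left e2 (by positivity)
      exact_mod_cast e3
  · intro x hx y hy hxy
    exact hx4 x (hr1 hx) y (hr1 hy) hxy

end Pool.Agent.RSP
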