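import Pool.Agent.RSL.Targets

/-!
# Definitions for the project RSP (MP_052821_co)

Resilience of ALL bounded degree spanning trees in `G(n,p)`, `p ≥ (log n)^C / n`.
-/

set_option autoImplicit false

open Finset

namespace Pool.Agent.RSP

open Pool.Agent.RST Pool.Agent.RSL

/-- the topological tree `(N', par')` of the tree `(n, par)`: `e` enumerates the root and the
vertices which do not have exactly one child, `len i` is the length of the bare path from `e i` up
to the next such vertex `e (par' i)` -/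
structure Nd (Δ n : ℕ) (par : ℕ → ℕ) (N' : ℕ) (par' e len : ℕ → ℕ) : Prop where
  vt : VT N' par'
  bd : BD N' par' Δ
  mono : ∀ i < N', ∀ j < N', i < j → e i < e j
  e0 : e 0 = 0
  lt : ∀ i < N', e i < n
  len1 : ∀ i < N', 0 < i → 1 ≤ len i
  up : ∀ i < N', 0 < i → par^[len i] (e i) = e (par' i)
  pos : ∀ i < N', 0 < i → ∀ j < len i, 0 < par^[j] (e i)
  one : ∀ i < N', 0 < i → ∀ j, 1 ≤ j → j < len i → chd n par (par^[j] (e i)) = {par^[j - 1] (e i)}
  cov : ∀ x, 0 < x → x < n → ∃ i < N', 0 < i ∧ ∃ j < len i, par^[j] (e i) = x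
  dis : ∀ i < N', ∀ i' < N', 0 < i → 0 < i' → ∀ j < len i, ∀ j' < len i',
    par^[j] (e i) = par^[j'] (e i') → i = i' ∧ j = j'
  leaf : ∀ i < N', chd n par (e i) = ∅ ↔ chd N' par' i = ∅
  c1 : N' ≤ 2 * (lv n par).card + 1
  c2 : (lv n par).card ≤ N'

end Pool.Agent.RSP
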