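import Pool.Agent.RSP.Targets

/-!
# EXP: expansion of a decomposition of the topological tree
-/

set_option autoImplicit false

open Finset

namespace Pool.Agent.RSP

open Pool.Agent.RST Pool.Agent.RSL

namespace EXP_

/-! ## Arithmetic -/

private lemma mm {m q r : ℕ} (h : r < m) : (m * q + r) % m = r := by
  rw [Nat.mul_add_mod, Nat.mod_eq_of_lt h]

private lemma dd {m q r : ℕ} (h : r < m) : (m * q + r) / m = q := by
  rw [Nat.mul_add_div (by omega), Nat.div_eq_of_lt h, add_zero]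

private lemma md_pred {m u : ℕ} (hm : 0 < m) (h : u % m ≠ 0) :
    (u - 1) % m = u % m - 1 ∧ (u - 1) / m = u / m := by
  have h1 := Nat.div_add_mod u m
  have h2 := Nat.mod_lt u hm
  have h3 : u - 1 = m * (u / m) + (u % m - 1) := by omega
  have h4 : u % m - 1 < m := by omega
  constructor
  · rw [h3, mm h4]
  · rw [h3, dd h4]

private lemma md_zero {m u a : ℕ} (ha : 1 ≤ a) (hm : a < m) (hu : 0 < u) (h : u % m = 0) :
    (u - a) % m = m - a := by
  obtain ⟨q, rfl⟩ := Nat.dvd_of_mod_eq_zero h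
  have hq : 0 < q := Nat.pos_of_ne_zero (by rintro rfl; simp at hu)
  obtain ⟨r, rfl⟩ : ∃ r, q = r + 1 := ⟨q - 1, by omega⟩
  have h3 : m * (r + 1) - a = m * r + (m - a) := by
    rw [mul_add, mul_one]; omega
  rw [h3, mm (by omega)]

private lemma mult_eq {m u v : ℕ} (hm : 3 ≤ m) (hu : u % m = 0) (hv : v % m = 0)
    (h1 : u ≤ v + 1) (h2 : v ≤ u + 1) : u = v := by
  obtain ⟨q, rfl⟩ := Nat.dvd_of_mod_eq_zero hu
  obtain ⟨r, rfl⟩ := Nat.dvd_of_mod_eq_zero hv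
  rcases lt_trichotomy q r with hh | hh | hh
  · have := Nat.mul_le_mul_left m hh
    rw [Nat.succ_eq_add_one, mul_add, mul_one] at this
    omega
  · rw [hh]
  · have := Nat.mul_le_mul_left m hh
    rw [Nat.succ_eq_add_one, mul_add, mul_one] at this
    omega

private lemma dcd {L a a' b b' : ℕ} (hb : b < L + 1) (hb' : b' < L + 1)
    (h : a * (L + 1) + b = a' * (L + 1) + b') : a = a' ∧ b = b' := by
  rcases lt_trichotomy a a' with hh | hh | hh
  · exfalso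
    have := Nat.mul_le_mul_right (L + 1) hh
    rw [Nat.succ_eq_add_one, add_mul, one_mul] at this
    omega
  · subst hh
    exact ⟨rfl, by omega⟩
  · exfalso
    have := Nat.mul_le_mul_right (L + 1) hh
    rw [Nat.succ_eq_add_one, add_mul, one_mul] at this
    omega

/-! ## Coordinates -/

/-- coordinates of the vertices -/
structure Crd (n N' : ℕ) (par e len ix jx : ℕ → ℕ) : Prop where
  c : ∀ x, 0 < x → x < n → 0 < ix x ∧ ix x < N' ∧ jx x < len (ix x) ∧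
    par^[jx x] (e (ix x)) = x
  u : ∀ i j, 0 < i → i < N' → j < len i → 0 < par^[j] (e i) ∧ par^[j] (e i) < n ∧
    ix (par^[j] (e i)) = i ∧ jx (par^[j] (e i)) = j

private lemma crd_ex {Δ n N' : ℕ} {par par' e len : ℕ → ℕ} (hv : VT n par)
    (hN : Nd Δ n par N' par' e len) : ∃ ix jx, Crd n N' par e len ix jx := by
  classical
  have h : ∀ x, ∃ p : ℕ × ℕ, 0 < x → x < n →
      0 < p.1 ∧ p.1 < N' ∧ p.2 < len p.1 ∧ par^[p.2] (e p.1) = x := by
    intro x
    by_cases hx : 0 < x ∧ x < n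
    · obtain ⟨i, hi, hi0, j, hj, hx'⟩ := hN.cov x hx.1 hx.2
      exact ⟨(i, j), fun _ _ => ⟨hi0, hi, hj, hx'⟩⟩
    · exact ⟨(0, 0), fun h1 h2 => absurd ⟨h1, h2⟩ hx⟩
  choose f hf using h
  refine ⟨fun x => (f x).1, fun x => (f x).2, hf, ?_⟩
  intro i j hi0 hi hj
  have hp := hN.pos i hi hi0 j hj
  have hlt : ∀ j, j < len i → par^[j] (e i) < n := by
    intro j
    induction j with
    | zero => intro _; exact hN.lt i hi
    | succ j ih =>
      intro hj
      rw [Function.iterate_succ_apply']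
      have h1 := ih (by omega)
      have h2 := hv _ (hN.pos i hi hi0 j (by omega)) h1
      omega
  have h1 := hlt j hj
  obtain ⟨a0, a1, a2, a3⟩ := hf _ hp h1
  obtain ⟨b1, b2⟩ := hN.dis _ a1 i hi a0 hi0 _ a2 j hj a3
  exact ⟨hp, h1, b1, b2⟩

/-! ## Definitions -/

/-- exact vertices of an exact bare path -/
def AB (E' Q' : Finset ℕ) (i j : ℕ) : Prop := i ∈ E' ∧ (i ∉ Q' ∨ j = 0)

/-- the position in the segment -/
def md (Lm : ℕ) (len : ℕ → ℕ) (i j : ℕ) : ℕ := (len i - 3 - j) % (Lm + 2)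

/-- the length of the segment -/
def sl (Lm : ℕ) (len : ℕ → ℕ) (i j : ℕ) : ℕ :=
  min Lm (len i - 5 - (Lm + 2) * ((len i - 3 - j) / (Lm + 2)))

/-- exact vertices of a segment -/
def SG (Lm : ℕ) (len : ℕ → ℕ) (E' Q' : Finset ℕ) (i j : ℕ) : Prop :=
  ¬ (i ∈ E' ∧ i ∉ Q') ∧ 3 ≤ j ∧ j + 3 ≤ len i ∧ md Lm len i j < Lm

/-- roots -/
def Rt (Lm : ℕ) (len : ℕ → ℕ) (E' Q' : Finset ℕ) (i j : ℕ) : Prop :=
  (i ∈ Q' ∧ j = 0) ∨ (SG Lm len E' Q' i j ∧ md Lm len i j = 0)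

open Classical in
/-- colours -/
noncomputable def cl (Lm k' : ℕ) (len κ' : ℕ → ℕ) (E' Q' : Finset ℕ) (i j : ℕ) : ℕ :=
  if AB E' Q' i j then κ' i * (Lm + 1) + j
  else (k' + sl Lm len i j) * (Lm + 1) + md Lm len i j

open Classical in
/-- the exact vertices -/
noncomputable def SE (n Lm : ℕ) (len ix jx : ℕ → ℕ) (E' Q' : Finset ℕ) : Finset ℕ :=
  (range n).filter (fun x => 0 < x ∧
    (AB E' Q' (ix x) (jx x) ∨ SG Lm len E' Q' (ix x) (jx x)))

open Classical in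
/-- the roots -/
noncomputable def SQ (n Lm : ℕ) (len ix jx : ℕ → ℕ) (E' Q' : Finset ℕ) : Finset ℕ :=
  (range n).filter (fun x => 0 < x ∧ Rt Lm len E' Q' (ix x) (jx x))

/-- the hypotheses -/
structure Dat (Δ n N' Lm k' : ℕ) (par par' e len : ℕ → ℕ) (E' Q' : Finset ℕ)
    (κ' ix jx : ℕ → ℕ) : Prop where
  L1 : 1 ≤ Lm
  hv : VT n par
  hN : Nd Δ n par N' par' e len
  hD : Dcp 2 par' (range N') E' Q'
  hC : Col par' E' Q' κ'
  hk : ∀ i ∈ E', κ' i < k'
  hl : ∀ i ∈ E', i ∉ Q' → len i < Lm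
  hs : ∀ i ∈ E', ∀ i' ∈ E', κ' i = κ' i' → (chd N' par' i = ∅ ↔ chd N' par' i' = ∅) ∧
    (i ∉ Q' → len i = len i')
  hc : Crd n N' par e len ix jx

variable {Δ n N' Lm k' : ℕ} {par par' e len : ℕ → ℕ} {E' Q' : Finset ℕ} {κ' ix jx : ℕ → ℕ}

private lemma mem_SE {x : ℕ} : x ∈ SE n Lm len ix jx E' Q' ↔ 0 < x ∧ x < n ∧
    (AB E' Q' (ix x) (jx x) ∨ SG Lm len E' Q' (ix x) (jx x)) := by
  classical
  simp only [SE, mem_filter, mem_range]
  tauto

private lemma mem_SQ {x : ℕ} : x ∈ SQ n Lm len ix jx E' Q' ↔ 0 < x ∧ x < n ∧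
    Rt Lm len E' Q' (ix x) (jx x) := by
  classical
  simp only [SQ, mem_filter, mem_range]
  tauto

private lemma cl_AB {i j : ℕ} (h : AB E' Q' i j) :
    cl Lm k' len κ' E' Q' i j = κ' i * (Lm + 1) + j := by
  classical
  simp only [cl, if_pos h]

private lemma SG_AB {i j : ℕ} (h : SG Lm len E' Q' i j) : ¬ AB E' Q' i j := by
  rintro ⟨h1, h2⟩
  obtain ⟨a1, a2, a3, a4⟩ := h
  rcases h2 with h2 | h2
  · exact a1 ⟨h1, h2⟩
  · omega

private lemma cl_SG {i j : ℕ} (h : SG Lm len E' Q' i j) :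
    cl Lm k' len κ' E' Q' i j = (k' + sl Lm len i j) * (Lm + 1) + md Lm len i j := by
  classical
  simp only [cl, if_neg (SG_AB h)]

namespace Dat

variable (D : Dat Δ n N' Lm k' par par' e len E' Q' κ' ix jx)

include D

lemma zE : 0 ∉ E' := by
  intro h
  by_cases hq : 0 ∈ Q'
  · have := D.hD.pos 0 hq 0 (by norm_num)
    simp at this
  · have := (D.hD.up 0 h hq).1
    simp at this

lemma ltE {i : ℕ} (h : i ∈ E') : 0 < i ∧ i < N' := by
  refine ⟨Nat.pos_of_ne_zero ?_, mem_range.1 (D.hD.EC h)⟩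
  rintro rfl
  exact D.zE h

lemma up1 {x : ℕ} (h0 : 0 < x) (hn : x < n) (hj : jx x + 1 < len (ix x)) :
    0 < par x ∧ par x < n ∧ ix (par x) = ix x ∧ jx (par x) = jx x + 1 := by
  obtain ⟨a0, a1, a2, a3⟩ := D.hc.c x h0 hn
  have := D.hc.u (ix x) (jx x + 1) a0 a1 hj
  rw [Function.iterate_succ_apply', a3] at this
  exact this

lemma up2 {x : ℕ} (h0 : 0 < x) (hn : x < n) (hj : ¬ jx x + 1 < len (ix x)) :
    par x = e (par' (ix x)) := by
  obtain ⟨a0, a1, a2, a3⟩ := D.hc.c x h0 hn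
  have h1 := D.hN.up (ix x) a1 a0
  have h2 : len (ix x) = jx x + 1 := by omega
  rw [h2, Function.iterate_succ_apply', a3] at h1
  exact h1

lemma uq {x y : ℕ} (h0 : 0 < x) (hn : x < n) (h0' : 0 < y) (hn' : y < n) (h1 : ix x = ix y)
    (h2 : jx x = jx y) : x = y := by
  have a := (D.hc.c x h0 hn).2.2.2
  have b := (D.hc.c y h0' hn').2.2.2
  rw [h1, h2] at a
  exact a.symm.trans b

lemma ei {i : ℕ} (h0 : 0 < i) (hn : i < N') : 0 < e i ∧ e i < n ∧ ix (e i) = i ∧ jx (e i) = 0 := by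
  have := D.hc.u i 0 h0 hn (D.hN.len1 i hn h0)
  simpa using this

lemma einj {i i' : ℕ} (hi : i < N') (hi' : i' < N') (h : e i = e i') : i = i' := by
  rcases lt_trichotomy i i' with hh | hh | hh
  · have := D.hN.mono i hi i' hi' hh
    omega
  · exact hh
  · have := D.hN.mono i' hi' i hi hh
    omega

lemma lt' {i : ℕ} (h0 : 0 < i) (hn : i < N') : par' i < N' := by
  have := D.hN.vt i h0 hn
  omega

/-- a step inside an exact bare path -/
lemma stAB {x : ℕ} (hx : x ∈ SE n Lm len ix jx E' Q') (hq : x ∉ SQ n Lm len ix jx E' Q')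
    (hab : AB E' Q' (ix x) (jx x)) :
    ix x ∈ E' ∧ ix x ∉ Q' ∧ par x ∈ SE n Lm len ix jx E' Q' ∧
    AB E' Q' (ix (par x)) (jx (par x)) ∧
    ((jx x + 1 < len (ix x) ∧ ix (par x) = ix x ∧ jx (par x) = jx x + 1) ∨
     (jx x + 1 = len (ix x) ∧ ix (par x) = par' (ix x) ∧ jx (par x) = 0 ∧ par' (ix x) ∈ E')) := by
  obtain ⟨h0, hn, _⟩ := mem_SE.1 hx
  have hE : ix x ∈ E' := hab.1
  have hQ : ix x ∉ Q' := by
    intro h
    rcases hab.2 with h2 | h2
    · exact h2 h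
    · exact hq (mem_SQ.2 ⟨h0, hn, Or.inl ⟨h, h2⟩⟩)
  refine ⟨hE, hQ, ?_⟩
  obtain ⟨a0, a1, a2, a3⟩ := D.hc.c x h0 hn
  by_cases hj : jx x + 1 < len (ix x)
  · obtain ⟨b0, b1, b2, b3⟩ := D.up1 h0 hn hj
    have hab' : AB E' Q' (ix (par x)) (jx (par x)) := by
      rw [b2]; exact ⟨hE, Or.inl hQ⟩
    exact ⟨mem_SE.2 ⟨b0, b1, Or.inl hab'⟩, hab', Or.inl ⟨hj, b2, b3⟩⟩
  · have hp := D.up2 h0 hn hj
    have hE' := (D.hD.up _ hE hQ).2
    obtain ⟨c0, c1⟩ := D.ltE hE'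
    obtain ⟨b0, b1, b2, b3⟩ := D.ei c0 c1
    have hab' : AB E' Q' (ix (par x)) (jx (par x)) := by
      rw [hp, b2, b3]; exact ⟨hE', Or.inr rfl⟩
    refine ⟨mem_SE.2 ⟨by rw [hp]; exact b0, by rw [hp]; exact b1, Or.inl hab'⟩, hab',
      Or.inr ⟨by omega, by rw [hp, b2], by rw [hp, b3], hE'⟩⟩

/-- a step inside a segment -/
lemma stSG {x : ℕ} (hx : x ∈ SE n Lm len ix jx E' Q') (hq : x ∉ SQ n Lm len ix jx E' Q')
    (hs : SG Lm len E' Q' (ix x) (jx x)) :
    par x ∈ SE n Lm len ix jx E' Q' ∧ SG Lm len E' Q' (ix (par x)) (jx (par x)) ∧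
    ix (par x) = ix x ∧ jx (par x) = jx x + 1 ∧ 0 < md Lm len (ix x) (jx x) ∧
    md Lm len (ix (par x)) (jx (par x)) = md Lm len (ix x) (jx x) - 1 ∧
    sl Lm len (ix (par x)) (jx (par x)) = sl Lm len (ix x) (jx x) := by
  obtain ⟨h0, hn, _⟩ := mem_SE.1 hx
  have hm : md Lm len (ix x) (jx x) ≠ 0 := fun h => hq (mem_SQ.2 ⟨h0, hn, Or.inr ⟨hs, h⟩⟩)
  obtain ⟨s1, s2, s3, s4⟩ := hs
  have hj : jx x + 1 < len (ix x) := by omega
  obtain ⟨b0, b1, b2, b3⟩ := D.up1 h0 hn hj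
  have hu : len (ix x) - 3 - jx x ≠ 0 := by
    intro h
    apply hm
    rw [md, h, Nat.zero_mod]
  obtain ⟨m1, m2⟩ := md_pred (m := Lm + 2) (u := len (ix x) - 3 - jx x) (by omega) hm
  have he : len (ix x) - 3 - (jx x + 1) = len (ix x) - 3 - jx x - 1 := by omega
  have e1 : md Lm len (ix (par x)) (jx (par x)) = md Lm len (ix x) (jx x) - 1 := by
    rw [b2, b3, md, md, he, m1]
  have e2 : sl Lm len (ix (par x)) (jx (par x)) = sl Lm len (ix x) (jx x) := by
    rw [b2, b3, sl, sl, he, m2]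
  have hs' : SG Lm len E' Q' (ix (par x)) (jx (par x)) := by
    refine ⟨by rw [b2]; exact s1, by omega, by rw [b2]; omega, by omega⟩
  exact ⟨mem_SE.2 ⟨b0, b1, Or.inr hs'⟩, hs', b2, b3, by omega, e1, e2⟩

omit D in
/-- the position is smaller than the length of the segment -/
lemma md_lt {i j : ℕ} (hs : SG Lm len E' Q' i j) : md Lm len i j < sl Lm len i j := by
  obtain ⟨s1, s2, s3, s4⟩ := hs
  have h1 := Nat.div_add_mod (len i - 3 - j) (Lm + 2)
  rw [sl, lt_min_iff]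
  refine ⟨s4, ?_⟩
  rw [md]
  omega

/-- vertices of the same colour -/
lemma same {x y : ℕ} (hx : x ∈ SE n Lm len ix jx E' Q') (hy : y ∈ SE n Lm len ix jx E' Q')
    (h : cl Lm k' len κ' E' Q' (ix x) (jx x) = cl Lm k' len κ' E' Q' (ix y) (jx y)) :
    (AB E' Q' (ix x) (jx x) ∧ AB E' Q' (ix y) (jx y) ∧ κ' (ix x) = κ' (ix y) ∧ jx x = jx y) ∨
    (SG Lm len E' Q' (ix x) (jx x) ∧ SG Lm len E' Q' (ix y) (jx y) ∧
      sl Lm len (ix x) (jx x) = sl Lm len (ix y) (jx y) ∧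
      md Lm len (ix x) (jx x) = md Lm len (ix y) (jx y)) := by
  obtain ⟨h0, hn, hx'⟩ := mem_SE.1 hx
  obtain ⟨g0, gn, hy'⟩ := mem_SE.1 hy
  have key : ∀ z, 0 < z → z < n → AB E' Q' (ix z) (jx z) → jx z < Lm + 1 := by
    intro z z0 zn hz
    rcases hz.2 with h2 | h2
    · have := D.hl _ hz.1 h2
      have := (D.hc.c z z0 zn).2.2.1
      omega
    · omega
  rcases hx' with hx' | hx' <;> rcases hy' with hy' | hy'
  · rw [cl_AB hx', cl_AB hy'] at h
    obtain ⟨e1, e2⟩ := dcd (key x h0 hn hx') (key y g0 gn hy') h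
    exact Or.inl ⟨hx', hy', e1, e2⟩
  · exfalso
    rw [cl_AB hx', cl_SG hy'] at h
    obtain ⟨e1, e2⟩ := dcd (key x h0 hn hx') (by have := hy'.2.2.2; omega) h
    have := D.hk _ hx'.1
    omega
  · exfalso
    rw [cl_SG hx', cl_AB hy'] at h
    obtain ⟨e1, e2⟩ := dcd (by have := hx'.2.2.2; omega) (key y g0 gn hy') h
    have := D.hk _ hy'.1
    omega
  · rw [cl_SG hx', cl_SG hy'] at h
    obtain ⟨e1, e2⟩ := dcd (by have := hx'.2.2.2; omega) (by have := hy'.2.2.2; omega) h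
    exact Or.inr ⟨hx', hy', by omega, e2⟩

omit D in
/-- roots in exact bare paths -/
lemma rtAB {x : ℕ} (h0 : 0 < x) (hn : x < n) (h : AB E' Q' (ix x) (jx x)) :
    x ∈ SQ n Lm len ix jx E' Q' ↔ ix x ∈ Q' := by
  rw [mem_SQ]
  constructor
  · rintro ⟨_, _, h1 | h1⟩
    · exact h1.1
    · exact absurd h (SG_AB h1.1)
  · intro h1
    refine ⟨h0, hn, Or.inl ⟨h1, ?_⟩⟩
    rcases h.2 with h2 | h2
    · exact absurd h1 h2
    · exact h2

omit D in
lemma rtSG {x : ℕ} (h0 : 0 < x) (hn : x < n) (h : SG Lm len E' Q' (ix x) (jx x)) :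
    x ∈ SQ n Lm len ix jx E' Q' ↔ md Lm len (ix x) (jx x) = 0 := by
  rw [mem_SQ]
  constructor
  · rintro ⟨_, _, h1 | h1⟩
    · exfalso
      have := h.2.1
      omega
    · exact h1.2
  · intro h1
    exact ⟨h0, hn, Or.inr ⟨h, h1⟩⟩

/-! ## Col -/

lemma Croot : ∀ x ∈ SE n Lm len ix jx E' Q', ∀ y ∈ SE n Lm len ix jx E' Q',
    cl Lm k' len κ' E' Q' (ix x) (jx x) = cl Lm k' len κ' E' Q' (ix y) (jx y) →
    (x ∈ SQ n Lm len ix jx E' Q' ↔ y ∈ SQ n Lm len ix jx E' Q') := by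
  intro x hx y hy h
  obtain ⟨h0, hn, _⟩ := mem_SE.1 hx
  obtain ⟨g0, gn, _⟩ := mem_SE.1 hy
  rcases D.same hx hy h with ⟨a1, a2, a3, a4⟩ | ⟨a1, a2, a3, a4⟩
  · rw [rtAB h0 hn a1, rtAB g0 gn a2]
    exact D.hC.root _ a1.1 _ a2.1 a3
  · rw [rtSG h0 hn a1, rtSG g0 gn a2, a4]

lemma Cpcol : ∀ x ∈ SE n Lm len ix jx E' Q', ∀ y ∈ SE n Lm len ix jx E' Q',
    x ∉ SQ n Lm len ix jx E' Q' →
    cl Lm k' len κ' E' Q' (ix x) (jx x) = cl Lm k' len κ' E' Q' (ix y) (jx y) →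
    cl Lm k' len κ' E' Q' (ix (par x)) (jx (par x)) =
      cl Lm k' len κ' E' Q' (ix (par y)) (jx (par y)) := by
  intro x hx y hy hq h
  have hq' : y ∉ SQ n Lm len ix jx E' Q' := fun h' => hq ((D.Croot x hx y hy h).2 h')
  rcases D.same hx hy h with ⟨a1, a2, a3, a4⟩ | ⟨a1, a2, a3, a4⟩
  · obtain ⟨b1, b2, b3, b4, b5⟩ := D.stAB hx hq a1
    obtain ⟨c1, c2, c3, c4, c5⟩ := D.stAB hy hq' a2
    have hlen := (D.hs _ b1 _ c1 a3).2 b2
    rw [cl_AB b4, cl_AB c4]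
    rcases b5 with ⟨d1, d2, d3⟩ | ⟨d1, d2, d3, d4⟩ <;>
      rcases c5 with ⟨f1, f2, f3⟩ | ⟨f1, f2, f3, f4⟩
    · rw [d2, d3, f2, f3, a3, a4]
    · exfalso; omega
    · exfalso; omega
    · rw [d2, d3, f2, f3, D.hC.pcol _ b1 _ c1 b2 a3]
  · obtain ⟨b1, b2, b3, b4, b5, b6, b7⟩ := D.stSG hx hq a1
    obtain ⟨c1, c2, c3, c4, c5, c6, c7⟩ := D.stSG hy hq' a2
    rw [cl_SG b2, cl_SG c2, b6, b7, c6, c7, a3, a4]

lemma Cpinj : ∀ x ∈ SE n Lm len ix jx E' Q', ∀ y ∈ SE n Lm len ix jx E' Q',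
    x ∉ SQ n Lm len ix jx E' Q' →
    cl Lm k' len κ' E' Q' (ix x) (jx x) = cl Lm k' len κ' E' Q' (ix y) (jx y) →
    par x = par y → x = y := by
  intro x hx y hy hq h hp
  have hq' : y ∉ SQ n Lm len ix jx E' Q' := fun h' => hq ((D.Croot x hx y hy h).2 h')
  obtain ⟨h0, hn, _⟩ := mem_SE.1 hx
  obtain ⟨g0, gn, _⟩ := mem_SE.1 hy
  rcases D.same hx hy h with ⟨a1, a2, a3, a4⟩ | ⟨a1, a2, a3, a4⟩
  · obtain ⟨b1, b2, b3, b4, b5⟩ := D.stAB hx hq a1
    obtain ⟨c1, c2, c3, c4, c5⟩ := D.stAB hy hq' a2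
    have hlen := (D.hs _ b1 _ c1 a3).2 b2
    apply D.uq h0 hn g0 gn _ a4
    rcases b5 with ⟨d1, d2, d3⟩ | ⟨d1, d2, d3, d4⟩ <;>
      rcases c5 with ⟨f1, f2, f3⟩ | ⟨f1, f2, f3, f4⟩
    · rw [← d2, ← f2, hp]
    · exfalso; omega
    · exfalso; omega
    · apply D.hC.pinj _ b1 _ c1 b2 a3
      rw [← d2, ← f2, hp]
  · obtain ⟨b1, b2, b3, b4, b5, b6, b7⟩ := D.stSG hx hq a1
    obtain ⟨c1, c2, c3, c4, c5, c6, c7⟩ := D.stSG hy hq' a2
    apply D.uq h0 hn g0 gn
    · rw [← b3, ← c3, hp]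
    · rw [hp] at b4
      omega

/-- the parent map is onto the class of the parent -/
lemma sur' {i z : ℕ} (hi : i ∈ E') (hq : i ∉ Q') (hz : z ∈ E') (h : κ' z = κ' (par' i)) :
    ∃ y ∈ E', κ' y = κ' i ∧ par' y = z := by
  classical
  have hcard := D.hC.pcard i hi hq
  have hsub : (E'.filter (fun y => κ' y = κ' i)).image par' ⊆
      E'.filter (fun y => κ' y = κ' (par' i)) := by
    intro w hw
    obtain ⟨y, hy, rfl⟩ := mem_image.1 hw
    obtain ⟨hy1, hy2⟩ := mem_filter.1 hy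
    have hyq : y ∉ Q' := fun h' => hq ((D.hC.root _ hi _ hy1 hy2.symm).2 h')
    exact mem_filter.2 ⟨(D.hD.up _ hy1 hyq).2, (D.hC.pcol _ hi _ hy1 hq hy2.symm).symm⟩
  have hinj : ((E'.filter (fun y => κ' y = κ' i)).image par').card =
      (E'.filter (fun y => κ' y = κ' i)).card := by
    apply card_image_of_injOn
    intro y hy y' hy' hyy
    obtain ⟨hy1, hy2⟩ := mem_filter.1 (mem_coe.1 hy)
    obtain ⟨hy1', hy2'⟩ := mem_filter.1 (mem_coe.1 hy')
    have hyq : y ∉ Q' := fun h' => hq ((D.hC.root _ hi _ hy1 hy2.symm).2 h')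
    exact D.hC.pinj _ hy1 _ hy1' hyq (hy2.trans hy2'.symm) hyy
  have heq := eq_of_subset_of_card_le hsub (by rw [hinj, hcard])
  have hz' : z ∈ (E'.filter (fun y => κ' y = κ' i)).image par' := by
    rw [heq]; exact mem_filter.2 ⟨hz, h⟩
  obtain ⟨y, hy, rfl⟩ := mem_image.1 hz'
  obtain ⟨hy1, hy2⟩ := mem_filter.1 hy
  exact ⟨y, hy1, hy2, rfl⟩

/-- the parent map is onto the class of the parent -/
lemma sur {x z : ℕ} (hx : x ∈ SE n Lm len ix jx E' Q') (hq : x ∉ SQ n Lm len ix jx E' Q')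
    (hz : z ∈ SE n Lm len ix jx E' Q')
    (h : cl Lm k' len κ' E' Q' (ix z) (jx z) = cl Lm k' len κ' E' Q' (ix (par x)) (jx (par x))) :
    ∃ y ∈ SE n Lm len ix jx E' Q',
      cl Lm k' len κ' E' Q' (ix y) (jx y) = cl Lm k' len κ' E' Q' (ix x) (jx x) ∧ par y = z := by
  obtain ⟨h0, hn, hx'⟩ := mem_SE.1 hx
  obtain ⟨z0, zn, hz'⟩ := mem_SE.1 hz
  obtain ⟨u0, u1, u2, u3⟩ := D.hc.c z z0 zn
  obtain ⟨v0, v1, v2, v3⟩ := D.hc.c x h0 hn
  rcases hx' with hx' | hx'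
  · obtain ⟨b1, b2, b3, b4, b5⟩ := D.stAB hx hq hx'
    rcases D.same hz b3 h with ⟨a1, a2, a3, a4⟩ | ⟨a1, a2, a3, a4⟩
    · rcases b5 with ⟨d1, d2, d3⟩ | ⟨d1, d2, d3, d4⟩
      · rw [d2] at a3
        have hE := a1.1
        have hQ : ix z ∉ Q' := fun h' => b2 ((D.hC.root _ hE _ b1 a3).1 h')
        have hlen := (D.hs _ b1 _ hE a3.symm).2 b2
        obtain ⟨w0, w1, w2, w3⟩ := D.hc.u (ix z) (jx x) u0 u1 (by omega)
        have hAB : AB E' Q' (ix (par^[jx x] (e (ix z)))) (jx (par^[jx x] (e (ix z)))) := by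
          rw [w2]; exact ⟨hE, Or.inl hQ⟩
        refine ⟨par^[jx x] (e (ix z)), mem_SE.2 ⟨w0, w1, Or.inl hAB⟩, ?_, ?_⟩
        · rw [cl_AB hAB, cl_AB hx', w2, w3, a3]
        · rw [← Function.iterate_succ_apply' par]
          rw [a4, d3] at u3
          exact u3
      · rw [d2] at a3
        rw [d3] at a4
        obtain ⟨y, hy1, hy2, hy3⟩ := D.sur' b1 b2 a1.1 a3
        have hQ : y ∉ Q' := fun h' => b2 ((D.hC.root _ hy1 _ b1 hy2).1 h')
        have hlen := (D.hs _ b1 _ hy1 hy2.symm).2 b2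
        obtain ⟨y0, y1⟩ := D.ltE hy1
        obtain ⟨w0, w1, w2, w3⟩ := D.hc.u y (jx x) y0 y1 (by omega)
        have hAB : AB E' Q' (ix (par^[jx x] (e y))) (jx (par^[jx x] (e y))) := by
          rw [w2]; exact ⟨hy1, Or.inl hQ⟩
        refine ⟨par^[jx x] (e y), mem_SE.2 ⟨w0, w1, Or.inl hAB⟩, ?_, ?_⟩
        · rw [cl_AB hAB, cl_AB hx', w2, w3, hy2]
        · have h1 := D.hN.up y y1 y0
          rw [← hlen, ← d1, Function.iterate_succ_apply', hy3] at h1
          rw [h1]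
          rw [a4] at u3
          exact u3
    · exact absurd b4 (SG_AB a2)
  · obtain ⟨b1, b2, b3, b4, b5, b6, b7⟩ := D.stSG hx hq hx'
    rcases D.same hz b1 h with ⟨a1, a2, a3, a4⟩ | ⟨a1, a2, a3, a4⟩
    · exact absurd a2 (SG_AB b2)
    · have m1 := md_lt hx'
      rw [b6] at a4
      rw [b7] at a3
      have m2 : md Lm len (ix z) (jx z) + 1 < sl Lm len (ix z) (jx z) := by omega
      obtain ⟨s1, s2, s3, s4⟩ := a1
      have m3 := Nat.div_add_mod (len (ix z) - 3 - jx z) (Lm + 2)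
      have m2' := m2
      rw [sl, lt_min_iff, md] at m2'
      obtain ⟨m4, m5⟩ := m2'
      have hj : 4 ≤ jx z := by omega
      obtain ⟨w0, w1, w2, w3⟩ := D.hc.u (ix z) (jx z - 1) u0 u1 (by omega)
      have hu : len (ix z) - 3 - (jx z - 1) - 1 = len (ix z) - 3 - jx z := by omega
      have hu' : len (ix z) - 3 - (jx z - 1) =
          (Lm + 2) * ((len (ix z) - 3 - jx z) / (Lm + 2)) +
            ((len (ix z) - 3 - jx z) % (Lm + 2) + 1) := by omega
      have e1 : md Lm len (ix z) (jx z - 1) = md Lm len (ix z) (jx z) + 1 := by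
        rw [md, hu', mm (by omega), md]
      have e2 : sl Lm len (ix z) (jx z - 1) = sl Lm len (ix z) (jx z) := by
        rw [sl, hu', dd (by omega), sl]
      have hSG : SG Lm len E' Q' (ix (par^[jx z - 1] (e (ix z))))
          (jx (par^[jx z - 1] (e (ix z)))) := by
        rw [w2, w3]
        refine ⟨s1, by omega, by omega, ?_⟩
        rw [e1, md]
        omega
      refine ⟨par^[jx z - 1] (e (ix z)), mem_SE.2 ⟨w0, w1, Or.inr hSG⟩, ?_, ?_⟩
      · rw [cl_SG hSG, cl_SG hx', w2, w3, e1, e2, a3, a4]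
        congr 1
        omega
      · rw [← Function.iterate_succ_apply' par, Nat.succ_eq_add_one,
          show jx z - 1 + 1 = jx z by omega]
        exact u3

lemma Cpcard : ∀ x ∈ SE n Lm len ix jx E' Q', x ∉ SQ n Lm len ix jx E' Q' →
    ((SE n Lm len ix jx E' Q').filter (fun y => cl Lm k' len κ' E' Q' (ix y) (jx y) =
      cl Lm k' len κ' E' Q' (ix x) (jx x))).card =
    ((SE n Lm len ix jx E' Q').filter (fun y => cl Lm k' len κ' E' Q' (ix y) (jx y) =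
      cl Lm k' len κ' E' Q' (ix (par x)) (jx (par x)))).card := by
  intro x hx hq
  apply card_bij (fun y _ => par y)
  · intro y hy
    obtain ⟨hy1, hy2⟩ := mem_filter.1 hy
    have hyq : y ∉ SQ n Lm len ix jx E' Q' := fun h' => hq ((D.Croot y hy1 x hx hy2).1 h')
    refine mem_filter.2 ⟨?_, D.Cpcol y hy1 x hx hyq hy2⟩
    rcases (mem_SE.1 hy1).2.2 with h | h
    · exact (D.stAB hy1 hyq h).2.2.1
    · exact (D.stSG hy1 hyq h).1
  · intro y hy y' hy' hyy
    obtain ⟨hy1, hy2⟩ := mem_filter.1 hy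
    obtain ⟨hy1', hy2'⟩ := mem_filter.1 hy'
    have hyq : y ∉ SQ n Lm len ix jx E' Q' := fun h' => hq ((D.Croot y hy1 x hx hy2).1 h')
    exact D.Cpinj y hy1 y' hy1' hyq (hy2.trans hy2'.symm) hyy
  · intro z hz
    obtain ⟨hz1, hz2⟩ := mem_filter.1 hz
    obtain ⟨y, hy1, hy2, hy3⟩ := D.sur hx hq hz1 hz2
    exact ⟨y, mem_filter.2 ⟨hy1, hy2⟩, hy3⟩

lemma col : Col par (SE n Lm len ix jx E' Q') (SQ n Lm len ix jx E' Q')
    (fun x => cl Lm k' len κ' E' Q' (ix x) (jx x)) :=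
  ⟨D.Croot, D.Cpcol, D.Cpinj, D.Cpcard⟩

/-! ## Bounds for the colours, leaves -/

lemma bnd : ∀ x ∈ SE n Lm len ix jx E' Q',
    cl Lm k' len κ' E' Q' (ix x) (jx x) < (k' + Lm + 1) * (Lm + 1) := by
  intro x hx
  obtain ⟨h0, hn, hx'⟩ := mem_SE.1 hx
  rcases hx' with h | h
  · rw [cl_AB h]
    have h1 := D.hk _ h.1
    have h2 : jx x < Lm + 1 := by
      rcases h.2 with h2 | h2
      · have := D.hl _ h.1 h2
        have := (D.hc.c x h0 hn).2.2.1
        omega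
      · omega
    have h3 : (κ' (ix x) + 1) * (Lm + 1) ≤ (k' + Lm + 1) * (Lm + 1) :=
      Nat.mul_le_mul_right _ (by omega)
    rw [add_mul, one_mul] at h3
    omega
  · rw [cl_SG h]
    have h2 := h.2.2.2
    have h1 : sl Lm len (ix x) (jx x) ≤ Lm := min_le_left _ _
    have h3 : (k' + sl Lm len (ix x) (jx x) + 1) * (Lm + 1) ≤ (k' + Lm + 1) * (Lm + 1) :=
      Nat.mul_le_mul_right _ (by omega)
    rw [add_mul (k' + sl Lm len (ix x) (jx x)), one_mul] at h3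
    omega

lemma ne_leaf {x : ℕ} (h0 : 0 < x) (hn : x < n) (h : 1 ≤ jx x) : chd n par x ≠ ∅ := by
  obtain ⟨a0, a1, a2, a3⟩ := D.hc.c x h0 hn
  have := D.hN.one _ a1 a0 (jx x) h a2
  rw [a3] at this
  rw [this]
  exact singleton_ne_empty _

lemma leaf : ∀ x ∈ SE n Lm len ix jx E' Q', ∀ y ∈ SE n Lm len ix jx E' Q',
    cl Lm k' len κ' E' Q' (ix x) (jx x) = cl Lm k' len κ' E' Q' (ix y) (jx y) →
    (chd n par x = ∅ ↔ chd n par y = ∅) := by
  intro x hx y hy h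
  obtain ⟨h0, hn, _⟩ := mem_SE.1 hx
  obtain ⟨g0, gn, _⟩ := mem_SE.1 hy
  rcases D.same hx hy h with ⟨a1, a2, a3, a4⟩ | ⟨a1, a2, a3, a4⟩
  · by_cases hj : jx x = 0
    · have hx2 := (D.hc.c x h0 hn).2.2.2
      have hy2 := (D.hc.c y g0 gn).2.2.2
      rw [hj, Function.iterate_zero, id] at hx2
      rw [← a4, hj, Function.iterate_zero, id] at hy2
      have l1 := D.hN.leaf _ (D.ltE a1.1).2
      have l2 := D.hN.leaf _ (D.ltE a2.1).2
      rw [hx2] at l1
      rw [hy2] at l2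
      rw [l1, l2]
      exact (D.hs _ a1.1 _ a2.1 a3).1
    · have c1 := D.ne_leaf h0 hn (by omega)
      have c2 := D.ne_leaf g0 gn (by omega)
      exact ⟨fun h => absurd h c1, fun h => absurd h c2⟩
  · have c1 := D.ne_leaf h0 hn (by have := a1.2.1; omega)
    have c2 := D.ne_leaf g0 gn (by have := a2.2.1; omega)
    exact ⟨fun h => absurd h c1, fun h => absurd h c2⟩

/-! ## Dcp -/

/-- the ancestors of the root of an exact piece -/
lemma anc {i a : ℕ} (hi : i ∈ Q') (ha1 : 1 ≤ a) (ha2 : a ≤ 2) :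
    (par^[a] (e i) = 0 ∧ a = 2 ∧ par'^[2] i = 0) ∨
    (0 < par^[a] (e i) ∧ par^[a] (e i) < n ∧ ∃ t ≤ 2, ix (par^[a] (e i)) = par'^[t] i ∧
      jx (par^[a] (e i)) ≤ 2 ∧ (t = 0 → 1 ≤ jx (par^[a] (e i)))) := by
  have hiE := D.hD.QE hi
  obtain ⟨i0, i1⟩ := D.ltE hiE
  have hl1 := D.hN.len1 i i1 i0
  by_cases h1 : a < len i
  · obtain ⟨b0, b1, b2, b3⟩ := D.hc.u i a i0 i1 h1
    exact Or.inr ⟨b0, b1, 0, by norm_num, by rw [b2]; rfl, by omega, fun _ => by omega⟩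
  · have p1 : 0 < par' i := by
      have := D.hD.pos i hi 1 (by norm_num)
      rw [Function.iterate_one] at this
      omega
    have p2 := D.lt' i0 i1
    have hup := D.hN.up i i1 i0
    by_cases h2 : a = len i
    · rw [h2, hup]
      obtain ⟨b0, b1, b2, b3⟩ := D.ei p1 p2
      exact Or.inr ⟨b0, b1, 1, by norm_num, by rw [b2]; rfl, by omega, fun h => by omega⟩
    · have ha : a = 2 := by omega
      have hl : len i = 1 := by omega
      subst ha
      rw [hl, Function.iterate_one] at hup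
      have hy : par^[2] (e i) = par (e (par' i)) := by
        rw [Function.iterate_succ_apply, Function.iterate_one, hup]
      rw [hy]
      by_cases h3 : 1 < len (par' i)
      · have := D.hc.u (par' i) 1 p1 p2 h3
        rw [Function.iterate_one] at this
        obtain ⟨b0, b1, b2, b3⟩ := this
        exact Or.inr ⟨b0, b1, 1, by norm_num, by rw [b2]; rfl, by omega, fun h => by omega⟩
      · have hl2 := D.hN.len1 _ p2 p1
        have hl3 : len (par' i) = 1 := by omega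
        have hup2 := D.hN.up _ p2 p1
        rw [hl3, Function.iterate_one] at hup2
        rw [hup2]
        have p3 := D.lt' p1 p2
        have h22 : par'^[2] i = par' (par' i) := rfl
        by_cases h4 : par' (par' i) = 0
        · left
          rw [h4, D.hN.e0, h22, h4]
          exact ⟨rfl, rfl, rfl⟩
        · obtain ⟨b0, b1, b2, b3⟩ := D.ei (Nat.pos_of_ne_zero h4) p3
          exact Or.inr ⟨b0, b1, 2, le_rfl, by rw [b2]; rfl, by omega, fun h => by omega⟩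

/-- the ancestors of the root of a segment -/
lemma ancS {x a : ℕ} (h0 : 0 < x) (hn : x < n) (hs : SG Lm len E' Q' (ix x) (jx x)) (ha2 : a ≤ 2) :
    0 < par^[a] x ∧ par^[a] x < n ∧ ix (par^[a] x) = ix x ∧ jx (par^[a] x) = jx x + a := by
  obtain ⟨s1, s2, s3, s4⟩ := hs
  obtain ⟨v0, v1, v2, v3⟩ := D.hc.c x h0 hn
  have := D.hc.u (ix x) (a + jx x) v0 v1 (by omega)
  rw [Function.iterate_add_apply, v3] at this
  obtain ⟨b0, b1, b2, b3⟩ := this
  exact ⟨b0, b1, b2, by omega⟩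

lemma Qcase {x : ℕ} (hx : x ∈ SQ n Lm len ix jx E' Q') :
    (ix x ∈ Q' ∧ x = e (ix x)) ∨
    (SG Lm len E' Q' (ix x) (jx x) ∧ md Lm len (ix x) (jx x) = 0) := by
  obtain ⟨h0, hn, h | h⟩ := mem_SQ.1 hx
  · left
    refine ⟨h.1, ?_⟩
    have := (D.hc.c x h0 hn).2.2.2
    rw [h.2, Function.iterate_zero, id] at this
    exact this.symm
  · exact Or.inr h

lemma dcp : Dcp 2 par (range n) (SE n Lm len ix jx E' Q') (SQ n Lm len ix jx E' Q') := by
  constructor
  · intro x hx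
    exact mem_range.2 (mem_SE.1 hx).2.1
  · intro x hx
    obtain ⟨h0, hn, h | h⟩ := mem_SQ.1 hx
    · exact mem_SE.2 ⟨h0, hn, Or.inl ⟨D.hD.QE h.1, Or.inr h.2⟩⟩
    · exact mem_SE.2 ⟨h0, hn, Or.inr h.1⟩
  · intro x hx hq
    obtain ⟨h0, hn, h⟩ := mem_SE.1 hx
    refine ⟨D.hv x h0 hn, ?_⟩
    rcases h with h | h
    · exact (D.stAB hx hq h).2.2.1
    · exact (D.stSG hx hq h).1
  · intro q hq j hj
    have hq0 : 0 < q ∧ q < n := ⟨(mem_SQ.1 hq).1, (mem_SQ.1 hq).2.1⟩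
    have key : 0 < par^[j] q ∧ par^[j] q < n := by
      rcases Nat.eq_zero_or_pos j with rfl | hj0
      · exact hq0
      · rcases D.Qcase hq with ⟨h1, h2⟩ | ⟨h1, h2⟩
        · have := D.anc h1 hj0 (by omega : j ≤ 2)
          rw [← h2] at this
          rcases this with ⟨_, h3, _⟩ | ⟨h3, h4, _⟩
          · omega
          · exact ⟨h3, h4⟩
        · obtain ⟨b0, b1, _, _⟩ := D.ancS hq0.1 hq0.2 h1 (by omega : j ≤ 2)
          exact ⟨b0, b1⟩
    exact D.hv _ key.1 key.2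
  · intro q hq j hj1 hj2
    have hq0 : 0 < q ∧ q < n := ⟨(mem_SQ.1 hq).1, (mem_SQ.1 hq).2.1⟩
    rcases D.Qcase hq with ⟨h1, h2⟩ | ⟨h1, h2⟩
    · have := D.anc h1 hj1 hj2
      rw [← h2] at this
      rcases this with ⟨h3, _, _⟩ | ⟨h3, h4, t, ht, h5, h6, h7⟩
      · rw [h3, mem_sdiff, mem_range]
        exact ⟨by omega, fun h => by have := (mem_SE.1 h).1; omega⟩
      · rw [mem_sdiff, mem_range]
        refine ⟨h4, fun h => ?_⟩
        obtain ⟨_, _, h8 | h8⟩ := mem_SE.1 h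
        · rcases Nat.eq_zero_or_pos t with rfl | ht0
          · rw [Function.iterate_zero, id] at h5
            have h9 := h7 rfl
            rw [h5] at h8
            rcases h8.2 with h10 | h10
            · exact h10 h1
            · omega
          · have h9 := D.hD.chain _ h1 t ht0 ht
            rw [← h5] at h9
            exact (mem_sdiff.1 h9).2 h8.1
        · have := h8.2.1
          omega
    · obtain ⟨b0, b1, b2, b3⟩ := D.ancS hq0.1 hq0.2 h1 hj2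
      rw [mem_sdiff, mem_range]
      refine ⟨b1, fun h => ?_⟩
      obtain ⟨s1, s2, s3, s4⟩ := h1
      obtain ⟨_, _, h8 | h8⟩ := mem_SE.1 h
      · rw [b2, b3] at h8
        rcases h8.2 with h10 | h10
        · exact s1 ⟨h8.1, h10⟩
        · omega
      · rw [b2, b3] at h8
        obtain ⟨t1, t2, t3, t4⟩ := h8
        have := md_zero (m := Lm + 2) (u := len (ix q) - 3 - jx q) (a := j) hj1
          (by have := D.L1; omega) (by omega) h2
        rw [md, show len (ix q) - 3 - (jx q + j) = len (ix q) - 3 - jx q - j by omega, this] at t4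
        omega
  · intro q hq q' hq' j j' hj1 hj2 hj1' hj2' h
    have hq0 : 0 < q ∧ q < n := ⟨(mem_SQ.1 hq).1, (mem_SQ.1 hq).2.1⟩
    have hq0' : 0 < q' ∧ q' < n := ⟨(mem_SQ.1 hq').1, (mem_SQ.1 hq').2.1⟩
    rcases D.Qcase hq with ⟨h1, h2⟩ | ⟨h1, h2⟩ <;> rcases D.Qcase hq' with ⟨g1, g2⟩ | ⟨g1, g2⟩
    · have a1 := D.anc h1 hj1 hj2
      have a2 := D.anc g1 hj1' hj2'
      rw [← h2] at a1
      rw [← g2] at a2
      suffices ix q = ix q' by rw [h2, g2, this]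
      rcases a1 with ⟨b1, b2, b3⟩ | ⟨b1, b2, t, ht, b3, b4, b5⟩ <;>
        rcases a2 with ⟨c1, c2, c3⟩ | ⟨c1, c2, t', ht', c3, c4, c5⟩
      · exact D.hD.excl _ h1 _ g1 2 2 (by norm_num) (by norm_num) (by norm_num) (by norm_num)
          (b3.trans c3.symm)
      · omega
      · omega
      · rw [h] at b3
        have h3 := b3.symm.trans c3
        rcases Nat.eq_zero_or_pos t with rfl | ht0 <;> rcases Nat.eq_zero_or_pos t' with rfl | ht0'
        · exact h3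
        · exfalso
          have := D.hD.chain _ g1 t' ht0' ht'
          rw [← h3] at this
          exact (mem_sdiff.1 this).2 (D.hD.QE h1)
        · exfalso
          have := D.hD.chain _ h1 t ht0 ht
          rw [h3] at this
          exact (mem_sdiff.1 this).2 (D.hD.QE g1)
        · exact D.hD.excl _ h1 _ g1 t t' ht0 ht ht0' ht' h3
    · exfalso
      obtain ⟨b0, b1, b2, b3⟩ := D.ancS hq0'.1 hq0'.2 g1 hj2'
      have a1 := D.anc h1 hj1 hj2
      rw [← h2, h] at a1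
      rcases a1 with ⟨c1, _, _⟩ | ⟨c1, c2, t, ht, c3, c4, c5⟩
      · omega
      · have := g1.2.1
        omega
    · exfalso
      obtain ⟨b0, b1, b2, b3⟩ := D.ancS hq0.1 hq0.2 h1 hj2
      have a1 := D.anc g1 hj1' hj2'
      rw [← g2, ← h] at a1
      rcases a1 with ⟨c1, _, _⟩ | ⟨c1, c2, t, ht, c3, c4, c5⟩
      · omega
      · have := h1.2.1
        omega
    · obtain ⟨b0, b1, b2, b3⟩ := D.ancS hq0.1 hq0.2 h1 hj2
      obtain ⟨c0, c1, c2, c3⟩ := D.ancS hq0'.1 hq0'.2 g1 hj2'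
      rw [h] at b2 b3
      have e1 : ix q = ix q' := b2.symm.trans c2
      have e2 : jx q + j = jx q' + j' := b3.symm.trans c3
      apply D.uq hq0.1 hq0.2 hq0'.1 hq0'.2 e1
      obtain ⟨s1, s2, s3, s4⟩ := h1
      obtain ⟨t1, t2, t3, t4⟩ := g1
      rw [md] at h2 g2
      rw [← e1] at g2 t3
      have := mult_eq (m := Lm + 2) (by have := D.L1; omega) h2 g2 (by omega) (by omega)
      omega

/-! ## The waste -/

lemma QW : Q'.card ≤ (range N' \ E').card := by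
  classical
  apply card_le_card_of_injOn par'
  · intro i hi
    exact D.hD.chain i hi 1 le_rfl (by norm_num)
  · intro i hi i' hi' h
    exact D.hD.excl i hi i' hi' 1 1 le_rfl (by norm_num) le_rfl (by norm_num) h

/-- the gap vertices -/
lemma gap (G : Finset ℕ) (hG : ∀ x ∈ G, 0 < x ∧ x < n ∧ 3 ≤ jx x ∧ jx x + 3 ≤ len (ix x) ∧
    Lm ≤ md Lm len (ix x) (jx x)) : Lm * G.card ≤ 2 * n := by
  classical
  have h1 : (G ×ˢ range Lm).card ≤ (range 2 ×ˢ range n).card := by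
    apply card_le_card_of_injOn (fun p => (md Lm len (ix p.1) (jx p.1) - Lm,
      par^[len (ix p.1) - 3 - ((Lm + 2) * ((len (ix p.1) - 3 - jx p.1) / (Lm + 2)) + p.2)]
        (e (ix p.1))))
    · rintro ⟨x, t⟩ hp
      obtain ⟨hx, ht⟩ := mem_product.1 (mem_coe.1 hp)
      simp only [mem_range] at ht
      obtain ⟨g0, g1, g2, g3, g4⟩ := hG x hx
      obtain ⟨v0, v1, v2, v3⟩ := D.hc.c x g0 g1
      rw [mem_coe, mem_product]
      simp only [mem_range]
      refine ⟨?_, ?_⟩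
      · have : md Lm len (ix x) (jx x) < Lm + 2 := Nat.mod_lt _ (by omega)
        omega
      · exact (D.hc.u (ix x) _ v0 v1 (by omega)).2.1
    · rintro ⟨x, t⟩ hp ⟨x', t'⟩ hp' h
      obtain ⟨hx, ht⟩ := mem_product.1 (mem_coe.1 hp)
      obtain ⟨hx', ht'⟩ := mem_product.1 (mem_coe.1 hp')
      simp only [mem_range] at ht ht'
      obtain ⟨g0, g1, g2, g3, g4⟩ := hG x hx
      obtain ⟨v0, v1, v2, v3⟩ := D.hc.c x g0 g1
      obtain ⟨g0', g1', g2', g3', g4'⟩ := hG x' hx'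
      obtain ⟨v0', v1', v2', v3'⟩ := D.hc.c x' g0' g1'
      simp only [Prod.mk.injEq] at h
      obtain ⟨h1, h2⟩ := h
      obtain ⟨d1, d2⟩ := D.hN.dis _ v1 _ v1' v0 v0' _ (by omega) _ (by omega) h2
      have m3 := Nat.div_add_mod (len (ix x) - 3 - jx x) (Lm + 2)
      have m3' := Nat.div_add_mod (len (ix x') - 3 - jx x') (Lm + 2)
      rw [md] at g4 g4'
      rw [md, md] at h1
      rw [← d1] at d2 m3' g4' h1 g3'
      have m4 : (Lm + 2) * ((len (ix x) - 3 - jx x) / (Lm + 2)) + t =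
          (Lm + 2) * ((len (ix x) - 3 - jx x') / (Lm + 2)) + t' := by omega
      have m5 := dcd (L := Lm + 1) (a := (len (ix x) - 3 - jx x) / (Lm + 2))
        (a' := (len (ix x) - 3 - jx x') / (Lm + 2)) (b := t) (b' := t') (by omega) (by omega)
        (by rw [mul_comm _ (Lm + 1 + 1), mul_comm _ (Lm + 1 + 1)]; exact m4)
      obtain ⟨m6, m7⟩ := m5
      rw [← m6] at m3'
      have hj : jx x = jx x' := by omega
      rw [D.uq g0 g1 g0' g1' d1 hj, m7]
  rw [card_product, card_product, card_range, card_range, card_range] at h1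
  rw [mul_comm]
  exact h1

lemma waste (hn1 : 1 ≤ n) : Lm * (range n \ SE n Lm len ix jx E' Q').card ≤
    13 * Lm * (range N' \ E').card + 2 * n := by
  classical
  set W' := range N' \ E' with hW'
  set G := (range n).filter (fun x => 0 < x ∧ 3 ≤ jx x ∧ jx x + 3 ≤ len (ix x) ∧
    Lm ≤ md Lm len (ix x) (jx x)) with hG
  have hGb := D.gap G (by
    intro x hx
    rw [hG, mem_filter, mem_range] at hx
    exact ⟨hx.2.1, hx.1, hx.2.2.1, hx.2.2.2.1, hx.2.2.2.2⟩)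
  have hsub : range n \ SE n Lm len ix jx E' Q' ⊆
      insert 0 (G ∪ (W' ∪ Q').biUnion (fun i => (range 5).image (fun b =>
        par^[if b < 3 then b else len i + 2 - b] (e i)))) := by
    intro x hx
    obtain ⟨hx1, hx2⟩ := mem_sdiff.1 hx
    rw [mem_range] at hx1
    rcases Nat.eq_zero_or_pos x with rfl | h0
    · exact mem_insert_self _ _
    · apply mem_insert_of_mem
      obtain ⟨v0, v1, v2, v3⟩ := D.hc.c x h0 hx1
      have hi : ¬ (ix x ∈ E' ∧ ix x ∉ Q') := fun h =>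
        hx2 (mem_SE.2 ⟨h0, hx1, Or.inl ⟨h.1, Or.inl h.2⟩⟩)
      have hiW : ix x ∈ W' ∪ Q' := by
        rw [mem_union, hW', mem_sdiff, mem_range]
        tauto
      rw [mem_union]
      by_cases hj : 3 ≤ jx x ∧ jx x + 3 ≤ len (ix x)
      · left
        rw [hG, mem_filter, mem_range]
        refine ⟨hx1, h0, hj.1, hj.2, ?_⟩
        by_contra hlt
        exact hx2 (mem_SE.2 ⟨h0, hx1, Or.inr ⟨hi, hj.1, hj.2, by omega⟩⟩)
      · right
        rw [mem_biUnion]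
        refine ⟨ix x, hiW, ?_⟩
        rw [mem_image]
        by_cases h3 : jx x < 3
        · exact ⟨jx x, mem_range.2 (by omega), by rw [if_pos h3]; exact v3⟩
        · refine ⟨len (ix x) + 2 - jx x, mem_range.2 (by omega), ?_⟩
          rw [if_neg (by omega), show len (ix x) + 2 - (len (ix x) + 2 - jx x) = jx x by omega]
          exact v3
  have hcard : (range n \ SE n Lm len ix jx E' Q').card ≤
      G.card + (W'.card + Q'.card) * 5 + 1 := by
    refine (card_le_card hsub).trans ((card_insert_le _ _).trans ?_)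
    apply Nat.add_le_add_right
    refine (card_union_le _ _).trans ?_
    apply Nat.add_le_add_left
    refine (card_biUnion_le_card_mul _ _ 5 ?_).trans ?_
    · intro i _
      exact card_image_le.trans (by rw [card_range])
    · exact Nat.mul_le_mul_right _ (card_union_le _ _)
  have hQW := D.QW
  rw [← hW'] at hQW
  have hW1 : 1 ≤ W'.card := by
    apply card_pos.2
    refine ⟨0, ?_⟩
    rw [hW', mem_sdiff, mem_range]
    refine ⟨?_, D.zE⟩
    by_contra h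
    have hN0 : N' = 0 := by omega
    have h1 := D.hN.c2
    have h2 : (n - 1) ∈ lv n par := by
      rw [lv, mem_filter, mem_range]
      refine ⟨by omega, ?_⟩
      rw [chd, filter_eq_empty_iff]
      intro j hj hj'
      rw [mem_range] at hj
      have := D.hv j hj'.1 hj
      omega
    have h3 := card_pos.2 ⟨_, h2⟩
    omega
  calc Lm * (range n \ SE n Lm len ix jx E' Q').card
      ≤ Lm * (G.card + (W'.card + Q'.card) * 5 + 1) := Nat.mul_le_mul_left _ hcard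
    _ ≤ Lm * (G.card + 13 * W'.card) := Nat.mul_le_mul_left _ (by omega)
    _ = Lm * G.card + 13 * Lm * W'.card := by ring
    _ ≤ 2 * n + 13 * Lm * W'.card := Nat.add_le_add_right hGb _
    _ = 13 * Lm * W'.card + 2 * n := by ring

end Dat

end EXP_

theorem pEXP : T_EXP := by
  intro Δ n N' Lm k' par par' e len E' Q' κ' hn hL hv hb hN hD hC hk hl hs
  obtain ⟨ix, jx, hc⟩ := EXP_.crd_ex hv hN
  have D : EXP_.Dat Δ n N' Lm k' par par' e len E' Q' κ' ix jx :=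
    ⟨hL, hv, hN, hD, hC, hk, hl, hs, hc⟩
  exact ⟨EXP_.SE n Lm len ix jx E' Q', EXP_.SQ n Lm len ix jx E' Q',
    fun x => EXP_.cl Lm k' len κ' E' Q' (ix x) (jx x), D.dcp, D.col, D.bnd, D.leaf, D.waste hn⟩

end Pool.Agent.RSP
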