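import Pool.Agent.RSP.Targets
import Pool.Agent.RSL.LEV

/-!
# LEVP: the special leaf parents, uniform version
-/

set_option autoImplicit false

open Finset

namespace Pool.Agent.RSP

open Pool.Agent.RST Pool.Agent.RSL Pool.Agent.RSL.LEV_

theorem pLEVP (h1 : T_WALK) (h2 : T_ORDR) (h3 : T_GRDL) : T_LEVP := by
  intro Δ k₀ b n m θ par hΔ hk hθ hθ2 hbq hm hV hB hbmn hlow hsq
  classical
  set q : ℕ := 4 * Δ * (Δ + 1) ^ 4 with hq
  have hb : b = q ^ 2 := hbq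
  have hq64 : 64 ≤ q := by
    rw [hq]
    calc 64 = 4 * 1 * (1 + 1) ^ 4 := by norm_num
      _ ≤ 4 * Δ * (Δ + 1) ^ 4 := by gcongr
  have hb2 : 2 ≤ b := by rw [hb]; nlinarith
  have hΔ' : (1 : ℝ) ≤ Δ := by exact_mod_cast hΔ
  have hk' : (1 : ℝ) ≤ k₀ := by exact_mod_cast hk
  have hbR : (2 : ℝ) ≤ b := by exact_mod_cast hb2
  have hm0 : (1 : ℝ) ≤ m := by exact_mod_cast hm
  obtain ⟨I, hI1, hI2, hI3⟩ := exists_I b m hb2 hm
  have hbIn : b ^ I ≤ n := hI3.trans hbmn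
  -- q^I is at most the square root of n
  have hy : ((q : ℝ) ^ I) ^ 2 ≤ n := by
    have : ((b ^ I : ℕ) : ℝ) ≤ n := by exact_mod_cast hbIn
    rw [hb] at this
    push_cast at this
    have h' : ((q : ℝ) ^ I) ^ 2 = ((q : ℝ) ^ 2) ^ I := by rw [← pow_mul, ← pow_mul, mul_comm]
    rw [h']
    exact this
  have hyp : (1 : ℝ) ≤ (q : ℝ) ^ I := by
    apply one_le_pow₀
    exact_mod_cast (by omega : 1 ≤ q)
  have hwalk : 8 * (Δ : ℝ) * (4 * (Δ : ℝ)) ^ I ≤ θ * (lp n par).card := by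
    have hqI : (4 * (Δ : ℝ)) ^ I ≤ (q : ℝ) ^ I := by
      apply pow_le_pow_left₀ (by positivity)
      rw [hq]
      push_cast
      have : (1 : ℝ) ≤ (Δ + 1) ^ 4 := one_le_pow₀ (by linarith)
      nlinarith
    have h4 : (q : ℝ) ^ I ≤ Real.sqrt n := Real.le_sqrt_of_sq_le hy
    refine le_trans ?_ hsq
    exact mul_le_mul_of_nonneg_left (hqI.trans h4) (by positivity)
  obtain ⟨v, hv1, hv2, hv3, hv4⟩ := h1 Δ θ n I par hΔ hθ hθ2 hV hB hwalk
  obtain ⟨par', t, hV', hB', hlv', hEmb, ht1, htm, hts, hlp1, hlpi⟩ :=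
    h2 Δ n I par v hV hB hv1 hv2
  have htpos : ∀ i, 1 ≤ i → i ≤ I → 0 < t i := by
    intro i hi
    induction i, hi using Nat.le_induction with
    | base => exact fun _ => ht1
    | succ i hi ih =>
      intro hi2
      exact lt_of_lt_of_le (ih (by omega)) (htm i hi (by omega)).1
  set s : ℕ → ℕ := fun i => (k₀ + 1) * b * m / b ^ i + 1 with hs
  have key : ∀ i, 1 ≤ i → i ≤ I → ∃ S : Finset ℕ, S ⊆ lp n par' ∧
      (∀ a ∈ S, a < t (i + 1) ∧ ∀ j ≤ 2 * i + 2, t i ≤ par'^[j] a) ∧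
      (∀ a ∈ S, ∀ a' ∈ S, a ≠ a' → ∀ j ≤ 2 * i + 2, ∀ j' ≤ 2 * i + 2,
        par'^[j] a ≠ par'^[j'] a') ∧ S.card = s i := by
    intro i hi hiI
    obtain ⟨S', hS1, hS2, hS3, hS4⟩ := h3 Δ n (2 * i + 2) (t i) (t (i + 1)) par' hΔ (by omega) hV'
      hB' (htpos i hi hiI) (htm i hi hiI).1 (htm i hi hiI).2 (hts i hi hiI)
    have hb0 : 0 < b ^ i := pow_pos (by omega) i
    have hcard : s i ≤ S'.card := by
      -- real inequality
      have g1 : θ * (lp n par).card ≤ (4 * (Δ : ℝ)) ^ i * ((Δ + 1) ^ (2 * (2 * i + 2) + 2) *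
          (S'.card + 1)) := by
        refine (hv4 i hi hiI).trans ?_
        rw [← hlpi i hi hiI]
        gcongr
        exact_mod_cast hS4
      have g2 : (4 * (Δ : ℝ)) ^ i * ((Δ + 1) ^ (2 * (2 * i + 2) + 2) * (S'.card + 1)) =
          (q : ℝ) ^ i * ((Δ + 1) ^ 6 * (S'.card + 1)) := by
        rw [hq]
        push_cast
        rw [mul_pow (4 * (Δ : ℝ)), ← pow_mul, show 2 * (2 * i + 2) + 2 = 4 * i + 6 by ring, pow_add]
        ring
      rw [g2] at g1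
      have g3 : ((k₀ : ℝ) + 3) * b * m ≤ (q : ℝ) ^ i * (S'.card + 1) := by
        have hD : (0 : ℝ) < ((Δ : ℝ) + 1) ^ 6 := by positivity
        have : ((k₀ : ℝ) + 3) * b * m * ((Δ : ℝ) + 1) ^ 6 ≤
            (q : ℝ) ^ i * (S'.card + 1) * ((Δ : ℝ) + 1) ^ 6 := by
          refine (hlow.trans g1).trans (le_of_eq ?_)
          ring
        exact le_of_mul_le_mul_right this hD
      have hqi : (1 : ℝ) ≤ (q : ℝ) ^ i := one_le_pow₀ (by exact_mod_cast (by omega : 1 ≤ q))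
      have g4 : (m : ℝ) * ((k₀ + 3) * b) ≤ (b : ℝ) ^ i * (S'.card + 1) := by
        have e0 : (m : ℝ) * ((k₀ + 3) * b) = ((k₀ : ℝ) + 3) * b * m := by ring
        rw [e0]
        refine g3.trans ?_
        gcongr
        rw [hb]
        push_cast
        nlinarith
      have g5 : m * ((k₀ + 3) * b) ≤ b ^ i * (S'.card + 1) := by exact_mod_cast g4
      have g6 : b ^ i ≤ b * m := (Nat.pow_le_pow_right (by omega) hiI).trans hI3
      have g7 : (k₀ + 1) * b * m + b ^ i ≤ b ^ i * S'.card := by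
        nlinarith
      rw [hs]
      show (k₀ + 1) * b * m / b ^ i + 1 ≤ S'.card
      rw [← Nat.add_div_right _ hb0]
      exact Nat.div_le_of_le_mul g7
    obtain ⟨S, hSS, hSc⟩ := exists_subset_card_eq hcard
    refine ⟨S, hSS.trans hS1, fun a ha => hS2 a (hSS ha),
      fun a ha a' ha' => hS3 a (hSS ha) a' (hSS ha'), hSc⟩
  choose! S hS1 hS2 hS3 hS4 using key
  refine ⟨par', I, S, fun a => if h : ∃ x ∈ chd n par' a, chd n par' x = ∅ then h.choose else 0,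
    t, hV', hB', hlv', hEmb, ⟨hI1, hI2, hI3⟩, ht1, htm, ?_, ?_, ?_⟩
  · rw [hlp1]
    exact hv3
  · intro i hi hiI
    refine ⟨hS2 i hi hiI, hS3 i hi hiI, ?_, ?_⟩
    · intro a ha
      have h := hS1 i hi hiI ha
      rw [RSL.lp, mem_filter] at h
      simp only [h.2, dite_true]
      exact h.2.choose_spec
    · rw [hS4 i hi hiI]
      show (k₀ + 1) * b * m ≤ b ^ i * ((k₀ + 1) * b * m / b ^ i + 1)
      exact (Nat.lt_mul_div_succ _ (pow_pos (by omega) i)).le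
  · have hsum : ((∑ i ∈ Icc 1 I, (2 * i + 4) * (S i).card : ℕ) : ℝ) ≤
        (k₀ + 1) * m * ∑ i ∈ Icc 1 I, (2 * (i : ℝ) + 4) * (1 / 2) ^ (i - 1) +
          ∑ i ∈ Icc 1 I, (2 * (i : ℝ) + 4) := by
      push_cast
      rw [mul_sum, ← sum_add_distrib]
      refine sum_le_sum fun i hi => ?_
      rw [mem_Icc] at hi
      rw [hS4 i hi.1 hi.2]
      have t1 : ((s i : ℕ) : ℝ) ≤ (k₀ + 1) * m * (1 / 2) ^ (i - 1) + 1 := by
        rw [hs]
        push_cast
        gcongr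
        calc ((((k₀ + 1) * b * m / b ^ i : ℕ)) : ℝ) ≤ (((k₀ + 1) * b * m : ℕ) : ℝ) / ((b ^ i : ℕ) : ℝ) :=
              Nat.cast_div_le
          _ = (k₀ + 1) * m * (1 / (b : ℝ)) ^ (i - 1) := by
              push_cast
              obtain ⟨j, hj⟩ : ∃ j, i = j + 1 := ⟨i - 1, by omega⟩
              rw [hj, Nat.add_sub_cancel, pow_succ, one_div, inv_pow]
              field_simp
          _ ≤ (k₀ + 1) * m * (1 / 2) ^ (i - 1) := by
              gcongr
      calc (2 * (i : ℝ) + 4) * (s i : ℕ) ≤ (2 * (i : ℝ) + 4) * ((k₀ + 1) * m * (1 / 2) ^ (i - 1) + 1) := by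
            gcongr
        _ = _ := by ring
    have t4 : (k₀ + 1) * (m : ℝ) * ∑ i ∈ Icc 1 I, (2 * (i : ℝ) + 4) * (1 / 2) ^ (i - 1) ≤
        (k₀ + 1) * m * 16 := by
      gcongr
      exact sum_geo I
    rw [sum_lin] at hsum
    have hIlog : I ≤ Nat.log 2 n := by
      have h2I : 2 ^ I ≤ n := (Nat.pow_le_pow_left hb2 I).trans hbIn
      exact Nat.le_log_of_pow_le (by norm_num) h2I
    have hIR : (I : ℝ) ≤ Nat.log 2 n := by exact_mod_cast hIlog
    have hI0 : (0 : ℝ) ≤ I := Nat.cast_nonneg I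
    have hfin : ((∑ i ∈ Icc 1 I, (2 * i + 4) * (S i).card : ℕ) : ℝ) ≤
        ((16 * (k₀ + 1) * m + (Nat.log 2 n + 3) ^ 2 : ℕ) : ℝ) := by
      push_cast at hsum ⊢
      nlinarith
    exact_mod_cast hfin

end Pool.Agent.RSP
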