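import Pool.Agent.RSP.Targets
import Pool.Agent.RST.MAIN

/-!
# MAINP: the main theorem of the project RSP
-/

set_option autoImplicit false

open Finset Filter Topology

namespace Pool.Agent.RSP

open Pool.Agent.RST Pool.Agent.RSL

namespace MAINP_

lemma rel (h : T_RELL) : T_REL := by
  intro n T hT
  obtain ⟨par, σ, h1, h2, h3, h4, -⟩ := h n T hT
  exact ⟨par, σ, h1, h2, h3, h4⟩

lemma pow_mono {n c C : ℕ} (hcC : c ≤ C) (hl : 1 ≤ Real.log n) {p : ℝ}
    (h : Real.log n ^ C / n ≤ p) : Real.log n ^ c / n ≤ p :=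
  le_trans (div_le_div_of_nonneg_right (pow_le_pow_right₀ hl hcC) (Nat.cast_nonneg n)) h

end MAINP_

open Classical in
theorem pMAINP (h1 : T_GNPL) (h2 : T_RELL) (h3 : T_CASEP) (h4 : T_CASEQ) : T_MAINP := by
  intro Δ hΔ γ hγ
  set m : ℝ := min γ (1 / 2) with hm
  have hm0 : 0 < m := lt_min hγ (by norm_num)
  have hm1 : m ≤ 1 / 2 := min_le_right _ _
  have hmγ : m ≤ γ := min_le_left _ _
  set γ' : ℝ := m / 2 with hγ'
  have hγ'0 : 0 < γ' := by positivity
  have hγ'1 : γ' ≤ 1 / 2 := by rw [hγ']; linarith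
  set η : ℝ := γ' / 100 with hη
  have hη0 : 0 < η := by positivity
  have hη1 : η ≤ 1 := by rw [hη]; linarith
  set C₁ : ℝ := 12 / η with hC
  have hC0 : 0 ≤ C₁ := by positivity
  obtain ⟨CA, nA, hA⟩ := h3 Δ 3 γ' C₁ (by omega) hγ'0 hγ'1 hC0
  obtain ⟨CB, nB, hB⟩ := h4 Δ γ' C₁ (by omega) hγ'0 hγ'1 hC0
  obtain ⟨C₀, hC₀, hG0⟩ := h1 η hη0 hη1
  refine ⟨max (max CA CB) 2, ?_⟩
  intro p hp hpn
  have hlog : Tendsto (fun n : ℕ => Real.log (n : ℝ)) atTop atTop :=
    Real.tendsto_log_atTop.comp tendsto_natCast_atTop_atTop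
  have hlim := hG0 p hp (by
    filter_upwards [hpn, hlog.eventually_ge_atTop (max 1 C₀)] with n hn hl
    have hl1 : 1 ≤ Real.log n := le_trans (le_max_left _ _) hl
    have hl2 : C₀ ≤ Real.log n := le_trans (le_max_right _ _) hl
    refine le_trans ?_ (MAINP_.pow_mono (le_max_right _ _) hl1 hn)
    refine div_le_div_of_nonneg_right ?_ (Nat.cast_nonneg n)
    rw [pow_two]
    exact mul_le_mul_of_nonneg_right hl2 (by linarith))
  refine tendsto_of_tendsto_of_tendsto_of_le_of_le' hlim tendsto_const_nhds ?_ ?_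
  · filter_upwards [hpn, eventually_ge_atTop nA, eventually_ge_atTop nB,
      hlog.eventually_ge_atTop 1] with n hn hnA hnB hl1
    rw [finsum_eq_sum_of_fintype, finsum_eq_sum_of_fintype]
    apply Finset.sum_le_sum
    intro G _
    by_cases hG : Good G η (p n)
    · have hprop : (∀ H : SimpleGraph (Fin n), H ≤ G →
            (∀ v : Fin n, (1 / 2 + γ) * (((G.neighborSet v).ncard : ℕ) : ℝ)
                ≤ (((H.neighborSet v).ncard : ℕ) : ℝ)) →
            ∀ T : SimpleGraph (Fin n), T.IsTree →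
              (∀ v : Fin n, (T.neighborSet v).ncard ≤ Δ) →
              ∃ f : Fin n → Fin n, Function.Injective f ∧
                ∀ u v : Fin n, T.Adj u v → H.Adj (f u) (f v)) := by
        intro H hH hdeg T hT hTd
        have hUU : UU H (γ' / 100) (p n) (C₁ * Real.log n) := RST.MAIN_.UU_mono hH hG.1
        have hpn0 : 0 ≤ p n * (n : ℝ) := mul_nonneg (hp n).1 (Nat.cast_nonneg n)
        have hdH : ∀ v, (1 / 2 + γ') * p n * n ≤ dg H v univ := by
          intro v
          have e1 := hdeg v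
          rw [← RST.MAIN_.dg_univ, ← RST.MAIN_.dg_univ] at e1
          have e2 := (hG.2 v).1
          have e3 : (1 / 2 + γ) * ((1 - η) * p n * n) ≤ (1 / 2 + γ) * (dg G v univ : ℝ) :=
            mul_le_mul_of_nonneg_left e2 (by linarith)
          refine le_trans ?_ (le_trans e3 e1)
          have e4 : (1 / 2 + γ') ≤ (1 / 2 + γ) * (1 - η) := by
            have e5 : (1 / 2 + m) * (1 - η) ≤ (1 / 2 + γ) * (1 - η) := by
              apply mul_le_mul_of_nonneg_right (by linarith) (by linarith)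
            refine le_trans ?_ e5
            rw [hη, hγ']
            nlinarith
          calc (1 / 2 + γ') * p n * n = (1 / 2 + γ') * (p n * n) := by ring
            _ ≤ ((1 / 2 + γ) * (1 - η)) * (p n * n) := mul_le_mul_of_nonneg_right e4 hpn0
            _ = (1 / 2 + γ) * ((1 - η) * p n * n) := by ring
        apply RST.MAIN_.trees (MAINP_.rel h2) H T hT hTd
        intro par hVT hBD
        by_cases hl : Real.log n ^ 3 * (lv n par).card ≤ n
        · exact hB n hnB (p n) (MAINP_.pow_mono ((le_max_right _ _).trans (le_max_left _ _)) hl1 hn)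
            (hp n).2 H hUU hdH par hVT hBD hl
        · exact hA n hnA (p n) (MAINP_.pow_mono ((le_max_left _ _).trans (le_max_left _ _)) hl1 hn)
            (hp n).2 H hUU hdH par hVT hBD (le_of_lt (not_le.1 hl))
      rw [if_pos hG, if_pos hprop]
      rfl
    · rw [if_neg hG]
      split_ifs
      · exact RST.MAIN_.wG_nonneg (hp n).1 (hp n).2 G
      · exact le_refl _
  · filter_upwards with n
    rw [finsum_eq_sum_of_fintype]
    refine le_trans (Finset.sum_le_sum (g := fun G : SimpleGraph (Fin n) => wG (p n) G) ?_)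
      (RST.MAIN_.total n (p n)).le
    intro G _
    split_ifs
    · exact le_of_eq rfl
    · exact RST.MAIN_.wG_nonneg (hp n).1 (hp n).2 G

end Pool.Agent.RSP
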