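import Pool.Agent.RSP.Targets
import Pool.Agent.RST.BARE

/-!
# NODE: the topological tree
-/

set_option autoImplicit false

open Finset

namespace Pool.Agent.RSP

open Pool.Agent.RST Pool.Agent.RSL

namespace NODE_

variable {n : ℕ} {par : ℕ → ℕ}

theorem mem_chd' {v x : ℕ} : x ∈ chd n par v ↔ x < n ∧ 0 < x ∧ par x = v := by
  rw [chd, mem_filter, mem_range]

/-- the nodes -/
def nd (n : ℕ) (par : ℕ → ℕ) (x : ℕ) : Prop := x < n ∧ (x = 0 ∨ (chd n par x).card ≠ 1)

instance (n : ℕ) (par : ℕ → ℕ) : DecidablePred (nd n par) := fun _ =>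
  inferInstanceAs (Decidable (_ ∧ _))

theorem nd_fin (n : ℕ) (par : ℕ → ℕ) : (Set.ofPred (nd n par)).Finite :=
  (Set.finite_Iio n).subset fun _ hx => hx.1

theorem card_nd (n : ℕ) (par : ℕ → ℕ) :
    (nd_fin n par).toFinset.card = Nat.count (nd n par) n := by
  rw [Nat.count_eq_card_filter_range]
  congr 1
  ext x
  rw [Set.Finite.mem_toFinset, mem_filter, mem_range]
  constructor
  · intro h
    exact ⟨h.1, h⟩
  · intro h
    exact h.2

/-- the enumeration -/
noncomputable def ee (n : ℕ) (par : ℕ → ℕ) : ℕ → ℕ := Nat.nth (nd n par)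

/-- the number of nodes -/
def NN (n : ℕ) (par : ℕ → ℕ) : ℕ := Nat.count (nd n par) n

theorem lt_card {i : ℕ} (hi : i < NN n par) : i < (nd_fin n par).toFinset.card := by
  rw [card_nd]
  exact hi

theorem ee_nd {i : ℕ} (hi : i < NN n par) : nd n par (ee n par i) :=
  Nat.nth_mem_of_lt_card (nd_fin n par) (lt_card hi)

theorem ee_mono {i j : ℕ} (hi : i < NN n par) (hj : j < NN n par) (hij : i < j) :
    ee n par i < ee n par j :=
  Nat.nth_strictMonoOn (nd_fin n par) (lt_card hi) (lt_card hj) hij

theorem ee_inj {i j : ℕ} (hi : i < NN n par) (hj : j < NN n par)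
    (h : ee n par i = ee n par j) : i = j :=
  Nat.nth_injOn (nd_fin n par) (lt_card hi) (lt_card hj) h

theorem count_ee {i : ℕ} (hi : i < NN n par) : Nat.count (nd n par) (ee n par i) = i :=
  Nat.count_nth_of_lt_card_finite (nd_fin n par) (lt_card hi)

theorem ee_count {x : ℕ} (hx : nd n par x) : ee n par (Nat.count (nd n par) x) = x :=
  Nat.nth_count hx

theorem count_lt {x : ℕ} (hx : nd n par x) : Nat.count (nd n par) x < NN n par :=
  Nat.count_strict_mono hx hx.1

theorem nd0 (hn : 1 ≤ n) : nd n par 0 := ⟨hn, Or.inl rfl⟩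

theorem ee0 (hn : 1 ≤ n) : ee n par 0 = 0 := by
  have := ee_count (nd0 (par := par) hn)
  rwa [Nat.count_zero] at this

theorem ee_pos (hn : 1 ≤ n) {i : ℕ} (hi : i < NN n par) (h0 : 0 < i) : 0 < ee n par i := by
  have := ee_mono (by omega : 0 < NN n par) hi h0
  rw [ee0 hn] at this
  exact this

/-- there is a node above -/
theorem exists_up (hV : VT n par) (hn : 1 ≤ n) : ∀ x, 0 < x → x < n →
    ∃ j, 1 ≤ j ∧ nd n par (par^[j] x) := by
  intro x
  induction x using Nat.strong_induction_on with
  | _ x ih =>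
    intro h0 hx
    have h1 := hV x h0 hx
    rcases Nat.eq_zero_or_pos (par x) with h | h
    · exact ⟨1, le_rfl, by rw [Function.iterate_one, h]; exact nd0 hn⟩
    · obtain ⟨j, hj, hj2⟩ := ih (par x) h1 h (by omega)
      exact ⟨j + 1, by omega, by rw [Function.iterate_succ_apply]; exact hj2⟩

open Classical in
/-- the length -/
noncomputable def le (n : ℕ) (par : ℕ → ℕ) (i : ℕ) : ℕ :=
  if h : ∃ j, 1 ≤ j ∧ nd n par (par^[j] (ee n par i)) then Nat.find h else 1

section

variable (hV : VT n par) (hn : 1 ≤ n) {i : ℕ} (hi : i < NN n par) (h0 : 0 < i)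

include hV hn hi h0

theorem le_spec : 1 ≤ le n par i ∧ nd n par (par^[le n par i] (ee n par i)) := by
  classical
  have h := exists_up hV hn (ee n par i) (ee_pos hn hi h0) (ee_nd hi).1
  have e : le n par i = Nat.find h := by
    unfold le
    rw [dif_pos h]
  rw [e]
  exact Nat.find_spec h

theorem le_min {j : ℕ} (h1 : 1 ≤ j) (hj : j < le n par i) :
    ¬ nd n par (par^[j] (ee n par i)) := by
  classical
  have h := exists_up hV hn (ee n par i) (ee_pos hn hi h0) (ee_nd hi).1
  have e : le n par i = Nat.find h := by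
    unfold le
    rw [dif_pos h]
  rw [e] at hj
  intro hc
  exact Nat.find_min h hj ⟨h1, hc⟩

theorem le_pos {j : ℕ} (hj : j < le n par i) : 0 < par^[j] (ee n par i) := by
  rcases Nat.eq_zero_or_pos j with h | h
  · rw [h]
    exact ee_pos hn hi h0
  · by_contra hc
    have hc' : par^[j] (ee n par i) = 0 := by omega
    exact le_min hV hn hi h0 h hj (by rw [hc']; exact nd0 hn)

theorem le_lt {j : ℕ} (hj : j ≤ le n par i) : par^[j] (ee n par i) ≤ ee n par i ∧
    (0 < j → par^[j] (ee n par i) < ee n par i) := by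
  induction j with
  | zero => exact ⟨le_rfl, fun h => absurd h (lt_irrefl 0)⟩
  | succ j ih =>
    have h1 := ih (by omega)
    have h2 := le_pos hV hn hi h0 (by omega : j < le n par i)
    have h3 := (ee_nd hi).1
    have h4 := hV _ h2 (by omega)
    rw [Function.iterate_succ_apply']
    exact ⟨by omega, fun _ => by omega⟩

theorem le_ltn {j : ℕ} (hj : j ≤ le n par i) : par^[j] (ee n par i) < n :=
  lt_of_le_of_lt (le_lt hV hn hi h0 hj).1 (ee_nd hi).1

theorem one' {j : ℕ} (h1 : 1 ≤ j) (hj : j < le n par i) :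
    chd n par (par^[j] (ee n par i)) = {par^[j - 1] (ee n par i)} := by
  have h2 := le_min hV hn hi h0 h1 hj
  have h3 := le_pos hV hn hi h0 hj
  have h4 := le_ltn hV hn hi h0 hj.le
  have h5 : (chd n par (par^[j] (ee n par i))).card = 1 := by
    by_contra hc
    exact h2 ⟨h4, Or.inr hc⟩
  obtain ⟨c, hc⟩ := card_eq_one.1 h5
  have h6 : par^[j - 1] (ee n par i) ∈ chd n par (par^[j] (ee n par i)) := by
    rw [mem_chd']
    refine ⟨le_ltn hV hn hi h0 (by omega), le_pos hV hn hi h0 (by omega), ?_⟩
    rw [← Function.iterate_succ_apply' par]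
    congr 1
    omega
  rw [hc, mem_singleton] at h6
  rw [hc, h6]

end

/-- the parent function of the topological tree -/
noncomputable def pp (n : ℕ) (par : ℕ → ℕ) (i : ℕ) : ℕ :=
  Nat.count (nd n par) (par^[le n par i] (ee n par i))

theorem up' (hV : VT n par) (hn : 1 ≤ n) {i : ℕ} (hi : i < NN n par) (h0 : 0 < i) :
    par^[le n par i] (ee n par i) = ee n par (pp n par i) :=
  (ee_count (le_spec hV hn hi h0).2).symm

theorem pp_lt (hV : VT n par) (hn : 1 ≤ n) {i : ℕ} (hi : i < NN n par) (h0 : 0 < i) :
    pp n par i < i := by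
  have h1 := le_spec hV hn hi h0
  have h2 := (le_lt hV hn hi h0 le_rfl).2 h1.1
  have h3 := Nat.count_strict_mono h1.2 h2
  rw [count_ee hi] at h3
  exact h3

theorem cov' (hV : VT n par) (hn : 1 ≤ n) : ∀ m x, n - x ≤ m → 0 < x → x < n →
    ∃ i < NN n par, 0 < i ∧ ∃ j < le n par i, par^[j] (ee n par i) = x := by
  intro m
  induction m with
  | zero => intro x h1 _ h2; omega
  | succ m ih =>
    intro x hm h0 hx
    by_cases h : nd n par x
    · refine ⟨Nat.count (nd n par) x, count_lt h, ?_, 0, ?_, ?_⟩
      · have := Nat.count_strict_mono (nd0 (par := par) hn) h0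
        rwa [Nat.count_zero] at this
      · have hi0 : 0 < Nat.count (nd n par) x := by
          have := Nat.count_strict_mono (nd0 (par := par) hn) h0
          rwa [Nat.count_zero] at this
        have := (le_spec hV hn (count_lt h) hi0).1
        omega
      · exact ee_count h
    · have h5 : (chd n par x).card = 1 := by
        by_contra hc
        exact h ⟨hx, Or.inr hc⟩
      obtain ⟨c, hc⟩ := card_eq_one.1 h5
      have h6 : c ∈ chd n par x := by rw [hc]; exact mem_singleton_self c
      rw [mem_chd'] at h6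
      have h7 := hV c h6.2.1 h6.1
      obtain ⟨i, hi, hi0, j, hj, hjx⟩ := ih c (by omega) h6.2.1 h6.1
      refine ⟨i, hi, hi0, j + 1, ?_, ?_⟩
      · by_contra hcon
        have hle : le n par i = j + 1 := by omega
        have := (le_spec hV hn hi hi0).2
        rw [hle, Function.iterate_succ_apply', hjx, h6.2.2] at this
        exact h this
      · rw [Function.iterate_succ_apply', hjx, h6.2.2]

theorem dis' (hV : VT n par) (hn : 1 ≤ n) {i i' : ℕ} (hi : i < NN n par) (hi' : i' < NN n par)
    (h0 : 0 < i) (h0' : 0 < i') : ∀ j < le n par i, ∀ j' < le n par i',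
    par^[j] (ee n par i) = par^[j'] (ee n par i') → i = i' ∧ j = j' := by
  intro j
  induction j with
  | zero =>
    intro _ j' hj' h
    rcases Nat.eq_zero_or_pos j' with h1 | h1
    · subst h1
      exact ⟨ee_inj hi hi' h, rfl⟩
    · exfalso
      refine le_min hV hn hi' h0' h1 hj' ?_
      rw [← h]
      exact ee_nd hi
  | succ j ih =>
    intro hj j' hj' h
    rcases Nat.eq_zero_or_pos j' with h1 | h1
    · subst h1
      exfalso
      refine le_min hV hn hi h0 (by omega : 1 ≤ j + 1) hj ?_
      rw [h]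
      exact ee_nd hi'
    · have e1 := one' hV hn hi h0 (by omega : 1 ≤ j + 1) hj
      have e2 := one' hV hn hi' h0' h1 hj'
      rw [h, e2, Nat.add_sub_cancel, singleton_inj] at e1
      obtain ⟨h3, h4⟩ := ih (by omega) (j' - 1) (by omega) e1.symm
      exact ⟨h3, by omega⟩

theorem top_mem (hV : VT n par) (hn : 1 ≤ n) {i x : ℕ} (hx : x ∈ chd (NN n par) (pp n par) i) :
    par^[le n par x - 1] (ee n par x) ∈ chd n par (ee n par i) := by
  rw [mem_chd'] at hx
  obtain ⟨h1, h2, h3⟩ := hx
  have h4 := (le_spec hV hn h1 h2).1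
  rw [mem_chd']
  refine ⟨le_ltn hV hn h1 h2 (by omega), le_pos hV hn h1 h2 (by omega), ?_⟩
  rw [← Function.iterate_succ_apply' par, show (le n par x - 1).succ = le n par x by omega,
    up' hV hn h1 h2, h3]

theorem card_chd (hV : VT n par) (hn : 1 ≤ n) (i : ℕ) :
    (chd (NN n par) (pp n par) i).card ≤ (chd n par (ee n par i)).card := by
  refine card_le_card_of_injOn (fun x => par^[le n par x - 1] (ee n par x))
    (fun x hx => top_mem hV hn hx) ?_
  intro x hx y hy hxy
  rw [mem_coe, mem_chd'] at hx hy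
  have h1 := (le_spec hV hn hx.1 hx.2.1).1
  have h2 := (le_spec hV hn hy.1 hy.2.1).1
  exact (dis' hV hn hx.1 hy.1 hx.2.1 hy.2.1 _ (by omega) _ (by omega) hxy).1

theorem leaf' (hV : VT n par) (hn : 1 ≤ n) {i : ℕ} (hi : i < NN n par) :
    chd n par (ee n par i) = ∅ ↔ chd (NN n par) (pp n par) i = ∅ := by
  constructor
  · intro h
    have := card_chd hV hn i
    rw [h, card_empty, Nat.le_zero, card_eq_zero] at this
    exact this
  · intro h
    by_contra hne
    obtain ⟨x, hx⟩ := nonempty_iff_ne_empty.2 hne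
    rw [mem_chd'] at hx
    obtain ⟨i', hi', h0', j, hj, hjx⟩ := cov' hV hn n x (by omega) hx.2.1 hx.1
    have h1 : par^[j + 1] (ee n par i') = ee n par i := by
      rw [Function.iterate_succ_apply', hjx, hx.2.2]
    have h2 : le n par i' = j + 1 := by
      by_contra hc
      refine le_min hV hn hi' h0' (by omega : 1 ≤ j + 1) (by omega) ?_
      rw [h1]
      exact ee_nd hi
    have h3 : pp n par i' = i := by
      unfold pp
      rw [h2, h1, count_ee hi]
    have h4 : i' ∈ chd (NN n par) (pp n par) i := by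
      rw [mem_chd']
      exact ⟨hi', h0', h3⟩
    rw [h] at h4
    exact absurd h4 (notMem_empty _)

theorem cc1 (hV : VT n par) (hn : 1 ≤ n) : NN n par ≤ 2 * (lv n par).card + 1 := by
  have h1 : NN n par = ((range n).filter (nd n par)).card := Nat.count_eq_card_filter_range _ _
  have h2 : (range n).filter (nd n par) ⊆ insert 0 (lv n par ∪
      (range n).filter (fun x => 2 ≤ (chd n par x).card)) := by
    intro x hx
    rw [mem_filter, mem_range] at hx
    rw [mem_insert, mem_union, lv, mem_filter, mem_filter, mem_range]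
    rcases hx.2.2 with h | h
    · exact Or.inl h
    · right
      rcases Nat.eq_zero_or_pos (chd n par x).card with h0 | h0
      · exact Or.inl ⟨hx.1, card_eq_zero.1 h0⟩
      · exact Or.inr ⟨hx.1, by omega⟩
  have h3 := card_le_card h2
  have h4 := card_insert_le 0 (lv n par ∪ (range n).filter (fun x => 2 ≤ (chd n par x).card))
  have h5 := card_union_le (lv n par) ((range n).filter (fun x => 2 ≤ (chd n par x).card))
  have h6 := BARE_.sum_chd hV hn
  have h7 : n + ((range n).filter (fun x => 2 ≤ (chd n par x).card)).card ≤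
      ∑ v ∈ range n, (chd n par v).card + (lv n par).card := by
    have e1 : ∑ v ∈ range n, (1 + (if 2 ≤ (chd n par v).card then 1 else 0)) ≤
        ∑ v ∈ range n, ((chd n par v).card + (if chd n par v = ∅ then 1 else 0)) := by
      refine sum_le_sum fun v _ => ?_
      by_cases h : chd n par v = ∅
      · rw [h]
        simp
      · have : 0 < (chd n par v).card := card_pos.2 (nonempty_iff_ne_empty.2 h)
        rw [if_neg h]
        split_ifs <;> omega
    rw [sum_add_distrib, sum_add_distrib, ← card_filter, ← card_filter, sum_const, card_range,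
      smul_eq_mul, mul_one] at e1
    exact e1
  omega

theorem cc2 (n : ℕ) (par : ℕ → ℕ) : (lv n par).card ≤ NN n par := by
  have h1 : NN n par = ((range n).filter (nd n par)).card := Nat.count_eq_card_filter_range _ _
  rw [h1]
  refine card_le_card fun x hx => ?_
  rw [lv, mem_filter, mem_range] at hx
  rw [mem_filter, mem_range]
  refine ⟨hx.1, hx.1, Or.inr ?_⟩
  rw [hx.2, card_empty]
  omega

end NODE_

open NODE_ in
theorem pNODE : T_NODE := by
  intro Δ n par hn hV hB
  refine ⟨NN n par, pp n par, ee n par, le n par, ?_⟩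
  exact
    { vt := fun i h0 hi => pp_lt hV hn hi h0
      bd := fun i => (card_chd hV hn i).trans (hB _)
      mono := fun i hi j hj hij => ee_mono hi hj hij
      e0 := ee0 hn
      lt := fun i hi => (ee_nd hi).1
      len1 := fun i hi h0 => (le_spec hV hn hi h0).1
      up := fun i hi h0 => up' hV hn hi h0
      pos := fun i hi h0 j hj => le_pos hV hn hi h0 hj
      one := fun i hi h0 j h1 hj => one' hV hn hi h0 h1 hj
      cov := fun x h0 hx => cov' hV hn n x (by omega) h0 hx
      dis := fun i hi i' hi' h0 h0' j hj j' hj' h => dis' hV hn hi hi' h0 h0' j hj j' hj' h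
      leaf := fun i hi => leaf' hV hn hi
      c1 := cc1 hV hn
      c2 := cc2 n par }

end Pool.Agent.RSP
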