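import Pool.Agent.RSP.Targets
import Pool.Agent.RSL.NUML

set_option autoImplicit false

open Finset Filter Topology

namespace Pool.Agent.RSP

open Pool.Agent.RST Pool.Agent.RSL

namespace NUMP_

lemma powlog (j : ℕ) : ∀ᶠ n : ℕ in atTop, Real.log (n : ℝ) ^ j ≤ (n : ℝ) := by
  have h := (Real.isLittleO_pow_log_id_atTop (n := j)).bound (one_pos)
  have h2 := (tendsto_natCast_atTop_atTop (R := ℝ)).eventually h
  filter_upwards [h2] with n hn
  have h3 : ‖Real.log (n : ℝ) ^ j‖ ≤ 1 * ‖(id (n : ℝ) : ℝ)‖ := hn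
  simp only [id, Real.norm_eq_abs, one_mul] at h3
  rw [abs_of_nonneg (Nat.cast_nonneg n : (0 : ℝ) ≤ n)] at h3
  exact (le_abs_self _).trans h3

lemma natlog (n : ℕ) (hn : 1 ≤ n) : (Nat.log 2 n : ℝ) ≤ 2 * Real.log n := by
  have h1 : 2 ^ Nat.log 2 n ≤ n := Nat.pow_log_le_self 2 (by omega)
  have h2 : (2 : ℝ) ^ Nat.log 2 n ≤ n := by exact_mod_cast h1
  have h3 := Real.log_le_log (by positivity) h2
  rw [Real.log_pow] at h3
  have h4 : (1 : ℝ) / 2 ≤ Real.log 2 := by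
    have := Real.log_two_gt_d9
    linarith
  have h5 : (0 : ℝ) ≤ Nat.log 2 n := Nat.cast_nonneg _
  nlinarith

end NUMP_

theorem pNUMP : T_NUMP := by
  intro g C₁ η B₀ s d hg hC₁ hη hB₀
  obtain ⟨L₀, hL₀⟩ : ∃ L₀ : ℝ, L₀ = 1 + 16 * B₀ * C₁ / g + 4 * B₀ + 4 * C₁ * (1 + d) * B₀ +
    625 * B₀ ^ 2 + 4 * B₀ * (2 * B₀ + 3) / η ^ 2 := ⟨_, rfl⟩
  have hlogT : ∀ᶠ n : ℕ in atTop, L₀ ≤ Real.log (n : ℝ) :=
    (Real.tendsto_log_atTop.comp (tendsto_natCast_atTop_atTop (R := ℝ))).eventually_ge_atTop L₀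
  have hall := (hlogT.and (NUMP_.powlog (2 * s + 5))).and (eventually_ge_atTop 3)
  obtain ⟨n₀, hn₀⟩ := eventually_atTop.1 hall
  refine ⟨2 * s + 6, n₀, ?_⟩
  intro n hn p hp hp1
  obtain ⟨⟨hL, hnL⟩, hn3⟩ := hn₀ n hn
  obtain ⟨L, hLd⟩ : ∃ L : ℝ, L = Real.log (n : ℝ) := ⟨_, rfl⟩
  rw [← hLd] at hL hnL hp ⊢
  have hd0 : (0 : ℝ) ≤ d := Nat.cast_nonneg d
  have t1 : 0 ≤ 16 * B₀ * C₁ / g := by positivity
  have t2 : 0 ≤ 4 * C₁ * (1 + d) * B₀ := by positivity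
  have t3 : 0 ≤ 625 * B₀ ^ 2 := by positivity
  have t4 : 0 ≤ 4 * B₀ * (2 * B₀ + 3) / η ^ 2 := by positivity
  have hL1 : 1 ≤ L := by linarith
  have hL0 : 0 < L := by linarith
  have hn0 : (0 : ℝ) < n := by exact_mod_cast (by omega : 0 < n)
  have a1 : 16 * B₀ * C₁ ≤ L * g := by
    rw [← div_le_iff₀ hg]; linarith
  have a2 : 4 * B₀ ≤ L := by linarith
  have a3 : 4 * C₁ * (1 + d) * B₀ < L := by linarith
  have a4 : 625 * B₀ ^ 2 ≤ L := by linarith
  have a5 : 4 * B₀ * (2 * B₀ + 3) ≤ L * η ^ 2 := by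
    rw [← div_le_iff₀ (by positivity)]; linarith
  -- powers
  have hpn : L ^ (2 * s + 6) ≤ p * n := by rwa [div_le_iff₀ hn0] at hp
  have hp0 : 0 < p := by
    have h1 : 0 < p * n := lt_of_lt_of_le (by positivity) hpn
    exact pos_of_mul_pos_left h1 hn0.le
  obtain ⟨P, hP⟩ : ∃ P : ℝ, P = L ^ s := ⟨_, rfl⟩
  have hP1 : 1 ≤ P := by rw [hP]; exact one_le_pow₀ hL1
  have hP0 : 0 < P := by linarith
  have e1 : L ^ (2 * s + 6) = P * P * L ^ 6 := by rw [hP]; ring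
  have e2 : L ^ (2 * s + 5) = P * P * L ^ 5 := by rw [hP]; ring
  rw [e1] at hpn
  rw [e2] at hnL
  rw [← hP]
  have hL5 : L ≤ L ^ 5 := by
    calc L = L ^ 1 := (pow_one L).symm
      _ ≤ L ^ 5 := pow_le_pow_right₀ hL1 (by norm_num)
  have hL62 : L * L ≤ L ^ 6 := by
    calc L * L = L ^ 2 := by ring
      _ ≤ L ^ 6 := pow_le_pow_right₀ hL1 (by norm_num)
  have hPP : P ≤ P * P := by nlinarith
  -- P * L * L ≤ p * n
  have b1 : P * L * L ≤ p * n := by
    calc P * L * L = P * (L * L) := by ring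
      _ ≤ P * P * L ^ 6 := mul_le_mul hPP hL62 (by positivity) (by positivity)
      _ ≤ p * n := hpn
  -- P * L ≤ n
  have b2 : P * L ≤ n := by
    calc P * L ≤ P * P * L ^ 5 := mul_le_mul hPP hL5 (by positivity) (by positivity)
      _ ≤ n := hnL
  obtain ⟨x, hx⟩ : ∃ x : ℝ, x = 8 * (C₁ * L) / (g * p) := ⟨_, rfl⟩
  rw [← hx]
  have hx0 : 0 ≤ x := by rw [hx]; positivity
  have hgpx : g * p * x = 8 * (C₁ * L) := by rw [hx]; field_simp
  have hgp : 0 < g * p := by positivity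
  have hceil : (⌈x⌉₊ : ℝ) < x + 1 := Nat.ceil_lt_add_one hx0
  have hceil' : x ≤ (⌈x⌉₊ : ℝ) := Nat.le_ceil x
  have hBP : 0 ≤ B₀ * P := by positivity
  -- 4 * B₀ * P ≤ n
  have b3 : 4 * (B₀ * P) ≤ n := by
    calc 4 * (B₀ * P) = (4 * B₀) * P := by ring
      _ ≤ L * P := mul_le_mul_of_nonneg_right a2 hP0.le
      _ = P * L := by ring
      _ ≤ n := b2
  have c16 : 16 * (C₁ * L) * (B₀ * P) ≤ g * p * n := by
    calc 16 * (C₁ * L) * (B₀ * P) = (16 * B₀ * C₁) * (L * P) := by ring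
      _ ≤ (L * g) * (L * P) := mul_le_mul_of_nonneg_right a1 (by positivity)
      _ = g * (P * L * L) := by ring
      _ ≤ g * (p * n) := mul_le_mul_of_nonneg_left b1 hg.le
      _ = g * p * n := by ring
  refine ⟨by omega, hp0, hL1, ?_, ?_, ?_, c16, ?_, ?_⟩
  · -- (d)
    push_cast
    have h1 : B₀ * P * x ≤ n / 2 := by
      have h2 : g * p * (B₀ * P * x) ≤ g * p * (n / 2) := by
        calc g * p * (B₀ * P * x) = (g * p * x) * (B₀ * P) := by ring
          _ = 8 * (C₁ * L) * (B₀ * P) := by rw [hgpx]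
          _ ≤ g * p * (n / 2) := by linarith [c16]
      exact le_of_mul_le_mul_left h2 hgp
    have h3 : B₀ * P * ((⌈x⌉₊ : ℝ) + 1) ≤ B₀ * P * (x + 2) :=
      mul_le_mul_of_nonneg_left (by linarith) hBP
    calc B₀ * P * ((⌈x⌉₊ : ℝ) + 1) ≤ B₀ * P * (x + 2) := h3
      _ = B₀ * P * x + 2 * (B₀ * P) := by ring
      _ ≤ n := by linarith
  · push_cast
    rw [← hgpx]
    exact mul_le_mul_of_nonneg_left (by linarith) hgp.le
  · calc 4 * (C₁ * L) * (1 + d) * (B₀ * P) = (4 * C₁ * (1 + d) * B₀) * (P * L) := by ring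
      _ < L * (P * L) := mul_lt_mul_of_pos_right a3 (by positivity)
      _ = P * L * L := by ring
      _ ≤ p * n := b1
  · have h1 : (Nat.log 2 n : ℝ) ≤ 2 * L := by
      rw [hLd]; exact NUMP_.natlog n (by omega)
    have h2 : (Nat.log 2 n : ℝ) + 3 ≤ 5 * L := by linarith
    have h20 : 0 ≤ (Nat.log 2 n : ℝ) + 3 := by positivity
    have h3 : ((Nat.log 2 n : ℝ) + 3) ^ 2 ≤ (5 * L) ^ 2 := pow_le_pow_left₀ h20 h2 2
    have h4 : B₀ * P * ((Nat.log 2 n : ℝ) + 3) ^ 2 ≤ B₀ * P * (5 * L) ^ 2 :=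
      mul_le_mul_of_nonneg_left h3 hBP
    calc (B₀ * P * ((Nat.log 2 n : ℝ) + 3) ^ 2) ^ 2 ≤ (B₀ * P * (5 * L) ^ 2) ^ 2 :=
          pow_le_pow_left₀ (by positivity) h4 2
      _ = (625 * B₀ ^ 2) * (P * P * L ^ 4) := by ring
      _ ≤ L * (P * P * L ^ 4) := mul_le_mul_of_nonneg_right a4 (by positivity)
      _ = P * P * L ^ 5 := by ring
      _ ≤ n := hnL
  · intro k smin hk hs
    have hB0 : 0 < B₀ := by
      rcases hB₀.lt_or_eq with h | h
      · exact h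
      · rw [← h] at hs
        simp at hs
        exact absurd hs (by omega)
    have hkn : k < n := by
      have h1 : (k : ℝ) < n := by linarith
      exact_mod_cast h1
    apply NUML_.last k n _ hn3 hkn
    rw [← hLd]
    have ha : η ^ 2 * smin * (1 / 2 * p * n) / (2 * n) = η ^ 2 * smin * p / 4 := by
      field_simp
      ring
    rw [ha]
    have hmain : (4 * (B₀ * P)) * (((2 * k + 3 : ℕ) : ℝ) * L) ≤
        (4 * (B₀ * P)) * (η ^ 2 * smin * p / 4) := by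
      have h1 : ((2 * k + 3 : ℕ) : ℝ) ≤ (2 * B₀ + 3) * P := by
        push_cast
        nlinarith
      calc (4 * (B₀ * P)) * (((2 * k + 3 : ℕ) : ℝ) * L)
          ≤ (4 * (B₀ * P)) * (((2 * B₀ + 3) * P) * L) := by
            apply mul_le_mul_of_nonneg_left _ (by positivity)
            exact mul_le_mul_of_nonneg_right h1 hL0.le
        _ = (4 * B₀ * (2 * B₀ + 3)) * (P * P * L) := by ring
        _ ≤ (L * η ^ 2) * (P * P * L) := mul_le_mul_of_nonneg_right a5 (by positivity)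
        _ = η ^ 2 * (P * P * (L * L)) := by ring
        _ ≤ η ^ 2 * (P * P * L ^ 6) := by
            apply mul_le_mul_of_nonneg_left _ (by positivity)
            exact mul_le_mul_of_nonneg_left hL62 (by positivity)
        _ ≤ η ^ 2 * (p * n) := mul_le_mul_of_nonneg_left hpn (by positivity)
        _ ≤ η ^ 2 * (p * (B₀ * P * smin)) := by
            apply mul_le_mul_of_nonneg_left _ (by positivity)
            exact mul_le_mul_of_nonneg_left hs hp0.le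
        _ = (4 * (B₀ * P)) * (η ^ 2 * smin * p / 4) := by ring
    exact le_of_mul_le_mul_left hmain (by positivity)

end Pool.Agent.RSP
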