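import Pool.Agent.RSP.Targets
import Pool.Agent.RSL.NUML
import Pool.Agent.RST.NUMB

/-!
# RSP-NUMQ: the numerical conditions, few leaves
-/

set_option autoImplicit false

open Finset Filter Topology

namespace Pool.Agent.RSP

open Pool.Agent.RST Pool.Agent.RSL

namespace NUMQ_

lemma gl_le (a : ℕ) : gl a ≤ 6 * a ^ 2 + 29 * a + 40 := by
  unfold gl sz kk
  have h1 : 2 * (a / 2) ≤ a := Nat.mul_div_le a 2
  obtain ⟨k, hk⟩ : ∃ k, k = 2 * (a / 2) := ⟨_, rfl⟩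
  rw [← hk] at h1 ⊢
  have h2 : k + 3 - 1 = k + 2 := by omega
  rw [h2]
  nlinarith [Nat.mul_le_mul h1 h1, Nat.mul_le_mul h1 (le_refl a)]

lemma le_gl (a : ℕ) : 8 * a + 16 ≤ gl a := by
  unfold gl
  omega

/-- the small parameters -/
lemma small (g : ℝ) (hg : 0 < g) (hg1 : g ≤ 1 / 4) : ∃ D : ℝ, 1 ≤ D ∧ ∀ L : ℝ, 1 ≤ L →
    ∃ (a ω q K ℓ C3 C4 : ℕ), L ≤ a ∧ (a : ℝ) ≤ D * L ∧ (K : ℝ) ≤ D * L ^ 2 ∧
      (ℓ : ℝ) ≤ D * L ^ 2 ∧ (C3 : ℝ) ≤ D * L ^ 3 ∧ (C4 : ℝ) ≤ D * L ^ 5 ∧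
      8 * a + 18 ≤ K ∧ ℓ = K + 4 * a + 3 ∧ gl a ≤ ℓ ∧ ω = q + (4 * a + 2) ∧
      16 * (a : ℝ) + 16 ≤ g / 4 * ω ∧ 4 * (ω : ℝ) ≤ g * K ∧ C3 = K * q ∧
      4 * ((ℓ : ℝ) * C3) ≤ g / 4 * C4 ∧ (ℓ - 2) * C3 ≤ C4 ∧ 1 ≤ C3 ∧ 1 ≤ C4 := by
  obtain ⟨D1, hD1⟩ : ∃ D1 : ℝ, D1 = 193 / g := ⟨_, rfl⟩
  obtain ⟨D2, hD2⟩ : ∃ D2 : ℝ, D2 = 4 * D1 / g + 125 := ⟨_, rfl⟩
  obtain ⟨D3, hD3⟩ : ∃ D3 : ℝ, D3 = D2 + 11 := ⟨_, rfl⟩
  obtain ⟨D4, hD4⟩ : ∃ D4 : ℝ, D4 = D2 * D1 := ⟨_, rfl⟩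
  obtain ⟨D5, hD5⟩ : ∃ D5 : ℝ, D5 = 16 * (D3 * D4) / g + D3 * D4 + 2 := ⟨_, rfl⟩
  have p1 : 0 < D1 := by rw [hD1]; positivity
  have p2 : 0 < D2 := by rw [hD2]; positivity
  have p3 : 0 < D3 := by rw [hD3]; positivity
  have p4 : 0 < D4 := by rw [hD4]; positivity
  have p5 : 0 < D5 := by rw [hD5]; positivity
  refine ⟨2 + D1 + D2 + D3 + D4 + D5, by linarith, ?_⟩
  intro L hL
  have hL0 : 0 < L := by linarith
  obtain ⟨a, ha⟩ : ∃ a : ℕ, a = ⌈L⌉₊ := ⟨_, rfl⟩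
  have ha1 : L ≤ a := by rw [ha]; exact Nat.le_ceil L
  have ha2 : (a : ℝ) ≤ 2 * L := by
    have : (⌈L⌉₊ : ℝ) < L + 1 := Nat.ceil_lt_add_one hL0.le
    rw [ha]
    linarith
  obtain ⟨ω, hω⟩ : ∃ ω : ℕ, ω = ⌈(16 * (a : ℝ) + 16) / (g / 4)⌉₊ := ⟨_, rfl⟩
  have hω1 : (16 * (a : ℝ) + 16) / (g / 4) ≤ ω := by rw [hω]; exact Nat.le_ceil _
  have hω2 : (16 * (a : ℝ) + 16) ≤ g / 4 * ω := by
    rw [div_le_iff₀ (by positivity)] at hω1
    linarith
  have hω3 : 4 * a + 3 ≤ ω := by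
    have h1 : (16 * (a : ℝ) + 16) ≤ ω := by
      have : g / 4 * (ω : ℝ) ≤ 1 * ω := mul_le_mul_of_nonneg_right (by linarith) (Nat.cast_nonneg _)
      linarith
    have h2 : 16 * a + 16 ≤ ω := by exact_mod_cast h1
    omega
  have hω4 : (ω : ℝ) ≤ D1 * L := by
    have h1 : (ω : ℝ) < (16 * (a : ℝ) + 16) / (g / 4) + 1 := by
      rw [hω]
      exact Nat.ceil_lt_add_one (by positivity)
    have h2 : (16 * (a : ℝ) + 16) / (g / 4) ≤ 192 * L / g := by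
      rw [div_le_div_iff₀ (by positivity) hg]
      nlinarith
    have h3 : 1 ≤ L / g := by
      rw [le_div_iff₀ hg]
      linarith
    have h4 : D1 * L = 192 * L / g + L / g := by rw [hD1]; ring
    linarith
  obtain ⟨q, hq⟩ : ∃ q, ω = q + (4 * a + 2) := ⟨ω - (4 * a + 2), by omega⟩
  have hq1 : 1 ≤ q := by omega
  have hqω : (q : ℝ) ≤ ω := by
    have : q ≤ ω := by omega
    exact_mod_cast this
  obtain ⟨K, hK⟩ : ∃ K : ℕ, K = ⌈4 * (ω : ℝ) / g⌉₊ + gl a + 2 := ⟨_, rfl⟩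
  have hK1 : 4 * (ω : ℝ) ≤ g * K := by
    have h1 : 4 * (ω : ℝ) / g ≤ ⌈4 * (ω : ℝ) / g⌉₊ := Nat.le_ceil _
    have h2 : (⌈4 * (ω : ℝ) / g⌉₊ : ℝ) ≤ K := by
      rw [hK]; push_cast
      have : (0 : ℝ) ≤ gl a := Nat.cast_nonneg _
      linarith
    have h3 := h1.trans h2
    rw [div_le_iff₀ hg] at h3
    linarith
  have hL2 : L ≤ L ^ 2 := by nlinarith
  have hL21 : 1 ≤ L ^ 2 := by nlinarith
  have hgl : (gl a : ℝ) ≤ 122 * L ^ 2 := by
    have h1 : (gl a : ℝ) ≤ 6 * (a : ℝ) ^ 2 + 29 * a + 40 := by exact_mod_cast gl_le a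
    have h2 : (a : ℝ) ^ 2 ≤ (2 * L) ^ 2 := pow_le_pow_left₀ (Nat.cast_nonneg _) ha2 2
    nlinarith
  have hK2 : (K : ℝ) ≤ D2 * L ^ 2 := by
    have h1 : (⌈4 * (ω : ℝ) / g⌉₊ : ℝ) < 4 * (ω : ℝ) / g + 1 := Nat.ceil_lt_add_one (by positivity)
    have h2 : 4 * (ω : ℝ) / g ≤ 4 * D1 / g * L := by
      rw [div_mul_eq_mul_div]
      apply div_le_div_of_nonneg_right _ hg.le
      linarith
    have h3 : 4 * D1 / g * L ≤ 4 * D1 / g * L ^ 2 := mul_le_mul_of_nonneg_left hL2 (by positivity)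
    rw [hK, hD2]
    push_cast
    nlinarith
  have hKa : 8 * a + 18 ≤ K := by
    have := le_gl a
    omega
  obtain ⟨ℓ, hℓ⟩ : ∃ ℓ : ℕ, ℓ = K + 4 * a + 3 := ⟨_, rfl⟩
  have hℓ1 : (ℓ : ℝ) ≤ D3 * L ^ 2 := by
    rw [hℓ, hD3]
    push_cast
    nlinarith
  obtain ⟨C3, hC3⟩ : ∃ C3 : ℕ, C3 = K * q := ⟨_, rfl⟩
  have hC31 : (C3 : ℝ) ≤ D4 * L ^ 3 := by
    rw [hC3, hD4]
    push_cast
    calc (K : ℝ) * q ≤ (D2 * L ^ 2) * (D1 * L) := by
          apply mul_le_mul hK2 (hqω.trans hω4) (Nat.cast_nonneg _) (by positivity)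
      _ = D2 * D1 * L ^ 3 := by ring
  have hC32 : 1 ≤ C3 := by
    rw [hC3]
    exact Nat.mul_pos (by omega) hq1
  obtain ⟨C4, hC4⟩ : ∃ C4 : ℕ, C4 = ⌈4 * ((ℓ : ℝ) * C3) / (g / 4)⌉₊ + (ℓ - 2) * C3 + 1 :=
    ⟨_, rfl⟩
  have hprod : (ℓ : ℝ) * C3 ≤ D3 * D4 * L ^ 5 := by
    calc (ℓ : ℝ) * C3 ≤ (D3 * L ^ 2) * (D4 * L ^ 3) := by
          apply mul_le_mul hℓ1 hC31 (Nat.cast_nonneg _) (by positivity)
      _ = D3 * D4 * L ^ 5 := by ring
  have hC41 : (C4 : ℝ) ≤ D5 * L ^ 5 := by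
    have h1 : (⌈4 * ((ℓ : ℝ) * C3) / (g / 4)⌉₊ : ℝ) < 4 * ((ℓ : ℝ) * C3) / (g / 4) + 1 :=
      Nat.ceil_lt_add_one (by positivity)
    have h2 : 4 * ((ℓ : ℝ) * C3) / (g / 4) ≤ 16 * (D3 * D4) / g * L ^ 5 := by
      rw [div_mul_eq_mul_div, div_le_div_iff₀ (by positivity) hg]
      nlinarith
    have h3 : (((ℓ - 2) * C3 : ℕ) : ℝ) ≤ (ℓ : ℝ) * C3 := by
      have : (ℓ - 2) * C3 ≤ ℓ * C3 := Nat.mul_le_mul_right _ (by omega)
      exact_mod_cast this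
    have h4 : (1 : ℝ) ≤ L ^ 5 := one_le_pow₀ hL
    rw [hC4, hD5]
    push_cast
    push_cast at h3
    nlinarith
  have hL3 : 0 < L ^ 3 := by positivity
  have hL5 : 0 < L ^ 5 := by positivity
  refine ⟨a, ω, q, K, ℓ, C3, C4, ha1, ?_, ?_, ?_, ?_, ?_, hKa, hℓ, by omega, hq, hω2, hK1, hC3,
    ?_, ?_, hC32, by omega⟩
  · refine ha2.trans (mul_le_mul_of_nonneg_right (by linarith) hL0.le)
  · refine hK2.trans (mul_le_mul_of_nonneg_right (by linarith) (by positivity))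
  · refine hℓ1.trans (mul_le_mul_of_nonneg_right (by linarith) (by positivity))
  · refine hC31.trans (mul_le_mul_of_nonneg_right (by linarith) (by positivity))
  · refine hC41.trans (mul_le_mul_of_nonneg_right (by linarith) (by positivity))
  · have h1 : 4 * ((ℓ : ℝ) * C3) / (g / 4) ≤ ⌈4 * ((ℓ : ℝ) * C3) / (g / 4)⌉₊ := Nat.le_ceil _
    rw [div_le_iff₀ (by positivity)] at h1
    rw [hC4]
    push_cast
    have h2 : 0 ≤ g / 4 * ((((ℓ - 2 : ℕ) : ℝ) * C3) + 1) := by positivity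
    nlinarith
  · rw [hC4]
    omega

/-- `J` is at most logarithmic -/
lemma J_le (N L y : ℝ) (J : ℕ) (hL : L = Real.log N) (hL1 : 1 ≤ L) (hJ : 1 ≤ J)
    (h1 : (2 : ℝ) ^ (J - 1) ≤ y) (h2 : y ≤ N) : (J : ℝ) ≤ 3 * L := by
  have hJlog : ((J - 1 : ℕ) : ℝ) * Real.log 2 ≤ L := by
    have := Real.log_le_log (by positivity) (h1.trans h2)
    rwa [Real.log_pow, ← hL] at this
  have hl2 := Real.log_two_gt_d9
  have e1 : ((J - 1 : ℕ) : ℝ) = (J : ℝ) - 1 := by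
    rw [Nat.cast_sub hJ]; simp
  rw [e1] at hJlog
  have hJr : (1 : ℝ) ≤ J := by exact_mod_cast hJ
  have e2 : ((J : ℝ) - 1) * (69 / 100) ≤ ((J : ℝ) - 1) * Real.log 2 :=
    mul_le_mul_of_nonneg_left (by linarith) (by linarith)
  linarith

/-- a power of the logarithm is eventually smaller than `n` -/
lemma ev (T : ℝ) : ∀ᶠ n : ℕ in atTop, T ≤ Real.log n ∧ Real.log n ^ 24 ≤ n := by
  have h1 : ∀ᶠ x : ℝ in atTop, T ≤ Real.log x := Real.tendsto_log_atTop.eventually_ge_atTop T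
  have h2 : (fun x : ℝ => (Real.log x) ^ (24 : ℝ)) =o[atTop] fun x : ℝ => x ^ (1 : ℝ) :=
    isLittleO_log_rpow_rpow_atTop 24 one_pos
  have h3 := h2.bound one_pos
  have h4 := tendsto_natCast_atTop_atTop (R := ℝ) |>.eventually h1
  have h5 := tendsto_natCast_atTop_atTop (R := ℝ) |>.eventually h3
  filter_upwards [h4, h5, eventually_ge_atTop 1] with n a1 a2 a3
  refine ⟨a1, ?_⟩
  have hN : (1 : ℝ) ≤ n := by exact_mod_cast a3
  have hl : 0 ≤ Real.log n := Real.log_nonneg hN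
  rw [Real.norm_of_nonneg (Real.rpow_nonneg hl _), Real.rpow_one, one_mul,
    Real.norm_of_nonneg (by linarith)] at a2
  rwa [show (24 : ℝ) = ((24 : ℕ) : ℝ) by norm_num, Real.rpow_natCast] at a2

end NUMQ_

open NUMQ_ in
theorem pNUMQ : T_NUMQ := by
  intro g C₁ η ξ C₀ k₀ z₀ N₀ Δ hg hg1 hC₁ hη hξ hC₀
  obtain ⟨D, hD1, hsmall⟩ := small g hg hg1
  obtain ⟨E, hE⟩ : ∃ E : ℝ, E = 3 * C₀ + 20 + Δ := ⟨_, rfl⟩
  obtain ⟨M, hM⟩ : ∃ M : ℝ, M = 8 * C₁ / g + 2 := ⟨_, rfl⟩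
  have hE1 : 1 ≤ E := by
    rw [hE]
    have : (0 : ℝ) ≤ Δ := Nat.cast_nonneg _
    linarith
  have hM1 : 2 ≤ M := by
    rw [hM]
    have : 0 ≤ 8 * C₁ / g := by positivity
    linarith
  have hD0 : 0 < D := by linarith
  have hE0 : 0 < E := by linarith
  have hM0 : 0 < M := by linarith
  obtain ⟨B, hB⟩ : ∃ B : ℝ, B = (k₀ : ℝ) + 5 + 3 * D + 3 := ⟨_, rfl⟩
  have hB0 : 0 < B := by rw [hB]; positivity
  -- the thresholds
  obtain ⟨t1, ht1⟩ : ∃ t : ℝ, t = 16 * E * M := ⟨_, rfl⟩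
  obtain ⟨t2, ht2⟩ : ∃ t : ℝ, t = 64 * C₁ / g + 8 * C₁ * (1 + E) + 1 := ⟨_, rfl⟩
  obtain ⟨t4, ht4⟩ : ∃ t : ℝ, t = 32 * (8 * E * M + 4 * M + 4 * D * E * M + 4 * D * E + D + 4) / g :=
    ⟨_, rfl⟩
  obtain ⟨t6, ht6⟩ : ∃ t : ℝ, t = 4 / ξ + 800 / g := ⟨_, rfl⟩
  obtain ⟨t7, ht7⟩ : ∃ t : ℝ, t = 256000 * D ^ 2 * E / g ^ 2 := ⟨_, rfl⟩
  obtain ⟨t8, ht8⟩ : ∃ t : ℝ, t = 400 * (20 * D + D + 3) / g := ⟨_, rfl⟩
  obtain ⟨t9, ht9⟩ : ∃ t : ℝ, t = 16 * (10 * D * E + D) * (D + 1) := ⟨_, rfl⟩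
  obtain ⟨t10, ht10⟩ : ∃ t : ℝ, t = 1600000 * (((k₀ : ℝ) * k₀ + 1) * M) / g ^ 2 := ⟨_, rfl⟩
  obtain ⟨t11, ht11⟩ : ∃ t : ℝ, t = 16 * (D + 1) * (D + 1) := ⟨_, rfl⟩
  obtain ⟨t13, ht13⟩ : ∃ t : ℝ, t = 4 * (2 * B + 3) / η ^ 2 + B := ⟨_, rfl⟩
  obtain ⟨t14, ht14⟩ : ∃ t : ℝ, t = 4 * D + z₀ + 2 * N₀ + M := ⟨_, rfl⟩
  have q1 : 0 ≤ t1 := by rw [ht1]; positivity
  have q2 : 0 ≤ t2 := by rw [ht2]; positivity
  have q4 : 0 ≤ t4 := by rw [ht4]; positivity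
  have q6 : 0 ≤ t6 := by rw [ht6]; positivity
  have q7 : 0 ≤ t7 := by rw [ht7]; positivity
  have q8 : 0 ≤ t8 := by rw [ht8]; positivity
  have q9 : 0 ≤ t9 := by rw [ht9]; positivity
  have q10 : 0 ≤ t10 := by rw [ht10]; positivity
  have q11 : 0 ≤ t11 := by rw [ht11]; positivity
  have q13 : 0 ≤ t13 := by rw [ht13]; positivity
  have q14 : 0 ≤ t14 := by rw [ht14]; positivity
  obtain ⟨n₀, hn₀⟩ := eventually_atTop.1
    (ev (2 + t1 + t2 + t4 + t6 + t7 + t8 + t9 + t10 + t11 + t13 + t14))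
  refine ⟨40, max n₀ 3, ?_⟩
  intro n hn p hp hp1
  obtain ⟨hT, hpow⟩ := hn₀ n (le_trans (le_max_left _ _) hn)
  have hn3 : 3 ≤ n := le_trans (le_max_right _ _) hn
  obtain ⟨L, hL⟩ : ∃ L : ℝ, L = Real.log n := ⟨_, rfl⟩
  rw [← hL] at hT hpow hp ⊢
  have hn0 : (0 : ℝ) < n := by exact_mod_cast (by omega : 0 < n)
  have hL2 : 2 ≤ L := by linarith
  have hL1 : 1 ≤ L := by linarith
  have hL0 : 0 < L := by linarith
  obtain ⟨a, ω, q, K, ℓ, C3, C4, ha1, ha2, hK, hℓ, hC3, hC4, hKa, hℓK, hgl, hω, hω1, hωK, hC3e,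
    hC4a, hC4b, hC31, hC41⟩ := hsmall L hL1
  have hp0 : 0 < p := lt_of_lt_of_le (by positivity) hp
  have hpn : L ^ 40 ≤ p * n := by rwa [div_le_iff₀ hn0] at hp
  -- auxiliary quantities
  obtain ⟨u, hu⟩ : ∃ u : ℝ, u = n / L := ⟨_, rfl⟩
  obtain ⟨w, hw⟩ : ∃ w : ℝ, w = n / L ^ 21 := ⟨_, rfl⟩
  have hun : (n : ℝ) = u * L := by rw [hu]; field_simp
  have hwn : (n : ℝ) = w * L ^ 21 := by rw [hw]; field_simp
  have hw3 : L ^ 3 ≤ w := by
    rw [hw, le_div_iff₀ (by positivity)]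
    calc L ^ 3 * L ^ 21 = L ^ 24 := by ring
      _ ≤ (n : ℝ) := hpow
  have hL23 : L ^ 2 ≤ L ^ 3 := pow_le_pow_right₀ hL1 (by norm_num)
  have hw2 : L ^ 2 ≤ w := hL23.trans hw3
  have hw0 : 0 < w := lt_of_lt_of_le (by positivity) hw3
  have hL21 : 1 ≤ L ^ 2 := one_le_pow₀ hL1
  have hw1 : 1 ≤ w := hL21.trans hw2
  have hwu : w ≤ u := by
    have h1 : w * L ≤ u * L := by
      rw [← hun, hwn]
      apply mul_le_mul_of_nonneg_left _ hw0.le
      calc L = L ^ 1 := (pow_one L).symm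
        _ ≤ L ^ 21 := pow_le_pow_right₀ hL1 (by norm_num)
    exact le_of_mul_le_mul_right h1 hL0
  have hu0 : 0 < u := lt_of_lt_of_le hw0 hwu
  have hu2 : L ^ 2 ≤ u := hw2.trans hwu
  obtain ⟨h, hh⟩ : ∃ h : ℕ, h = ⌈w * L⌉₊ := ⟨_, rfl⟩
  have hh1 : w * L ≤ h := by rw [hh]; exact Nat.le_ceil _
  have hh2 : (h : ℝ) ≤ 2 * (w * L) := by
    have h1 : (⌈w * L⌉₊ : ℝ) < w * L + 1 := Nat.ceil_lt_add_one (by positivity)
    have h2 : 1 ≤ w * L := one_le_mul_of_one_le_of_one_le hw1 hL1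
    rw [hh]
    linarith
  have hwL : 1 ≤ w * L := one_le_mul_of_one_le_of_one_le hw1 hL1
  have hh0 : (0 : ℝ) < h := by linarith
  have hhnat : 1 ≤ h := by
    have : (1 : ℝ) ≤ h := by linarith
    exact_mod_cast this
  have hH : (h : ℝ) * L ^ 12 ≤ 2 * u := by
    have h1 : (h : ℝ) * L ^ 12 * L ≤ 2 * u * L := by
      calc (h : ℝ) * L ^ 12 * L ≤ (2 * (w * L)) * L ^ 12 * L := by gcongr
        _ = 2 * (w * L ^ 14) := by ring
        _ ≤ 2 * (w * L ^ 21) := by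
            have : L ^ 14 ≤ L ^ 21 := pow_le_pow_right₀ hL1 (by norm_num)
            have := mul_le_mul_of_nonneg_left this hw0.le
            linarith
        _ = 2 * u * L := by rw [← hwn, hun]; ring
    exact le_of_mul_le_mul_right h1 hL0
  have hHk : ∀ k : ℕ, k ≤ 12 → (h : ℝ) * L ^ k ≤ 2 * u := by
    intro k hk
    refine le_trans ?_ hH
    exact mul_le_mul_of_nonneg_left (pow_le_pow_right₀ hL1 hk) hh0.le
  have hH0 : (h : ℝ) ≤ 2 * u := by simpa using hHk 0 (by norm_num)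
  have hph : L ^ 20 ≤ p * h := by
    have h1 : L ^ 20 * L ^ 20 ≤ p * h * L ^ 20 := by
      calc L ^ 20 * L ^ 20 = L ^ 40 := by ring
        _ ≤ p * n := hpn
        _ = p * (w * L) * L ^ 20 := by rw [hwn]; ring
        _ ≤ p * h * L ^ 20 := by gcongr
    exact le_of_mul_le_mul_right h1 (by positivity)
  obtain ⟨m, hm⟩ : ∃ m : ℕ, m = ⌈8 * (C₁ * L) / (g * p)⌉₊ + 1 := ⟨_, rfl⟩
  have hgp : 0 < g * p := by positivity
  have hm1 : 8 * (C₁ * L) ≤ g * p * m := by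
    have h1 : 8 * (C₁ * L) / (g * p) ≤ ⌈8 * (C₁ * L) / (g * p)⌉₊ := Nat.le_ceil _
    have h2 : (⌈8 * (C₁ * L) / (g * p)⌉₊ : ℝ) ≤ m := by rw [hm]; push_cast; linarith
    have h3 := h1.trans h2
    rw [div_le_iff₀ hgp] at h3
    linarith
  have hm2 : (m : ℝ) * L ^ 2 ≤ M * w := by
    have h1 : (⌈8 * (C₁ * L) / (g * p)⌉₊ : ℝ) < 8 * (C₁ * L) / (g * p) + 1 :=
      Nat.ceil_lt_add_one (by positivity)
    have h2 : 8 * (C₁ * L) / (g * p) * L ^ 2 ≤ 8 * C₁ / g * w := by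
      have h3 : L ^ 19 ≤ p * w := by
        have h4 : L ^ 19 * L ^ 21 ≤ p * w * L ^ 21 := by
          calc L ^ 19 * L ^ 21 = L ^ 40 := by ring
            _ ≤ p * n := hpn
            _ = _ := by rw [hwn]; ring
        exact le_of_mul_le_mul_right h4 (by positivity)
      have h5 : L ^ 3 ≤ p * w := le_trans (pow_le_pow_right₀ hL1 (by norm_num)) h3
      rw [div_mul_eq_mul_div, div_mul_eq_mul_div, div_le_div_iff₀ hgp hg]
      have h6 := mul_le_mul_of_nonneg_left h5 (by positivity : 0 ≤ 8 * C₁ * g)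
      calc 8 * (C₁ * L) * L ^ 2 * g = 8 * C₁ * g * L ^ 3 := by ring
        _ ≤ 8 * C₁ * g * (p * w) := h6
        _ = _ := by ring
    have h7 : (m : ℝ) ≤ 8 * (C₁ * L) / (g * p) + 2 := by
      rw [hm]; push_cast; linarith
    calc (m : ℝ) * L ^ 2 ≤ (8 * (C₁ * L) / (g * p) + 2) * L ^ 2 := by gcongr
      _ = 8 * (C₁ * L) / (g * p) * L ^ 2 + 2 * L ^ 2 := by ring
      _ ≤ 8 * C₁ / g * w + 2 * w := by linarith
      _ = M * w := by rw [hM]; ring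
  have hm0 : (0 : ℝ) ≤ m := Nat.cast_nonneg _
  have hmL : (m : ℝ) * L ≤ M * w := by
    refine le_trans ?_ hm2
    apply mul_le_mul_of_nonneg_left _ hm0
    exact le_self_pow₀ hL1 (by norm_num)
  have hm3 : (m : ℝ) ≤ M * w := (le_mul_of_one_le_right hm0 hL21).trans hm2
  obtain ⟨b, hb⟩ : ∃ b : ℕ, b = ⌈C₀ * L⌉₊ + 3 := ⟨_, rfl⟩
  have hb1 : C₀ * L ≤ b := by
    have : C₀ * L ≤ ⌈C₀ * L⌉₊ := Nat.le_ceil _
    rw [hb]; push_cast; linarith
  have hb2 : (b : ℝ) + 1 ≤ (C₀ + 5) * L := by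
    have : (⌈C₀ * L⌉₊ : ℝ) < C₀ * L + 1 := Nat.ceil_lt_add_one (by positivity)
    have e1 : (C₀ + 5) * L = C₀ * L + 5 * L := by ring
    rw [hb, e1]; push_cast; linarith
  have hb3 : 3 ≤ b := by omega
  have hbE : (b : ℝ) + 1 ≤ E * L := by
    refine hb2.trans (mul_le_mul_of_nonneg_right ?_ hL0.le)
    rw [hE]
    have : (0 : ℝ) ≤ Δ := Nat.cast_nonneg _
    linarith
  have hbE' : (b : ℝ) ≤ E * L := by linarith
  obtain ⟨d, hd⟩ : ∃ d : ℕ, d = 3 * b + Δ + 8 := ⟨_, rfl⟩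
  have hdE : (d : ℝ) ≤ E * L := by
    have hΔ0 : (0 : ℝ) ≤ Δ := Nat.cast_nonneg _
    have hΔL : (Δ : ℝ) ≤ Δ * L := le_mul_of_one_le_right hΔ0 hL1
    have e1 : (3 * C₀ + 20 + Δ) * L = 3 * ((C₀ + 5) * L) + 5 * L + Δ * L := by ring
    rw [hd, hE, e1]; push_cast
    linarith
  have hmd : (m : ℝ) * d ≤ E * (M * w) := by
    calc (m : ℝ) * d ≤ m * (E * L) := by gcongr
      _ = E * (m * L) := by ring
      _ ≤ E * (M * w) := by gcongr
  have hmb : (m : ℝ) * (b + 1) ≤ E * (M * w) := by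
    calc (m : ℝ) * (b + 1) ≤ m * (E * L) := by gcongr
      _ = E * (m * L) := by ring
      _ ≤ E * (M * w) := by gcongr
  have ha0 : (0 : ℝ) ≤ a := Nat.cast_nonneg _
  have hb0 : (0 : ℝ) ≤ b := Nat.cast_nonneg _
  have hℓ0 : (0 : ℝ) ≤ ℓ := Nat.cast_nonneg _
  have hham : (a : ℝ) * m ≤ D * (M * w) := by
    calc (a : ℝ) * m ≤ (D * L) * m := by gcongr
      _ = D * (m * L) := by ring
      _ ≤ D * (M * w) := by gcongr
  have hhab : (a : ℝ) * b ≤ D * E * w := by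
    calc (a : ℝ) * b ≤ (D * L) * (E * L) := by gcongr
      _ = D * E * L ^ 2 := by ring
      _ ≤ D * E * w := by gcongr
  have hℓw : (ℓ : ℝ) ≤ D * w := hℓ.trans (by gcongr)
  have hℓ1 : (ℓ : ℝ) + 1 ≤ (D + 1) * L ^ 2 := by
    have e1 : (D + 1) * L ^ 2 = D * L ^ 2 + L ^ 2 := by ring
    rw [e1]
    linarith
  -- `c1` and `c2`
  obtain ⟨c1, hc1⟩ : ∃ c1 : ℝ, c1 = 1 / (8 * ((ℓ : ℝ) + 1)) := ⟨_, rfl⟩
  obtain ⟨c2, hc2⟩ : ∃ c2 : ℝ, c2 = K * g * c1 / 12 := ⟨_, rfl⟩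
  have hc10 : 0 < c1 := by rw [hc1]; positivity
  have hc1a : 1 ≤ c1 * (8 * ((D + 1) * L ^ 2)) := by
    have h1 : c1 * (8 * ((ℓ : ℝ) + 1)) = 1 := by rw [hc1]; field_simp
    have h2 : c1 * (8 * ((ℓ : ℝ) + 1)) ≤ c1 * (8 * ((D + 1) * L ^ 2)) := by gcongr
    linarith
  have hc1b : c1 ≤ 1 := by
    rw [hc1, div_le_one (by positivity)]
    linarith
  have hc2a : g / 400 ≤ c2 := by
    have h1 : c1 * (8 * ((ℓ : ℝ) + 1)) = 1 := by rw [hc1]; field_simp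
    have h2 : 96 * ((ℓ : ℝ) + 1) ≤ 400 * K := by
      have : 96 * (ℓ + 1) ≤ 400 * K := by omega
      exact_mod_cast this
    have h3 : 12 ≤ 400 * K * c1 := by
      calc (12 : ℝ) = 12 * (c1 * (8 * ((ℓ : ℝ) + 1))) := by rw [h1]; ring
        _ = 96 * ((ℓ : ℝ) + 1) * c1 := by ring
        _ ≤ 400 * K * c1 := by gcongr
    have h4 := mul_le_mul_of_nonneg_left h3 hg.le
    rw [hc2]
    have e2 : g * (400 * K * c1) = 4800 * (K * g * c1 / 12) := by ring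
    rw [e2] at h4
    linarith
  have hc2n : g / 400 * (u * L) ≤ c2 * n := by
    rw [← hun]
    gcongr
  -- the classes
  have hKh0 : 0 < (K : ℝ) * h := by
    have : (0 : ℝ) < K := by
      have : 0 < K := by omega
      exact_mod_cast this
    positivity
  have hKh1 : 1 ≤ (K : ℝ) * h := by
    have h1 : (1 : ℝ) ≤ K := by
      have : 1 ≤ K := by omega
      exact_mod_cast this
    have h2 : (1 : ℝ) ≤ h := by exact_mod_cast hhnat
    exact one_le_mul_of_one_le_of_one_le h1 h2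
  have key : ∀ X : ℝ, 0 ≤ X → X * (8 * ((D + 1) * L ^ 2)) ≤ n → X ≤ c1 * n := by
    intro X hX hXn
    calc X = 1 * X := (one_mul X).symm
      _ ≤ c1 * (8 * ((D + 1) * L ^ 2)) * X := mul_le_mul_of_nonneg_right hc1a hX
      _ = c1 * (X * (8 * ((D + 1) * L ^ 2))) := by ring
      _ ≤ c1 * n := mul_le_mul_of_nonneg_left hXn hc10.le
  have hKhn : (K : ℝ) * h ≤ c1 * n := by
    apply key _ hKh0.le
    calc (K : ℝ) * h * (8 * ((D + 1) * L ^ 2)) ≤ D * L ^ 2 * h * (8 * ((D + 1) * L ^ 2)) := by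
          gcongr
      _ = 8 * D * (D + 1) * (h * L ^ 4) := by ring
      _ ≤ 8 * D * (D + 1) * (2 * u) := by
          apply mul_le_mul_of_nonneg_left (hHk 4 (by norm_num)) (by positivity)
      _ = u * (16 * D * (D + 1)) := by ring
      _ ≤ u * L := by
          apply mul_le_mul_of_nonneg_left _ hu0.le
          have : 16 * D * (D + 1) ≤ 16 * (D + 1) * (D + 1) := by gcongr; linarith
          linarith
      _ = n := hun.symm
  have hy : 1 ≤ c1 * n / (K * h) := by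
    rw [le_div_iff₀ hKh0, one_mul]
    exact hKhn
  obtain ⟨J, hJ1, hJ2, hJ3⟩ := Pool.Agent.RST.NUMB_.exJ _ hy
  have hyn : c1 * n / (K * h) ≤ n := by
    refine (div_le_self (by positivity) hKh1).trans ?_
    have := mul_le_mul_of_nonneg_right hc1b hn0.le
    rwa [one_mul] at this
  have hJL : (J : ℝ) ≤ 3 * L := J_le n L _ J hL hL1 hJ1 hJ2 hyn
  obtain ⟨k, hk⟩ : ∃ k : ℕ, k = k₀ + 5 + J * K + J := ⟨_, rfl⟩
  have hkB : (k : ℝ) ≤ B * L ^ 3 := by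
    have hL3 : 1 ≤ L ^ 3 := one_le_pow₀ hL1
    have e1 : (k : ℝ) = (k₀ + 5) + J * K + J := by rw [hk]; push_cast; ring
    have e2 : (J : ℝ) * K ≤ (3 * L) * (D * L ^ 2) := by gcongr
    have e3 : (3 * L) * (D * L ^ 2) = 3 * D * L ^ 3 := by ring
    have e4 : ((k₀ : ℝ) + 5) ≤ (k₀ + 5) * L ^ 3 := le_mul_of_one_le_right (by positivity) hL3
    have e5 : L ≤ L ^ 3 := le_self_pow₀ hL1 (by norm_num)
    have e6 : B * L ^ 3 = (k₀ + 5) * L ^ 3 + 3 * D * L ^ 3 + 3 * L ^ 3 := by rw [hB]; ring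
    linarith
  have ht13' : 4 * (2 * B + 3) ≤ L * η ^ 2 := by
    have h1 : 4 * (2 * B + 3) / η ^ 2 ≤ L := by linarith
    rwa [div_le_iff₀ (by positivity)] at h1
  have hkn : k < n := by
    have h1 : B * L ^ 3 < n := by
      calc B * L ^ 3 < L * L ^ 3 := by
            apply mul_lt_mul_of_pos_right _ (by positivity)
            have : 0 ≤ 4 * (2 * B + 3) / η ^ 2 := by positivity
            linarith
        _ = L ^ 4 := by ring
        _ ≤ L ^ 24 := pow_le_pow_right₀ hL1 (by norm_num)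
        _ ≤ n := hpow
    exact_mod_cast lt_of_le_of_lt hkB h1
  have hlast : ((2 * k + 3 : ℕ) : ℝ) * Real.log n ≤
      η ^ 2 * h * (1 / 2 * p * n) / (2 * n) := by
    have e0 : η ^ 2 * h * (1 / 2 * p * n) / (2 * n) = η ^ 2 * (p * h) / 4 := by
      field_simp
      ring
    rw [e0, ← hL, le_div_iff₀ (by norm_num)]
    have hL3 : 1 ≤ L ^ 3 := one_le_pow₀ hL1
    have e1 : ((2 * k + 3 : ℕ) : ℝ) ≤ (2 * B + 3) * L ^ 3 := by
      push_cast
      have : (2 * B + 3) * L ^ 3 = 2 * (B * L ^ 3) + 3 * L ^ 3 := by ring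
      rw [this]
      linarith
    calc ((2 * k + 3 : ℕ) : ℝ) * L * 4 ≤ ((2 * B + 3) * L ^ 3) * L * 4 := by gcongr
      _ = (4 * (2 * B + 3)) * L ^ 4 := by ring
      _ ≤ (L * η ^ 2) * L ^ 4 := by gcongr
      _ = η ^ 2 * L ^ 5 := by ring
      _ ≤ η ^ 2 * L ^ 20 := by
          apply mul_le_mul_of_nonneg_left _ (by positivity)
          exact pow_le_pow_right₀ hL1 (by norm_num)
      _ ≤ η ^ 2 * (p * h) := by gcongr
  have hexp := Pool.Agent.RSL.NUML_.last k n _ hn3 hkn hlast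
  rw [hk] at hexp
  -- the template sizes
  have hC4h : (C4 : ℝ) * h ≤ 2 * D * u := by
    calc (C4 : ℝ) * h ≤ (D * L ^ 5) * h := by gcongr
      _ = D * (h * L ^ 5) := by ring
      _ ≤ D * (2 * u) := mul_le_mul_of_nonneg_left (hHk 5 (by norm_num)) hD0.le
      _ = 2 * D * u := by ring
  obtain ⟨z', hz'⟩ : ∃ z', z' = C4 * h := ⟨_, rfl⟩
  obtain ⟨z, hz⟩ : ∃ z, z = z' + (ℓ - 2) * (K * (q * h)) := ⟨_, rfl⟩
  have hz1 : (ℓ - 2) * (K * (q * h)) ≤ z' := by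
    rw [hz']
    calc (ℓ - 2) * (K * (q * h)) = ((ℓ - 2) * C3) * h := by rw [hC3e]; ring
      _ ≤ C4 * h := Nat.mul_le_mul_right _ hC4b
  have hhz : h ≤ z' := by
    rw [hz']
    exact Nat.le_mul_of_pos_left h (by omega)
  have hLh : L ≤ h := by
    refine le_trans ?_ hh1
    exact le_mul_of_one_le_left hL0.le hw1
  have hz0 : z₀ ≤ z' := by
    refine le_trans ?_ hhz
    have h1 : (z₀ : ℝ) ≤ h := by
      refine le_trans ?_ hLh
      have : (0 : ℝ) ≤ N₀ := Nat.cast_nonneg _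
      linarith
    exact_mod_cast h1
  have hzn : z ≤ n := by
    have h1 : (z : ℝ) ≤ 2 * (C4 * h) := by
      have : z ≤ 2 * (C4 * h) := by rw [← hz']; omega
      exact_mod_cast this
    have h2 : 4 * D * u ≤ n := by
      rw [hun, mul_comm (4 * D) u]
      apply mul_le_mul_of_nonneg_left _ hu0.le
      have e1 : (0 : ℝ) ≤ N₀ := Nat.cast_nonneg _
      have e2 : (0 : ℝ) ≤ z₀ := Nat.cast_nonneg _
      linarith
    have h3 : (z : ℝ) ≤ n := by linarith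
    exact_mod_cast h3
  have hLn : L ≤ n := (le_self_pow₀ hL1 (by norm_num)).trans hpow
  have hN0 : 2 * N₀ ≤ n := by
    have h1 : (2 : ℝ) * N₀ ≤ n := by
      refine le_trans ?_ hLn
      have e2 : (0 : ℝ) ≤ z₀ := Nat.cast_nonneg _
      linarith
    exact_mod_cast h1
  have hmb' : m ≤ b ^ a := by
    have h1 : (m : ℝ) ≤ n := by
      calc (m : ℝ) ≤ M * w := hm3
        _ ≤ L ^ 21 * w := by
            apply mul_le_mul_of_nonneg_right _ hw0.le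
            refine le_trans ?_ (le_self_pow₀ hL1 (by norm_num))
            have e1 : (0 : ℝ) ≤ N₀ := Nat.cast_nonneg _
            have e2 : (0 : ℝ) ≤ z₀ := Nat.cast_nonneg _
            linarith
        _ = n := by rw [hwn]; ring
    have h2 : (n : ℝ) = Real.exp L := by rw [hL, Real.exp_log hn0]
    have h3 : Real.exp L ≤ Real.exp a := Real.exp_le_exp.2 ha1
    have h4 : Real.exp a ≤ (b : ℝ) ^ a := by
      rw [← Real.exp_one_pow]
      apply pow_le_pow_left₀ (Real.exp_pos 1).le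
      have := Real.exp_one_lt_d9
      have h5 : (3 : ℝ) ≤ b := by exact_mod_cast hb3
      linarith
    have h6 : (m : ℝ) ≤ (b : ℝ) ^ a := by linarith
    exact_mod_cast h6
  refine ⟨a, ω, q, K, ℓ, C3, C4, h, m, b, d, z', z, J, c1, c2, by omega, hp0, hN0, by omega, hℓK,
    hgl, hω, hω1, hωK, hC3e, hC4a, hC4b, hC31, hC41, hz', hz, hz0, hzn, hc1, hc2, hc2a,
    by omega, hhnat, by omega, hb1, hmb', by omega, by omega, by omega, hm1, ?_, ?_, ?_, ?_, ?_,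
    ?_, ?_, ?_, ?_, ?_, ?_, ?_, hJ1, ?_, ?_, hexp⟩
  · -- 16 C₁ L
    have h1 : 64 * C₁ / g ≤ L := by
      have : 0 ≤ 8 * C₁ * (1 + E) := by positivity
      linarith
    rw [div_le_iff₀ hg] at h1
    have h2 : L ^ 2 ≤ p * h := (pow_le_pow_right₀ hL1 (by norm_num)).trans hph
    calc 16 * (C₁ * L) = (64 * C₁) * L / 4 := by ring
      _ ≤ (L * g) * L / 4 := by gcongr
      _ = g / 4 * L ^ 2 := by ring
      _ ≤ g / 4 * (p * h) := by gcongr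
      _ = g / 4 * p * h := by ring
  · calc 16 * (m : ℝ) * d = 16 * (m * d) := by ring
      _ ≤ 16 * (E * (M * w)) := by gcongr
      _ = w * (16 * E * M) := by ring
      _ ≤ w * L := mul_le_mul_of_nonneg_left (by linarith) hw0.le
      _ ≤ h := hh1
  · have h1 : 8 * C₁ * (1 + E) + 1 ≤ L := by
      have : 0 ≤ 64 * C₁ / g := by positivity
      linarith
    have h2 : (1 : ℝ) + d ≤ (1 + E) * L := by
      have e1 : (1 + E) * L = L + E * L := by ring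
      rw [e1]
      linarith
    have h3 : L ^ 3 ≤ p * h := (pow_le_pow_right₀ hL1 (by norm_num)).trans hph
    calc 4 * (C₁ * L) * (1 + d) ≤ 4 * (C₁ * L) * ((1 + E) * L) := by gcongr
      _ = (4 * C₁ * (1 + E)) * L ^ 2 := by ring
      _ < L * L ^ 2 := by
          apply mul_lt_mul_of_pos_right _ (by positivity)
          have : 0 ≤ C₁ * (1 + E) := by positivity
          linarith
      _ = L ^ 3 := by ring
      _ ≤ p * h := h3
  · have h1 : 32 * (8 * E * M + 4 * M + 4 * D * E * M + 4 * D * E + D + 4) / g ≤ L := by linarith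
    rw [div_le_iff₀ hg] at h1
    have hDM : D * M ≤ D * E * M := by
      have := mul_le_mul_of_nonneg_left hE1 (by positivity : 0 ≤ D * M)
      calc D * M = D * M * 1 := by ring
        _ ≤ D * M * E := this
        _ = D * E * M := by ring
    have hpos : 0 ≤ D * E * M := by positivity
    have hpos2 : 0 ≤ E * M := by positivity
    have hpos3 : 0 ≤ D * E := by positivity
    calc 8 * (2 * (a : ℝ) * ((m : ℝ) + b) + 3 * (m : ℝ) * d + ℓ)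
        = 8 * (2 * (a * m) + 2 * (a * b) + 3 * (m * d) + ℓ) := by ring
      _ ≤ 8 * (2 * (D * (M * w)) + 2 * (D * E * w) + 3 * (E * (M * w)) + D * w) := by
          linarith
      _ = w * (32 * (2 * (D * M) + 2 * (D * E) + 3 * (E * M) + D)) / 4 := by ring
      _ ≤ w * (L * g) / 4 := by
          apply div_le_div_of_nonneg_right _ (by norm_num)
          apply mul_le_mul_of_nonneg_left _ hw0.le
          linarith
      _ = g / 4 * (w * L) := by ring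
      _ ≤ g / 4 * h := by gcongr
  · have h1 : 32 * (8 * E * M + 4 * M + 4 * D * E * M + 4 * D * E + D + 4) / g ≤ L := by linarith
    rw [div_le_iff₀ hg] at h1
    have hpos : 0 ≤ D * E * M := by positivity
    have hpos2 : 0 ≤ E * M := by positivity
    have hpos3 : 0 ≤ D * E := by positivity
    calc 8 * (4 * ((b : ℝ) + 1) * m + 3 * (m : ℝ) * d + 4)
        = 8 * (4 * (m * (b + 1)) + 3 * (m * d) + 4 * 1) := by ring
      _ ≤ 8 * (4 * (E * (M * w)) + 3 * (E * (M * w)) + 4 * w) := by linarith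
      _ = w * (32 * (7 * (E * M) + 4)) / 4 := by ring
      _ ≤ w * (L * g) / 4 := by
          apply div_le_div_of_nonneg_right _ (by norm_num)
          apply mul_le_mul_of_nonneg_left _ hw0.le
          linarith
      _ = g / 4 * (w * L) := by ring
      _ ≤ g / 4 * h := by gcongr
  · have h1 : 4 / ξ ≤ L := by
      have : 0 ≤ 800 / g := by positivity
      linarith
    rw [div_le_iff₀ hξ] at h1
    calc (h : ℝ) ≤ 2 * u := hH0
      _ = u * 4 / 2 := by ring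
      _ ≤ u * (L * ξ) / 2 := by gcongr
      _ = ξ * (u * L / 2) := by ring
      _ = ξ * (n / 2) := by rw [← hun]
  · have h1 : 800 / g ≤ L := by
      have : 0 ≤ 4 / ξ := by positivity
      linarith
    rw [div_le_iff₀ hg] at h1
    calc (h : ℝ) ≤ 2 * u := hH0
      _ = u * 800 / 400 := by ring
      _ ≤ u * (L * g) / 400 := by gcongr
      _ = g / 400 * (u * L) := by ring
      _ = g / 400 * n := by rw [← hun]
  · have h1 : 256000 * D ^ 2 * E / g ^ 2 ≤ L := by linarith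
    rw [div_le_iff₀ (by positivity)] at h1
    calc 80 * (ℓ : ℝ) * (C4 * h) * b ≤ 80 * (D * L ^ 2) * ((D * L ^ 5) * h) * (E * L) := by gcongr
      _ = 80 * D ^ 2 * E * (h * L ^ 8) := by ring
      _ ≤ 80 * D ^ 2 * E * (2 * u) := by
          apply mul_le_mul_of_nonneg_left (hHk 8 (by norm_num)) (by positivity)
      _ = u * (256000 * D ^ 2 * E) / 1600 := by ring
      _ ≤ u * (L * g ^ 2) / 1600 := by gcongr
      _ = g / 4 * (g / 400 * (u * L)) := by ring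
      _ ≤ g / 4 * (c2 * n) := by gcongr
  · have h1 : 400 * (20 * D + D + 3) / g ≤ L := by linarith
    rw [div_le_iff₀ hg] at h1
    have h2 : (K : ℝ) ≤ D * u := hK.trans (by gcongr)
    have h3 : 1 ≤ u := hw1.trans hwu
    calc 10 * ((C4 : ℝ) * h) + K + 3 ≤ 10 * (2 * D * u) + D * u + 3 * u := by linarith
      _ = u * (400 * (20 * D + D + 3)) / 400 := by ring
      _ ≤ u * (L * g) / 400 := by gcongr
      _ = g / 400 * (u * L) := by ring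
      _ ≤ c2 * n := hc2n
  · apply key _ (by positivity)
    have h1 : L ^ 3 ≤ L ^ 6 := pow_le_pow_right₀ hL1 (by norm_num)
    calc (10 * ((C4 : ℝ) * h) * b + C3 * h) * (8 * ((D + 1) * L ^ 2))
        ≤ (10 * ((D * L ^ 5) * h) * (E * L) + (D * L ^ 6) * h) * (8 * ((D + 1) * L ^ 2)) := by
          have : (C3 : ℝ) ≤ D * L ^ 6 := hC3.trans (by gcongr)
          gcongr
      _ = (10 * D * E + D) * (8 * (D + 1)) * (h * L ^ 8) := by ring
      _ ≤ (10 * D * E + D) * (8 * (D + 1)) * (2 * u) := by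
          apply mul_le_mul_of_nonneg_left (hHk 8 (by norm_num)) (by positivity)
      _ = u * (16 * (10 * D * E + D) * (D + 1)) := by ring
      _ ≤ u * L := mul_le_mul_of_nonneg_left (by linarith) hu0.le
      _ = n := hun.symm
  · have h1 : 1600000 * (((k₀ : ℝ) * k₀ + 1) * M) / g ^ 2 ≤ L := by linarith
    rw [div_le_iff₀ (by positivity)] at h1
    calc 1000 * (((k₀ : ℝ) * k₀ + 1) * m) ≤ 1000 * (((k₀ : ℝ) * k₀ + 1) * (M * u)) := by
          have : (m : ℝ) ≤ M * u := hm3.trans (by gcongr)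
          gcongr
      _ = u * (1600000 * (((k₀ : ℝ) * k₀ + 1) * M)) / 1600 := by ring
      _ ≤ u * (L * g ^ 2) / 1600 := by gcongr
      _ = g / 4 * (g / 400 * (u * L)) := by ring
      _ = g / 4 * (g / 400 * n) := by rw [← hun]
  · calc (16 : ℝ) * ((ℓ : ℝ) + 1) ≤ 16 * ((D + 1) * L ^ 2) := by gcongr
      _ = (16 * (D + 1)) * L ^ 2 := by ring
      _ ≤ L * L ^ 2 := by
          apply mul_le_mul_of_nonneg_right _ (by positivity)
          have h1 : 16 * (D + 1) ≤ 16 * (D + 1) * (D + 1) :=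
            le_mul_of_one_le_right (by positivity) (by linarith)
          linarith
      _ = L ^ 3 := by ring
  · rw [le_div_iff₀ hKh0] at hJ2
    calc (K : ℝ) * 2 ^ (J - 1) * h = 2 ^ (J - 1) * (K * h) := by ring
      _ ≤ c1 * n := hJ2
  · rw [div_div, div_le_iff₀ (by positivity)] at hJ3
    calc c1 * n / 2 ≤ 2 ^ (J - 1) * ((K : ℝ) * h * 2) / 2 := by gcongr
      _ = (K : ℝ) * 2 ^ (J - 1) * h := by ring

end Pool.Agent.RSP
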