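import Pool.Agent.RSP.Targets

/-!
# PHS: phase 1, with constant chain length
-/

set_option autoImplicit false

open Finset

namespace Pool.Agent.RSP

open Pool.Agent.RST Pool.Agent.RSL

namespace PHS_

/-- the data of the procedure -/
noncomputable def cx {V : Type} (H : SimpleGraph V) (W : Finset V) (g : ℝ)
    (d m b N : ℕ) (par : ℕ → ℕ) (Δ : ℕ) (v₀ : V) (k₀ : ℕ) (E Q : Finset ℕ) (κ : ℕ → ℕ)
    (Vc : ℕ → Finset V) (Sl : ℕ → V → Finset V) (φ : ℕ → V → ℕ → V) : Cx V where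
  H := H
  W := W
  g := g
  d := d
  m := m
  b := b
  t := 1
  N := N
  par := par
  Δ := Δ
  Dm := {0}
  f₀ := fun _ => v₀
  A := Q
  P := pc par E Q
  O := ∅
  gr := κ
  jj := fun _ => 0
  R := Vc
  Sl := Sl
  φ := φ
  B := k₀ * k₀ * m

open Classical in
private lemma pc_sub {par : ℕ → ℕ} {E Q : Finset ℕ} {q x : ℕ} (h : x ∈ pc par E Q q) : x ∈ E := by
  unfold pc at h
  exact (mem_filter.1 h).1

variable {V : Type} [DecidableEq V] {H : SimpleGraph V} {W : Finset V} {g : ℝ}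
  {d m b N : ℕ} {par : ℕ → ℕ} {Δ : ℕ} {v₀ : V} {k₀ : ℕ} {E Q : Finset ℕ} {κ : ℕ → ℕ}
  {Vc : ℕ → Finset V} {Sl : ℕ → V → Finset V} {φ : ℕ → V → ℕ → V}

/-- the budget -/
private lemma budget (h3 : T_PIEC) (hD : Dcp 2 par (range N) E Q) (hC : Col par E Q κ)
    (hk : ∀ x ∈ E, κ x < k₀)
    (hcard : ∀ x ∈ E, (Vc (κ x)).card = (E.filter (fun y => κ y = κ x)).card)
    (hGS : GS H par E Q ∅ κ Vc Sl φ) :
    ∀ c : Cx V, c = cx H W g d m b N par Δ v₀ k₀ E Q κ Vc Sl φ →
    ∀ K ≤ c.N, ∀ (Su : Finset ℕ) (ρ : ℕ → V), (∀ a ∈ Su, a ∈ c.A ∧ c.fs a < K) →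
    (∀ a ∈ Su, ρ a ∈ c.R (c.gr a)) →
    (∀ a ∈ Su, ∀ a' ∈ Su, a ≠ a' → Disjoint (c.Sl (c.gr a) (ρ a)) (c.Sl (c.gr a') (ρ a'))) →
    c.DJ Su ρ K → ∑ a ∈ c.A.filter (fun a => c.fs a < K ∧ a ∉ Su), (c.P a).card ≤ c.B := by
  intro c hc K hK Su ρ hSu hρ hdis hDJ
  obtain ⟨P1, -, P3, -, -, -, P7, P8, -⟩ := h3 par E Q κ k₀ hD.QE hD.up hC hk
  have hA : c.A = Q := by rw [hc]; rfl
  have hP : c.P = pc par E Q := by rw [hc]; rfl
  have hgr : c.gr = κ := by rw [hc]; rfl
  have hR : c.R = Vc := by rw [hc]; rfl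
  have hSl : c.Sl = Sl := by rw [hc]; rfl
  have hjj : ∀ s, c.jj s = 0 := by intro s; rw [hc]; rfl
  have hcm : c.m = m := by rw [hc]; rfl
  have hB : c.B = k₀ * k₀ * m := by rw [hc]; rfl
  have key : ∀ k, (c.Fa k Su K).card ≤ m := by
    intro k
    by_cases hex : ∃ q ∈ Q, κ q = k
    swap
    · have h0 : c.Fa k Su K = ∅ := by
        rw [Finset.eq_empty_iff_forall_notMem]
        intro a ha
        rw [Cx.Fa, mem_filter, hA, hgr] at ha
        exact hex ⟨a, ha.1, ha.2.1⟩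
      rw [h0]
      simp
    obtain ⟨q, hq, hqk⟩ := hex
    have hVc : (Vc k).card = (Q.filter (fun y => κ y = k)).card := by
      have h1 := hcard q (hD.QE hq)
      rw [hqk] at h1
      rw [h1]
      congr 1
      ext y
      simp only [mem_filter]
      constructor
      · rintro ⟨h2, h4⟩
        exact ⟨(hC.root y h2 q (hD.QE hq) (by rw [h4, hqk])).2 hq, h4⟩
      · rintro ⟨h2, h3⟩
        exact ⟨hD.QE h2, h3⟩
    have hcov : Vc k ⊆ c.Po k Su ρ K ∪ (Su.filter (fun a => κ a = k)).image ρ := by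
      intro r hr
      by_contra hcon
      rw [mem_union, not_or] at hcon
      obtain ⟨h1, h2⟩ := hcon
      apply h1
      rw [Cx.Po, mem_filter, hR]
      refine ⟨hr, ?_⟩
      rw [hSl, Cx.Oc, Finset.disjoint_biUnion_right]
      intro a ha
      rw [mem_filter] at ha
      obtain ⟨haSu, hafs⟩ := ha
      have haQ : a ∈ Q := by have := (hSu a haSu).1; rwa [hA] at this
      have h3 : ρ a ∈ Vc (κ a) := by
        have := hρ a haSu
        rwa [hgr, hR] at this
      rw [hgr, hSl, ← hqk]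
      refine hGS.sdis q hq a haQ r (by rw [hqk]; exact hr) (ρ a) h3 ?_
      intro he
      rw [Prod.mk.injEq] at he
      exact h2 (mem_image.2 ⟨a, mem_filter.2 ⟨haSu, by rw [← he.1, hqk]⟩, he.2.symm⟩)
    have hc1 : (Vc k).card ≤ (c.Po k Su ρ K).card + (Su.filter (fun a => κ a = k)).card :=
      (card_le_card hcov).trans ((card_union_le _ _).trans (by
        gcongr
        exact card_image_le))
    have hc2 : (c.Fa k Su K).card + (Su.filter (fun a => κ a = k)).card ≤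
        (Q.filter (fun y => κ y = k)).card := by
      rw [← card_union_of_disjoint]
      · apply card_le_card
        intro a ha
        rw [mem_union] at ha
        rcases ha with ha | ha
        · rw [Cx.Fa, mem_filter, hA, hgr] at ha
          exact mem_filter.2 ⟨ha.1, ha.2.1⟩
        · have h1 := mem_filter.1 ha
          have h2 := (hSu a h1.1).1
          rw [hA] at h2
          exact mem_filter.2 ⟨h2, h1.2⟩
      · rw [Finset.disjoint_left]
        intro a ha ha'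
        rw [Cx.Fa, mem_filter] at ha
        exact ha.2.2.2 (mem_filter.1 ha').1
    have h1 := hDJ K le_rfl k
    rw [hcm, hjj, pow_zero, mul_one, mul_one] at h1
    omega
  have hsplit : c.A.filter (fun a => c.fs a < K ∧ a ∉ Su) ⊆
      (range k₀).biUnion (fun k => c.Fa k Su K) := by
    intro a ha
    rw [mem_filter] at ha
    rw [mem_biUnion]
    have haQ := ha.1
    rw [hA] at haQ
    refine ⟨κ a, mem_range.2 (hk a (hD.QE haQ)), ?_⟩
    rw [Cx.Fa, mem_filter]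
    exact ⟨ha.1, by rw [hgr], ha.2.1, ha.2.2⟩
  have h1 : ∀ a ∈ (range k₀).biUnion (fun k => c.Fa k Su K), (c.P a).card ≤ k₀ := by
    intro a ha
    rw [mem_biUnion] at ha
    obtain ⟨k, hk, ha⟩ := ha
    rw [Cx.Fa, mem_filter, hA] at ha
    rw [hP]
    exact P7 a ha.1
  have h2 : ((range k₀).biUnion (fun k => c.Fa k Su K)).card ≤ k₀ * m := by
    refine card_biUnion_le.trans ?_
    calc ∑ k ∈ range k₀, (c.Fa k Su K).card ≤ ∑ k ∈ range k₀, m :=
          sum_le_sum fun k _ => key k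
      _ = k₀ * m := by simp
  calc ∑ a ∈ c.A.filter (fun a => c.fs a < K ∧ a ∉ Su), (c.P a).card
      ≤ ∑ a ∈ (range k₀).biUnion (fun k => c.Fa k Su K), (c.P a).card :=
        sum_le_sum_of_subset hsplit
    _ ≤ ((range k₀).biUnion (fun k => c.Fa k Su K)).card * k₀ := by
        rw [← smul_eq_mul]
        exact sum_le_card_nsmul _ _ _ h1
    _ ≤ (k₀ * m) * k₀ := by gcongr
    _ = c.B := by rw [hB]; ring

/-- the data are valid -/
private lemma valid (h3 : T_PIEC) (hWS : WS H W g d m b) (hOK : OK H W d m ∅ ∅)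
    (hVT : VT N par) (hBD : BD N par Δ) (hbd : b + Δ + 2 ≤ d) (hN : 1 ≤ N)
    (hD : Dcp 2 par (range N) E Q) (hC : Col par E Q κ)
    (hk : ∀ x ∈ E, κ x < k₀)
    (hcard : ∀ x ∈ E, (Vc (κ x)).card = (E.filter (fun y => κ y = κ x)).card)
    (hVc : ∀ k, Disjoint (Vc k) W ∧ v₀ ∉ Vc k) (hv₀ : v₀ ∉ W)
    (hB2 : 4 * (((range N \ E).card : ℝ) + k₀ * k₀ * m) ≤ g * (W.card : ℝ))
    (hGS : GS H par E Q ∅ κ Vc Sl φ) :
    Vd (cx H W g d m b N par Δ v₀ k₀ E Q κ Vc Sl φ) := by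
  obtain ⟨p1, p2, p3, p4, p5, p6, p7, p8, p9⟩ := h3 par E Q κ k₀ hD.QE hD.up hC hk
  have hbud := budget (W := W) (g := g) (d := d) (m := m) (b := b) (N := N) (Δ := Δ) (v₀ := v₀)
    h3 hD hC hk hcard hGS (cx H W g d m b N par Δ v₀ k₀ E Q κ Vc Sl φ) rfl
  set c := cx H W g d m b N par Δ v₀ k₀ E Q κ Vc Sl φ with hc
  have hD2 : ∀ a, c.D a = 2 := fun a => rfl
  have hQpos : ∀ q ∈ Q, ∀ j < 2, 0 < par^[j] q := fun q hq j hj =>
    (Nat.zero_le _).trans_lt (hD.pos q hq j hj)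
  have hsd : ∀ a, c.P a \ c.O = pc par E Q a \ ∅ := fun a => rfl
  have hSlot : ∀ q ∈ Q, ∀ r ∈ Vc (κ q), ∀ v ∈ Sl (κ q) r, ∃ k, v ∈ Vc k := by
    intro q hq r hr v hv
    rw [← hGS.im q hq r hr] at hv
    obtain ⟨x, hx, rfl⟩ := mem_image.1 hv
    exact ⟨_, hGS.mem q hq r hr x hx⟩
  refine
    { ws := hWS, ok0 := hOK, bd := hbd, vt := hVT, bdd := hBD, t0 := Nat.one_pos, tN := hN,
      DmS := ?_, DmP := ?_, f0i := ?_, f0W := ?_, mem := ?_, conn := ?_, disj := ?_, leaf := ?_,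
      own := ?_, st := ?_, chn := ?_, exc := ?_, jb := ?_, sr := ?_, si := ?_, sim := ?_,
      sadj := ?_, sW := ?_, s0 := ?_, bud := ?_, bud2 := ?_ }
  · intro x hx
    have : x = 0 := mem_singleton.1 hx
    rw [this]
    exact mem_range.2 Nat.one_pos
  · intro x _ _ hx
    exact mem_singleton.2 (Nat.lt_one_iff.1 hx)
  · intro x hx y hy _
    have e1 : x = 0 := mem_singleton.1 hx
    have e2 : y = 0 := mem_singleton.1 hy
    rw [e1, e2]
  · intro x _
    exact hv₀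
  · intro q hq
    refine ⟨p1 q hq, fun x hx => ?_⟩
    refine mem_Ico.2 ⟨?_, mem_range.1 (hD.EC (pc_sub hx))⟩
    by_cases hxa : x = q
    · rw [hxa]
      exact hQpos q hq 0 (by norm_num)
    · obtain ⟨h3, h4⟩ := p2 q hq x hx hxa
      exact Nat.one_le_iff_ne_zero.2
        (Nat.pos_iff_ne_zero.1 ((Nat.zero_le _).trans_lt (hD.up x (pc_sub hx) h3).1))
  · intro a ha x hx hxa
    exact (p2 a ha x hx hxa).2
  · intro a ha a' ha' hne
    exact p4 a ha a' ha' hne
  · intro x hx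
    exact absurd hx (notMem_empty _)
  · intro x hx
    exact absurd hx (notMem_empty _)
  · intro a ha j hj
    exact hQpos a ha j hj
  · intro a ha a' ha' j j1 j2 hmem
    exact (mem_sdiff.1 (hD.chain a ha j j1 j2)).2 (pc_sub hmem)
  · intro a ha a' ha' j j' j1 j2 j1' j2' he
    exact hD.excl a ha a' ha' j j' j1 j2 j1' j2' he
  · intro a ha
    have hb1 : 1 ≤ b := hWS.b2.trans' (by norm_num)
    exact Nat.mul_pos hb1 hWS.m1
  · intro a ha r hr
    exact hGS.root a ha r hr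
  · intro a ha r hr
    rw [hsd]
    exact hGS.inj a ha r hr
  · intro a ha r hr
    rw [hsd]
    exact hGS.im a ha r hr
  · intro a ha r hr x hx hxa
    rw [hsd] at hx
    exact hGS.adj a ha r hr x hx hxa
  · intro a ha r hr
    rw [disjoint_left]
    intro v hv hvW
    obtain ⟨k, hk⟩ := hSlot a ha r hr v hv
    exact disjoint_left.1 (hVc k).1 hk hvW
  · intro a ha r hr x _ hv
    obtain ⟨k, hk⟩ := hSlot a ha r hr _ hv
    exact (hVc k).2 hk
  · exact hbud
  · have hsub : Ico c.t c.N \ c.A.biUnion c.P ⊆ range N \ E := by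
      intro x hx
      obtain ⟨h3, h4⟩ := mem_sdiff.1 hx
      refine mem_sdiff.2 ⟨mem_range.2 (mem_Ico.1 h3).2, fun hE => h4 ?_⟩
      rw [p5] at hE
      exact hE
    have h5 : ((Ico c.t c.N \ c.A.biUnion c.P).card : ℝ) ≤ (range N \ E).card := by
      exact_mod_cast card_le_card hsub
    have h6 : (c.B : ℝ) = k₀ * k₀ * m := by
      have : c.B = k₀ * k₀ * m := rfl
      rw [this]
      push_cast
      ring
    have h7 : c.g = g := rfl
    have h8 : c.W = W := rfl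
    rw [h6, h7, h8]
    linarith

end PHS_

theorem pPHS (h1 : T_MATL) (h2 : T_SLOT) (h3 : T_PIEC) (h4 : T_PF) : T_PHS := by
  intro V _ _ H W g gw η p Ku d m b hp hg hη hη2 hKu hUU hWS hOK N par Δ v₀ k₀ E Q κ Vc hVT hBD hbd
    hN hD hC hk hdis hcl hVc hv₀ hB2
  obtain ⟨Mt, hMt⟩ := h1 V H g η p Ku par E Q κ Vc hp hg hη hη2 hKu hUU hD.up hC hcl
  have e0 : E \ (∅ : Finset ℕ) = E := sdiff_empty
  obtain ⟨Sl, φ, hGS⟩ := h2 V H par E Q ∅ κ k₀ Vc Mt hD.QE hD.up hC hk
    (fun x hx => absurd hx (notMem_empty _)) (fun x hx => absurd hx (notMem_empty _))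
    (fun x _ _ => notMem_empty _) hdis
    (fun x hx => by rw [e0] at hx ⊢; exact (hcl x hx).1)
    (fun x hx hq => by rw [e0] at hx; exact hMt x hx hq)
  have hV := PHS_.valid h3 hWS hOK hVT hBD hbd hN hD hC hk (fun x hx => (hcl x hx).1) hVc hv₀
    hB2 hGS
  obtain ⟨f, Su, ρ, J, F, hP, -⟩ := h4 V _ hV
  have hdom : ∀ i < N, i ∈ (PHS_.cx H W gw d m b N par Δ v₀ k₀ E Q κ Vc Sl φ).Dom Su N := by
    intro i hi
    rw [Cx.Dom, mem_sdiff]
    constructor
    · rw [mem_union, mem_union]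
      left
      rcases Nat.eq_zero_or_pos i with rfl | hi0
      · left
        exact mem_singleton_self 0
      · right
        exact mem_Ico.2 ⟨hi0, hi⟩
    · rw [mem_biUnion]
      rintro ⟨a, _, ha⟩
      exact absurd (mem_inter.1 ha).2 (notMem_empty _)
  refine ⟨f, ⟨?_, ?_⟩, ?_⟩
  · intro x hx y hy hxy
    exact hP.inj (hdom x (mem_range.1 hx)) (hdom y (mem_range.1 hy)) hxy
  · intro i hi0 hi
    exact hP.adj i (hdom i hi) hi0
  · intro i hi
    rcases Nat.eq_zero_or_pos i with rfl | hi0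
    · left
      exact hP.ini 0 (mem_singleton_self 0)
    · right
      by_cases hS : ∃ a ∈ Su, i ∈ pc par E Q a
      · right
        obtain ⟨a, ha, hia⟩ := hS
        have haQ : a ∈ Q := (hP.su a ha).1
        have h5 : i ∈ pc par E Q a \ (∅ : Finset ℕ) := by rw [sdiff_empty]; exact hia
        have h6 := hP.emb a ha i h5
        have h7 := hGS.mem a haQ (ρ a) (hP.rho a ha) i h5
        refine ⟨κ i, hk i (PHS_.pc_sub hia), ?_⟩
        rw [h6]
        exact h7
      · left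
        apply hP.ok.sub
        rw [hP.us]
        refine mem_image_of_mem _ ?_
        rw [Cx.Wd, mem_sdiff, mem_union]
        refine ⟨Or.inl (mem_Ico.2 ⟨hi0, hi⟩), fun h => hS ?_⟩
        obtain ⟨a, ha, hia⟩ := mem_biUnion.1 h
        exact ⟨a, ha, hia⟩

end Pool.Agent.RSP
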