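import Pool.Agent.RSP.Targets

set_option autoImplicit false

/-!
# RARE: removal of the pieces of rare types
-/

open Finset

namespace Pool.Agent.RSP

open Pool.Agent.RST Pool.Agent.RSL

namespace RARE_

/-- few elements have a rare colour -/
theorem rare (Q : Finset ℕ) (κ : ℕ → ℕ) (k τ : ℕ) (hk : ∀ q ∈ Q, κ q < k) :
    (Q.filter (fun q => (Q.filter (fun q' => κ q' = κ q)).card < τ)).card ≤ k * τ := by
  classical
  set B := Q.filter (fun q => (Q.filter (fun q' => κ q' = κ q)).card < τ) with hB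
  have hmap : ∀ q ∈ B, κ q ∈ range k := by
    intro q hq
    exact mem_range.2 (hk q (mem_filter.1 hq).1)
  have h1 := card_eq_sum_card_fiberwise (f := κ) (s := B) (t := range k) (by
    intro q hq
    exact hmap q hq)
  rw [h1]
  calc ∑ c ∈ range k, (B.filter (fun q => κ q = c)).card
      ≤ ∑ _c ∈ range k, τ := by
        refine sum_le_sum (fun c _ => ?_)
        rcases (B.filter (fun q => κ q = c)).eq_empty_or_nonempty with h0 | ⟨q, hq⟩
        · rw [h0, card_empty]
          exact Nat.zero_le _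
        · obtain ⟨hqB, hqc⟩ := mem_filter.1 hq
          have h2 := (mem_filter.1 hqB).2
          refine le_trans (card_le_card ?_) h2.le
          intro y hy
          obtain ⟨hyB, hyc⟩ := mem_filter.1 hy
          exact mem_filter.2 ⟨(mem_filter.1 hyB).1, by rw [hyc, hqc]⟩
    _ = k * τ := by rw [sum_const, card_range, smul_eq_mul]

end RARE_

open RARE_ in
theorem pRARE (h1 : T_PIEC) (h2 : T_DISS) : T_RARE := by
  intro n par E₀ Q₀ κ k₁ τ hD hC hk
  classical
  set Bad := Q₀.filter (fun q => (Q₀.filter (fun q' => κ q' = κ q)).card < τ) with hBad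
  have hB0 : Bad ⊆ Q₀ := filter_subset _ _
  have hBc : Bad.card ≤ k₁ * τ := rare Q₀ κ k₁ τ (fun q hq => hk q (hD.QE hq))
  obtain ⟨dD, dC, dE, -, dcard, -⟩ := h2 n par E₀ Q₀ Bad
    ((Q₀ \ Bad).biUnion (pc par E₀ Q₀)) (Q₀ \ Bad) κ k₁ hD hC hk hB0 rfl rfl
  refine ⟨(Q₀ \ Bad).biUnion (pc par E₀ Q₀), Q₀ \ Bad, dE, dD, dC, ?_, ?_⟩
  · refine le_trans dcard ?_
    rw [mul_assoc]
    exact Nat.mul_le_mul_left _ hBc
  · intro x hx
    set E := (Q₀ \ Bad).biUnion (pc par E₀ Q₀) with hE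
    obtain ⟨-, -, -, -, p5, -, -, -, p9⟩ := h1 par E (Q₀ \ Bad) κ k₁ dD.QE dD.up dC
      (fun y hy => hk y (dE hy))
    have hx' := hx
    rw [p5] at hx'
    obtain ⟨q, hq, hxq⟩ := mem_biUnion.1 hx'
    rw [p9 q hq x hxq]
    obtain ⟨hq0, hqB⟩ := mem_sdiff.1 hq
    have hge : τ ≤ (Q₀.filter (fun q' => κ q' = κ q)).card := by
      by_contra hlt
      exact hqB (mem_filter.2 ⟨hq0, not_le.1 hlt⟩)
    refine le_trans hge (card_le_card ?_)
    intro q' hq'
    obtain ⟨hq'0, hq'c⟩ := mem_filter.1 hq'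
    refine mem_filter.2 ⟨mem_sdiff.2 ⟨hq'0, fun hb => ?_⟩, hq'c⟩
    have h3 := (mem_filter.1 hb).2
    rw [hq'c] at h3
    exact absurd hge (not_le.2 h3)

end Pool.Agent.RSP
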