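import Pool.Agent.RSP.Targets
import Pool.Agent.RST.TPL

/-!
# TPLP: robustly matchable bipartite templates of logarithmic degree
-/

set_option autoImplicit false

open Finset Filter Topology

namespace Pool.Agent.RSP

open Pool.Agent.RST Pool.Agent.RSL

namespace TPLP_

theorem ev_log {C : ℝ} (hC : 0 < C) : ∀ᶠ n : ℕ in atTop,
    C * Real.log n / n ≤ 1 ∧ (24 : ℝ) ≤ n := by
  have h1 := (Real.isLittleO_log_id_atTop).bound (by positivity : (0 : ℝ) < 1 / C)
  have h3 := (tendsto_natCast_atTop_atTop (R := ℝ)).eventually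
    (h1.and (eventually_ge_atTop 24))
  filter_upwards [h3] with n hn
  obtain ⟨h4, h6⟩ := hn
  refine ⟨?_, h6⟩
  have hn0 : (0 : ℝ) < n := by linarith
  rw [Real.norm_eq_abs, Real.norm_eq_abs, id, abs_of_nonneg hn0.le] at h4
  have h5 := (le_abs_self _).trans h4
  rw [div_le_one hn0]
  calc C * Real.log n ≤ C * (1 / C * n) := mul_le_mul_of_nonneg_left h5 hC.le
    _ = n := by field_simp

/-- the numerical conditions -/
theorem nums {C : ℝ} (hC : 30000 ≤ C) {n z' z : ℕ} (hn : n = 19 * z' + z)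
    (hz : z' ≤ z) (hz2 : z ≤ 2 * z') (h3 : (24 : ℝ) ≤ n) (h4 : 20 ≤ z) (q : ℝ)
    (hq : q = C * Real.log n / n) :
    0 < q ∧
    (n : ℝ) * 3 * ((n : ℝ) + 1) ^ 3 *
      Real.exp (-((1 / 10) ^ 2 * z' * ((1 - 1 / 10) * q * n) / (2 * n))) < 1 ∧
    8 * (12 / (1 / 10) * Real.log n) ≤ 1 / 5 * q * (10 * z') ∧
    (1 + 1 / 10) * q * n ≤ 11 / 5 * C * Real.log z := by
  have hn0 : (0 : ℝ) < n := by linarith
  have hl : 0 < Real.log n := Real.log_pos (by linarith)
  have hq0 : 0 < q := by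
    rw [hq]
    have : 0 < C := by linarith
    positivity
  have hqn : q * n = C * Real.log n := by
    rw [hq]
    field_simp
  have hnr : (n : ℝ) = 19 * z' + z := by rw [hn]; push_cast; ring
  have hzr : (z' : ℝ) ≤ z := by exact_mod_cast hz
  have hzr2 : (z : ℝ) ≤ 2 * z' := by exact_mod_cast hz2
  have hz21 : (n : ℝ) ≤ 21 * z' := by linarith
  have hqz : C * Real.log n ≤ 21 * (q * z') := by
    rw [← hqn]
    nlinarith
  have hCl : 30000 * Real.log n ≤ C * Real.log n := mul_le_mul_of_nonneg_right hC hl.le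
  refine ⟨hq0, ?_, ?_, ?_⟩
  · have e1 : (1 / 10) ^ 2 * (z' : ℝ) * ((1 - 1 / 10) * q * n) / (2 * n) =
        9 / 2000 * (q * z') := by
      field_simp
      ring
    rw [e1]
    have e2 : (n : ℝ) * 3 * ((n : ℝ) + 1) ^ 3 ≤ (n : ℝ) ^ 5 := by
      have : (n : ℝ) + 1 ≤ 2 * n := by linarith
      calc (n : ℝ) * 3 * ((n : ℝ) + 1) ^ 3 ≤ (n : ℝ) * 3 * (2 * n) ^ 3 := by gcongr
        _ = 24 * (n : ℝ) ^ 4 := by ring
        _ ≤ n * (n : ℝ) ^ 4 := by gcongr
        _ = (n : ℝ) ^ 5 := by ring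
    have e3 : (n : ℝ) ^ 5 = Real.exp (5 * Real.log n) := by
      rw [mul_comm, Real.exp_mul, Real.exp_log hn0]
      norm_cast
    calc (n : ℝ) * 3 * ((n : ℝ) + 1) ^ 3 * Real.exp (-(9 / 2000 * (q * z')))
        ≤ (n : ℝ) ^ 5 * Real.exp (-(9 / 2000 * (q * z'))) :=
          mul_le_mul_of_nonneg_right e2 (Real.exp_pos _).le
      _ = Real.exp (5 * Real.log n + -(9 / 2000 * (q * z'))) := by rw [e3, Real.exp_add]
      _ < 1 := by
        rw [Real.exp_lt_one_iff]
        nlinarith
  · linarith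
  · have e1 : (1 + 1 / 10) * q * n = 11 / 10 * (C * Real.log n) := by
      rw [← hqn]; ring
    have hz0 : (20 : ℝ) ≤ z := by exact_mod_cast h4
    have e2 : Real.log n ≤ 2 * Real.log z := by
      have h5 : (n : ℝ) ≤ z * z := by nlinarith
      calc Real.log n ≤ Real.log ((z : ℝ) * z) := Real.log_le_log hn0 h5
        _ = 2 * Real.log z := by
          rw [Real.log_mul (by linarith) (by linarith)]
          ring
    rw [e1]
    have : C * Real.log n ≤ C * (2 * Real.log z) :=
      mul_le_mul_of_nonneg_left e2 (by linarith)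
    linarith

end TPLP_

open TPLP_ in
open Classical in
/-- TPLP -/
theorem pTPLP (h1 : T_GNPL) (h2 : T_RPART) (h3 : T_PM) : T_TPLP := by
  obtain ⟨C', hC', hg0⟩ := h1 (1 / 10) (by norm_num) (by norm_num)
  set C : ℝ := max C' 30000 with hC
  have hCC : C' ≤ C := le_max_left _ _
  have hC3 : 30000 ≤ C := le_max_right _ _
  have hCp : 0 < C := by linarith
  have hge : ∀ᶠ n : ℕ in atTop, min 1 (C * Real.log n / n) = C * Real.log n / n := by
    filter_upwards [ev_log hCp] with n hn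
    exact min_eq_right hn.1
  have hg := hg0 (fun n => min 1 (C * Real.log n / n))
    (fun n => by
      refine ⟨le_min (by norm_num) ?_, min_le_left _ _⟩
      have : 0 ≤ Real.log n := Real.log_natCast_nonneg n
      positivity)
    (by
      filter_upwards [hge] with n hn
      rw [hn]
      have : 0 ≤ Real.log n := Real.log_natCast_nonneg n
      gcongr)
  have hev := hg.eventually (lt_mem_nhds (by norm_num : (1 / 2 : ℝ) < 1))
  have hex : ∀ᶠ n : ℕ in atTop, ∃ G : SimpleGraph (Fin n),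
      Good G (1 / 10) (C * Real.log n / n) := by
    filter_upwards [hev, hge] with n hn hn2
    simp only [hn2] at hn
    by_contra hcon
    push Not at hcon
    have : (∑ᶠ G : SimpleGraph (Fin n), if Good G (1 / 10) (C * Real.log n / n) then
        wG (C * Real.log n / n) G else 0) = 0 := by
      apply finsum_eq_zero_of_forall_eq_zero
      intro G
      rw [if_neg (hcon G)]
    rw [this] at hn
    norm_num at hn
  obtain ⟨n1, hn1⟩ := eventually_atTop.1 (hex.and (ev_log hCp))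
  refine ⟨11 / 5 * C, max n1 20, by positivity, fun z' z hz' hz hz2 => ?_⟩
  have hz1 : 20 ≤ z' := le_trans (le_max_right _ _) hz'
  have hz2' : n1 ≤ z' := le_trans (le_max_left _ _) hz'
  obtain ⟨⟨G, hG⟩, e1, e2⟩ := hn1 (19 * z' + z) (by omega)
  obtain ⟨d1, d2, d3, d4⟩ := nums hC3 rfl hz hz2 e2 (by omega) _ rfl
  exact TPL_.comb h2 h3 rfl (by omega) G _ (11 / 5 * C * Real.log z) d1 hG.1 hG.2 d2 d3 d4

end Pool.Agent.RSP
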