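import Pool.Agent.RSP.Targets

/-!
# TREEP: the structure of a tree with at least `n / r` leaves
-/

set_option autoImplicit false

open Finset

namespace Pool.Agent.RSP

open Pool.Agent.RST Pool.Agent.RSL

namespace TREEP_

theorem it_le {par : ℕ → ℕ} {E Q : Finset ℕ} (hup : ∀ x ∈ E, x ∉ Q → par x < x ∧ par x ∈ E)
    (x : ℕ) : ∀ j : ℕ, (∀ i < j, par^[i] x ∈ E ∧ par^[i] x ∉ Q) → par^[j] x ≤ x := by
  intro j
  induction j with
  | zero => intro _; exact le_rfl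
  | succ j ih =>
    intro h
    have h1 := ih fun i hi => h i (by omega)
    have h2 := h j (by omega)
    have h3 := (hup _ h2.1 h2.2).1
    rw [Function.iterate_succ_apply']
    omega

theorem le_of_pc {par : ℕ → ℕ} {E Q : Finset ℕ} {q x : ℕ}
    (hup : ∀ x ∈ E, x ∉ Q → par x < x ∧ par x ∈ E) (hx : x ∈ pc par E Q q) : q ≤ x := by
  classical
  unfold pc at hx
  rw [mem_filter] at hx
  obtain ⟨-, j, hj, hi⟩ := hx
  rw [← hj]
  exact it_le hup x j hi

/-- the vertices of the special chains and leaves -/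
noncomputable def SS (par : ℕ → ℕ) (I : ℕ) (S : ℕ → Finset ℕ) (lf : ℕ → ℕ) : Finset ℕ :=
  (Icc 1 I).biUnion fun i => (S i).biUnion fun a =>
    ((range (2 * i + 3)).image fun j => par^[j] a) ∪ {lf a}

theorem card_SS (par : ℕ → ℕ) (I : ℕ) (S : ℕ → Finset ℕ) (lf : ℕ → ℕ) :
    (SS par I S lf).card ≤ ∑ i ∈ Icc 1 I, (2 * i + 4) * (S i).card := by
  unfold SS
  refine card_biUnion_le.trans (sum_le_sum fun i _ => ?_)
  refine card_biUnion_le.trans ?_
  have h : ∀ a ∈ S i, (((range (2 * i + 3)).image fun j => par^[j] a) ∪ {lf a}).card ≤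
      2 * i + 4 := by
    intro a _
    refine (card_union_le _ _).trans ?_
    have h1 : ((range (2 * i + 3)).image fun j => par^[j] a).card ≤ 2 * i + 3 := by
      refine card_image_le.trans ?_
      rw [card_range]
    rw [card_singleton]
    omega
  refine (sum_le_sum h).trans ?_
  rw [sum_const, smul_eq_mul, mul_comm]

theorem chain_mem {par : ℕ → ℕ} {I : ℕ} {S : ℕ → Finset ℕ} {lf : ℕ → ℕ} {i a j : ℕ}
    (h1 : 1 ≤ i) (hI : i ≤ I) (ha : a ∈ S i) (hj : j ≤ 2 * i + 2) :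
    par^[j] a ∈ SS par I S lf := by
  unfold SS
  rw [mem_biUnion]
  refine ⟨i, mem_Icc.2 ⟨h1, hI⟩, mem_biUnion.2 ⟨a, ha, mem_union_left _ (mem_image.2
    ⟨j, mem_range.2 (by omega), rfl⟩)⟩⟩

theorem lf_mem {par : ℕ → ℕ} {I : ℕ} {S : ℕ → Finset ℕ} {lf : ℕ → ℕ} {i a : ℕ}
    (h1 : 1 ≤ i) (hI : i ≤ I) (ha : a ∈ S i) : lf a ∈ SS par I S lf := by
  unfold SS
  rw [mem_biUnion]
  exact ⟨i, mem_Icc.2 ⟨h1, hI⟩, mem_biUnion.2 ⟨a, ha, mem_union_right _ (mem_singleton_self _)⟩⟩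

theorem lp_le (n : ℕ) (par : ℕ → ℕ) : (lp n par).card ≤ (lv n par).card := by
  classical
  have hc : ∀ y ∈ lp n par, ∃ x, x ∈ lv n par ∧ par x = y := by
    intro y hy
    unfold RSL.lp at hy
    rw [mem_filter] at hy
    obtain ⟨-, x, hx, hx'⟩ := hy
    unfold chd at hx
    rw [mem_filter] at hx
    refine ⟨x, ?_, hx.2.2⟩
    unfold lv
    rw [mem_filter]
    exact ⟨hx.1, hx'⟩
  choose! g hg using hc
  refine card_le_card_of_injOn g (fun y hy => (hg y hy).1) ?_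
  intro y hy y' hy' he
  have h1 := (hg y hy).2
  have h2 := (hg y' hy').2
  have he' : g y = g y' := he
  rw [← h1, ← h2, he']

theorem le_lp {n Δ : ℕ} {par : ℕ → ℕ} (hn : 2 ≤ n) (hV : VT n par) (hB : BD n par Δ) :
    (lv n par).card ≤ Δ * (lp n par).card := by
  classical
  have h1 : lv n par ⊆ (lp n par).biUnion (fun y => chd n par y) := by
    intro x hx
    unfold lv at hx
    rw [mem_filter, mem_range] at hx
    have hx0 : 0 < x := by
      rcases Nat.eq_zero_or_pos x with rfl | h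
      · exfalso
        have h1 : (1 : ℕ) ∈ chd n par 0 := by
          unfold chd
          rw [mem_filter, mem_range]
          have := hV 1 (by norm_num) (by omega)
          exact ⟨by omega, by norm_num, by omega⟩
        rw [hx.2] at h1
        exact absurd h1 (notMem_empty _)
      · exact h
    have hxc : x ∈ chd n par (par x) := by
      unfold chd
      rw [mem_filter, mem_range]
      exact ⟨hx.1, hx0, rfl⟩
    rw [mem_biUnion]
    refine ⟨par x, ?_, hxc⟩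
    unfold RSL.lp
    rw [mem_filter, mem_range]
    have := hV x hx0 hx.1
    exact ⟨by omega, x, hxc, hx.2⟩
  refine (card_le_card h1).trans (card_biUnion_le.trans ?_)
  refine (sum_le_sum fun y _ => hB y).trans ?_
  rw [sum_const, smul_eq_mul, mul_comm]

/-- numerical facts -/
theorem num1 {e k b D r n m l p : ℝ} (he : 0 < e) (hk : 1 ≤ k) (hb : 1 ≤ b) (hD : 1 ≤ D)
    (hr : 1 ≤ r) (hm : 0 ≤ m)
    (h1 : 1024 * b * (D + 1) ^ 6 * D ^ 2 * r ≤ e * k) (h2 : k ^ 3 * m ≤ n) (h3 : n ≤ r * l)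
    (h4 : l ≤ D * p) : (k + 3) * b * m * (D + 1) ^ 6 ≤ e / (4 * k) * p := by
  have hk0 : 0 < k := by linarith
  have hr0 : 0 < r := by linarith
  have hD0 : 0 < D := by linarith
  have hP : 0 < (D + 1) ^ 6 := by positivity
  have hb0 : 0 < b := by linarith
  -- 16 k² b m P D r ≤ e r D p
  have e1 : 16 * k ^ 2 * b * m * (D + 1) ^ 6 * D * r ≤ e * (r * (D * p)) := by
    have a1 : 16 * b * (D + 1) ^ 6 * D * r ≤ e * k := by
      have : 16 * b * (D + 1) ^ 6 * D * r ≤ 1024 * b * (D + 1) ^ 6 * D ^ 2 * r := by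
        have e0 : 1024 * b * (D + 1) ^ 6 * D ^ 2 * r = (16 * b * (D + 1) ^ 6 * D * r) * (64 * D) := by
          ring
        rw [e0]
        have : 0 ≤ 16 * b * (D + 1) ^ 6 * D * r := by positivity
        exact le_mul_of_one_le_right this (by linarith)
      linarith
    have a2 : 16 * k ^ 2 * b * m * (D + 1) ^ 6 * D * r =
        (k ^ 2 * m) * (16 * b * (D + 1) ^ 6 * D * r) := by ring
    have a3 : (k ^ 2 * m) * (16 * b * (D + 1) ^ 6 * D * r) ≤ (k ^ 2 * m) * (e * k) :=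
      mul_le_mul_of_nonneg_left a1 (by positivity)
    have a4 : (k ^ 2 * m) * (e * k) = e * (k ^ 3 * m) := by ring
    have a5 : k ^ 3 * m ≤ r * (D * p) :=
      h2.trans (h3.trans (mul_le_mul_of_nonneg_left h4 hr0.le))
    rw [a2]
    refine a3.trans ?_
    rw [a4]
    exact mul_le_mul_of_nonneg_left a5 he.le
  have e2 : 16 * k ^ 2 * b * m * (D + 1) ^ 6 ≤ e * p := by
    have a1 : (16 * k ^ 2 * b * m * (D + 1) ^ 6) * (D * r) ≤ (e * p) * (D * r) := by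
      have : e * (r * (D * p)) = (e * p) * (D * r) := by ring
      linarith [e1]
    exact le_of_mul_le_mul_right a1 (by positivity)
  have e3 : (k + 3) * b * m * (D + 1) ^ 6 ≤ 4 * k * b * m * (D + 1) ^ 6 := by
    have : 0 ≤ b * m * (D + 1) ^ 6 := by positivity
    have a1 : (k + 3) * (b * m * (D + 1) ^ 6) ≤ (4 * k) * (b * m * (D + 1) ^ 6) :=
      mul_le_mul_of_nonneg_right (by linarith) this
    calc (k + 3) * b * m * (D + 1) ^ 6 = (k + 3) * (b * m * (D + 1) ^ 6) := by ring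
      _ ≤ (4 * k) * (b * m * (D + 1) ^ 6) := a1
      _ = _ := by ring
  refine e3.trans ?_
  rw [div_mul_eq_mul_div, le_div_iff₀ (by positivity)]
  calc 4 * k * b * m * (D + 1) ^ 6 * (4 * k) = 16 * k ^ 2 * b * m * (D + 1) ^ 6 := by ring
    _ ≤ e * p := e2

theorem num2 {e k D r n s L l p : ℝ} (he : 0 < e) (hk : 1 ≤ k) (hD : 1 ≤ D)
    (hr : 1 ≤ r) (hL : 1 ≤ L) (hs : 0 ≤ s) (hsn : s * s = n)
    (h1 : 1024 * D ^ 2 * r ≤ e * k) (h2 : k ^ 3 * L ≤ s) (h3 : n ≤ r * l)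
    (h4 : l ≤ D * p) : 8 * D * s ≤ e / (4 * k) * p := by
  have hk0 : 0 < k := by linarith
  have hr0 : 0 < r := by linarith
  have hD0 : 0 < D := by linarith
  have a0 : k ^ 2 ≤ s := by
    have : k ^ 2 * 1 ≤ k ^ 2 * (k * L) :=
      mul_le_mul_of_nonneg_left (by nlinarith) (by positivity)
    calc k ^ 2 = k ^ 2 * 1 := by ring
      _ ≤ k ^ 2 * (k * L) := this
      _ = k ^ 3 * L := by ring
      _ ≤ s := h2
  -- 32 D² k r ≤ e s
  have a1 : 32 * D ^ 2 * k * r ≤ e * s := by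
    have b1 : 32 * D ^ 2 * r ≤ e * k := by
      have : 0 ≤ D ^ 2 * r := by positivity
      linarith
    calc 32 * D ^ 2 * k * r = (32 * D ^ 2 * r) * k := by ring
      _ ≤ (e * k) * k := mul_le_mul_of_nonneg_right b1 hk0.le
      _ = e * k ^ 2 := by ring
      _ ≤ e * s := mul_le_mul_of_nonneg_left a0 he.le
  have a2 : 32 * D ^ 2 * k * r * s ≤ e * (r * (D * p)) := by
    calc 32 * D ^ 2 * k * r * s ≤ (e * s) * s := mul_le_mul_of_nonneg_right a1 hs
      _ = e * n := by rw [← hsn]; ring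
      _ ≤ e * (r * (D * p)) :=
        mul_le_mul_of_nonneg_left (h3.trans (mul_le_mul_of_nonneg_left h4 hr0.le)) he.le
  rw [div_mul_eq_mul_div, le_div_iff₀ (by positivity)]
  have a3 : (8 * D * s * (4 * k)) * (D * r) ≤ (e * p) * (D * r) := by
    calc (8 * D * s * (4 * k)) * (D * r) = 32 * D ^ 2 * k * r * s := by ring
      _ ≤ e * (r * (D * p)) := a2
      _ = (e * p) * (D * r) := by ring
  exact le_of_mul_le_mul_right a3 (by positivity)

theorem num3 {e k r n x l : ℝ} (he : 0 < e) (hk : 1 ≤ k) (hr : 1 ≤ r) (hx : 0 ≤ x)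
    (h1 : 1024 * r ≤ e * k) (h2 : k ^ 3 * x ≤ n) (h3 : n ≤ r * l) :
    1024 * (k ^ 2 * x) ≤ e * l := by
  have hk0 : 0 < k := by linarith
  have hr0 : 0 < r := by linarith
  have a1 : (1024 * (k ^ 2 * x)) * r ≤ (e * l) * r := by
    calc (1024 * (k ^ 2 * x)) * r = (k ^ 2 * x) * (1024 * r) := by ring
      _ ≤ (k ^ 2 * x) * (e * k) := mul_le_mul_of_nonneg_left h1 (by positivity)
      _ = e * (k ^ 3 * x) := by ring
      _ ≤ e * (r * l) := mul_le_mul_of_nonneg_left (h2.trans h3) he.le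
      _ = (e * l) * r := by ring
  exact le_of_mul_le_mul_right a1 hr0

/-- the choice of the constant -/
theorem cst {A' A r : ℕ} {c : ℝ} (hA' : 1 ≤ A') (hr : 1 ≤ r) (hA : 2 * A' ≤ A)
    (hc : c ≤ A) : 2 * (A' * r ^ A') ≤ A * r ^ A ∧ c * r ≤ ((A * r ^ A : ℕ) : ℝ) ∧
    1 ≤ A * r ^ A := by
  have h1 : r ^ A' ≤ r ^ A := Nat.pow_le_pow_right hr (by omega)
  have h2 : r ^ 1 ≤ r ^ A := Nat.pow_le_pow_right hr (by omega)
  have h3 : 1 ≤ r ^ A := Nat.one_le_pow _ _ hr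
  refine ⟨?_, ?_, Nat.mul_pos (by omega) h3⟩
  · calc 2 * (A' * r ^ A') = (2 * A') * r ^ A' := by ring
      _ ≤ A * r ^ A := Nat.mul_le_mul hA h1
  · have h4 : (r : ℝ) ≤ (r : ℝ) ^ A := by
      have : ((r ^ 1 : ℕ) : ℝ) ≤ ((r ^ A : ℕ) : ℝ) := by exact_mod_cast h2
      push_cast at this
      simpa using this
    push_cast
    have hr0 : (0 : ℝ) ≤ r := Nat.cast_nonneg _
    exact mul_le_mul hc h4 hr0 (Nat.cast_nonneg _)

end TREEP_

open TREEP_ in
theorem pTREEP (h1 : T_LEVP) (h2 : T_DECP) (h3 : T_PIEC) (h4 : T_DISS) (h5 : T_ACT) : T_TREEP := by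
  classical
  intro Δ ε hΔ hε
  -- constants
  set ε' : ℝ := min ε 1 / 16 with hε'
  have hmin : 0 < min ε 1 := lt_min hε one_pos
  have hε'0 : 0 < ε' := by positivity
  have hε'ε : 16 * ε' ≤ ε := by
    have := min_le_left ε 1
    rw [hε']
    linarith
  have hε'1 : 16 * ε' ≤ 1 := by
    have := min_le_right ε 1
    rw [hε']
    linarith
  obtain ⟨A', hA', hdec⟩ := h2 Δ ε' hΔ hε'0
  set b : ℕ := (4 * Δ * (Δ + 1) ^ 4) ^ 2 with hb
  have hΔR : (1 : ℝ) ≤ Δ := by exact_mod_cast hΔ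
  have hb2 : 2 ≤ b := by
    have h6 : 1 ≤ Δ * (Δ + 1) ^ 4 := Nat.one_le_iff_ne_zero.2 (by positivity)
    have h7 : 4 ≤ 4 * Δ * (Δ + 1) ^ 4 := by
      calc 4 = 4 * 1 := rfl
        _ ≤ 4 * (Δ * (Δ + 1) ^ 4) := Nat.mul_le_mul_left _ h6
        _ = _ := by ring
    rw [hb]
    nlinarith
  have hbR : (1 : ℝ) ≤ b := by
    have : 1 ≤ b := by omega
    exact_mod_cast this
  set c : ℝ := 1024 * b * ((Δ : ℝ) + 1) ^ 6 * (Δ : ℝ) ^ 2 / ε' with hc
  set A : ℕ := 2 * A' + ⌈c⌉₊ with hA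
  have hcA : c ≤ A := by
    rw [hA]
    push_cast
    have := Nat.le_ceil c
    have h6 : (0 : ℝ) ≤ A' := Nat.cast_nonneg _
    linarith
  refine ⟨b, A, hb2, by omega, ?_⟩
  intro n m r par hn1 hm1 hr1 hVT hBD hlv hm hlog
  obtain ⟨hk'k, hck, hk1⟩ := cst (A' := A') (A := A) (r := r) (c := c) hA' hr1 (by omega) hcA
  set k₀ : ℕ := A * r ^ A with hk₀
  set k' : ℕ := A' * r ^ A' with hk'
  have hk1R : (1 : ℝ) ≤ k₀ := by exact_mod_cast hk1
  have hrR : (1 : ℝ) ≤ r := by exact_mod_cast hr1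
  have hmR : (1 : ℝ) ≤ m := by exact_mod_cast hm1
  have hk0 : (0 : ℝ) < k₀ := by linarith
  -- F1
  have F1 : 1024 * b * ((Δ : ℝ) + 1) ^ 6 * (Δ : ℝ) ^ 2 * r ≤ ε' * k₀ := by
    have h6 : ε' * (c * r) ≤ ε' * k₀ := mul_le_mul_of_nonneg_left hck hε'0.le
    have h7 : ε' * (c * r) = 1024 * b * ((Δ : ℝ) + 1) ^ 6 * (Δ : ℝ) ^ 2 * r := by
      rw [hc]
      field_simp
    linarith
  have hP1 : (1 : ℝ) ≤ ((Δ : ℝ) + 1) ^ 6 := one_le_pow₀ (by linarith)
  have hD2 : (1 : ℝ) ≤ (Δ : ℝ) ^ 2 := one_le_pow₀ hΔR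
  have F1a : 1024 * (Δ : ℝ) ^ 2 * r ≤ ε' * k₀ := by
    refine le_trans ?_ F1
    have h6 : (1 : ℝ) ≤ b * ((Δ : ℝ) + 1) ^ 6 := one_le_mul_of_one_le_of_one_le hbR hP1
    have h7 : 0 ≤ 1024 * (Δ : ℝ) ^ 2 * r := by positivity
    calc 1024 * (Δ : ℝ) ^ 2 * r ≤ (1024 * (Δ : ℝ) ^ 2 * r) * (b * ((Δ : ℝ) + 1) ^ 6) :=
          le_mul_of_one_le_right h7 h6
      _ = _ := by ring
  have F1b : 1024 * (r : ℝ) ≤ ε' * k₀ := by
    refine le_trans ?_ F1a
    have h7 : 0 ≤ 1024 * (r : ℝ) := by positivity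
    calc 1024 * (r : ℝ) ≤ (1024 * r) * (Δ : ℝ) ^ 2 := le_mul_of_one_le_right h7 hD2
      _ = _ := by ring
  have F1c : (b : ℝ) ≤ k₀ := by
    have h6 : (b : ℝ) ≤ 1024 * b * ((Δ : ℝ) + 1) ^ 6 * (Δ : ℝ) ^ 2 * r := by
      have h7 : (1 : ℝ) ≤ ((Δ : ℝ) + 1) ^ 6 * (Δ : ℝ) ^ 2 * r :=
        one_le_mul_of_one_le_of_one_le (one_le_mul_of_one_le_of_one_le hP1 hD2) hrR
      have h8 : (0 : ℝ) ≤ 1024 * b := by positivity
      calc (b : ℝ) ≤ 1024 * b := by linarith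
        _ ≤ (1024 * b) * (((Δ : ℝ) + 1) ^ 6 * (Δ : ℝ) ^ 2 * r) := le_mul_of_one_le_right h8 h7
        _ = _ := by ring
    have h7 : ε' * k₀ ≤ 1 * k₀ := mul_le_mul_of_nonneg_right (by linarith) hk0.le
    linarith
  have hbk : b ≤ k₀ := by exact_mod_cast F1c
  -- n is large
  have hk3 : k₀ ≤ k₀ ^ 3 := Nat.le_self_pow (by norm_num) _
  have hkn : k₀ * m ≤ n := (Nat.mul_le_mul_right m hk3).trans hm
  have hbmn : b * m ≤ n := (Nat.mul_le_mul_right m hbk).trans hkn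
  have hn2 : 2 ≤ n := by
    calc 2 ≤ b := hb2
      _ = b * 1 := by ring
      _ ≤ b * m := Nat.mul_le_mul_left _ hm1
      _ ≤ n := hbmn
  have hk'n : k' ≤ n := by
    have h6 : k' ≤ k₀ := by omega
    calc k' ≤ k₀ := h6
      _ = k₀ * 1 := by ring
      _ ≤ k₀ * m := Nat.mul_le_mul_left _ hm1
      _ ≤ n := hkn
  have hlpΔ : (lv n par).card ≤ Δ * (lp n par).card := le_lp hn2 hVT hBD
  have hlple : (lp n par).card ≤ (lv n par).card := lp_le n par
  have hlpR : ((lv n par).card : ℝ) ≤ Δ * (lp n par).card := by exact_mod_cast hlpΔ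
  have hlpR' : ((lp n par).card : ℝ) ≤ (lv n par).card := by exact_mod_cast hlple
  have hlvn : ((lv n par).card : ℝ) ≤ n := by
    have : (lv n par).card ≤ n := by
      unfold lv
      exact (card_filter_le _ _).trans (by rw [card_range])
    exact_mod_cast this
  have hlvR : (n : ℝ) ≤ r * (lv n par).card := by exact_mod_cast hlv
  have hmR3 : (k₀ : ℝ) ^ 3 * m ≤ n := by exact_mod_cast hm
  set L : ℕ := (Nat.log 2 n + 3) ^ 2 with hL
  have hL1 : 1 ≤ L := Nat.one_le_pow _ _ (by omega)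
  have hLR : (1 : ℝ) ≤ L := by exact_mod_cast hL1
  have hlogR : ((k₀ : ℝ) ^ 3 * L) ^ 2 ≤ n := by exact_mod_cast hlog
  have hkL0 : (0 : ℝ) ≤ (k₀ : ℝ) ^ 3 * L := by positivity
  have hkL1 : (1 : ℝ) ≤ (k₀ : ℝ) ^ 3 * L :=
    one_le_mul_of_one_le_of_one_le (one_le_pow₀ hk1R) hLR
  have hkLs : (k₀ : ℝ) ^ 3 * L ≤ Real.sqrt n := Real.le_sqrt_of_sq_le hlogR
  have hkLn : (k₀ : ℝ) ^ 3 * L ≤ n := by
    refine le_trans ?_ hlogR
    rw [sq]
    exact le_mul_of_one_le_right hkL0 hkL1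
  set lam : ℝ := ((lv n par).card : ℝ) with hlam
  have hlam0 : 0 ≤ lam := Nat.cast_nonneg _
  have hn0 : (0 : ℝ) ≤ n := Nat.cast_nonneg n
  set θ : ℝ := ε' / (4 * k₀) with hθ
  have hθ0 : 0 < θ := by positivity
  have hθ1 : θ ≤ 1 / 2 := by
    rw [hθ, div_le_iff₀ (by positivity)]
    linarith
  obtain ⟨par', I, S, lf, t, hVT', hBD', hlvc, hEmb, hIb, ht0, htm, hlpt, hS, hsum⟩ :=
    h1 Δ k₀ b n m θ par hΔ hk1 hθ0 hθ1 hb hm1 hVT hBD hbmn
      (num1 hε'0 hk1R hbR hΔR hrR (by linarith) F1 hmR3 hlvR hlpR)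
      (num2 hε'0 hk1R hΔR hrR hLR (Real.sqrt_nonneg _) (Real.mul_self_sqrt hn0) F1a hkLs hlvR hlpR)
  obtain ⟨E₀, Q₀, κ, hD0, hcol0, hE0, hκ, hmark⟩ := hdec n r par' hn1 hr1 hVT' hBD'
    (by rw [hlvc]; exact hlv) hk'n
  rw [hlvc] at hE0
  have hκ' : ∀ x ∈ E₀, κ x < k' := fun x hx => (hκ x hx).1
  obtain ⟨hp1, hp2, hp3, hp4, hp5, hp6, hp7, hp8, hp9⟩ := h3 par' E₀ Q₀ κ k' hD0.QE hD0.up hcol0 hκ'
  -- bad pieces
  set B1 : Finset ℕ := Q₀.filter fun q => t 1 ≤ par' q ∧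
    ∃ x ∈ pc par' E₀ Q₀ q, x ≠ q ∧ chd n par' x = ∅ with hB1
  set B2 : Finset ℕ := Q₀.filter fun q => ∃ s ∈ SS par' I S lf, s ∈ pc par' E₀ Q₀ q with hB2
  set B3 : Finset ℕ := Q₀.filter fun q => ∃ s ∈ SS par' I S lf, ∃ j, 1 ≤ j ∧ j ≤ 2 ∧
    par'^[j] q = s with hB3
  set Bad : Finset ℕ := B1 ∪ (B2 ∪ B3) with hBad
  have hB1c : B1.card ≤ ((lp n par').filter (fun y => t 1 ≤ y)).card := by
    have hc : ∀ q ∈ B1, ∃ y, y ∈ pc par' E₀ Q₀ q ∧ y ∈ (lp n par').filter (fun y => t 1 ≤ y) := by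
      intro q hq
      rw [hB1, mem_filter] at hq
      obtain ⟨hqQ, htq, x, hx, hxq, hxl⟩ := hq
      obtain ⟨hxQ, hpx⟩ := hp2 q hqQ x hx hxq
      have hxE : x ∈ E₀ := by
        unfold pc at hx
        exact (mem_filter.1 hx).1
      have hpE : par' x ∈ E₀ := (hD0.up x hxE hxQ).2
      have hlt : par' x < x := (hD0.up x hxE hxQ).1
      have hle := le_of_pc hD0.up hpx
      have hqp : par' q < q := by
        have := hD0.pos q hqQ 0 (by norm_num)
        simpa using this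
      refine ⟨par' x, hpx, mem_filter.2 ⟨?_, by omega⟩⟩
      unfold RSL.lp
      rw [mem_filter]
      refine ⟨hD0.EC hpE, x, ?_, hxl⟩
      unfold chd
      rw [mem_filter]
      exact ⟨hD0.EC hxE, by omega, rfl⟩
    choose! g hg using hc
    refine card_le_card_of_injOn g (fun q hq => (hg q hq).2) ?_
    intro q hq q' hq' he
    by_contra hne
    have hqQ : q ∈ Q₀ := (mem_filter.1 (hB1 ▸ hq : q ∈ _)).1
    have hqQ' : q' ∈ Q₀ := (mem_filter.1 (hB1 ▸ hq' : q' ∈ _)).1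
    have h6 := (hg q hq).1
    have h7 := (hg q' hq').1
    rw [← he] at h7
    exact disjoint_left.1 (hp4 q hqQ q' hqQ' hne) h6 h7
  have hB2c : B2.card ≤ (SS par' I S lf).card := by
    have hc : ∀ q ∈ B2, ∃ s, s ∈ SS par' I S lf ∧ s ∈ pc par' E₀ Q₀ q := by
      intro q hq
      rw [hB2, mem_filter] at hq
      obtain ⟨-, s, hs, hs'⟩ := hq
      exact ⟨s, hs, hs'⟩
    choose! g hg using hc
    refine card_le_card_of_injOn g (fun q hq => (hg q hq).1) ?_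
    intro q hq q' hq' he
    by_contra hne
    have hqQ : q ∈ Q₀ := (mem_filter.1 (hB2 ▸ hq : q ∈ _)).1
    have hqQ' : q' ∈ Q₀ := (mem_filter.1 (hB2 ▸ hq' : q' ∈ _)).1
    have h6 := (hg q hq).2
    have h7 := (hg q' hq').2
    rw [← he] at h7
    exact disjoint_left.1 (hp4 q hqQ q' hqQ' hne) h6 h7
  have hB3c : B3.card ≤ (SS par' I S lf).card := by
    have hc : ∀ q ∈ B3, ∃ s, s ∈ SS par' I S lf ∧ ∃ j, 1 ≤ j ∧ j ≤ 2 ∧ par'^[j] q = s := by
      intro q hq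
      rw [hB3, mem_filter] at hq
      obtain ⟨-, s, hs, hs'⟩ := hq
      exact ⟨s, hs, hs'⟩
    choose! g hg using hc
    refine card_le_card_of_injOn g (fun q hq => (hg q hq).1) ?_
    intro q hq q' hq' he
    have hqQ : q ∈ Q₀ := (mem_filter.1 (hB3 ▸ hq : q ∈ _)).1
    have hqQ' : q' ∈ Q₀ := (mem_filter.1 (hB3 ▸ hq' : q' ∈ _)).1
    obtain ⟨-, j, hj1, hj2, hj⟩ := hg q hq
    obtain ⟨-, j', hj1', hj2', hj'⟩ := hg q' hq'
    exact hD0.excl q hqQ q' hqQ' j j' hj1 hj2 hj1' hj2' (by rw [hj, hj', he])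
  have hBadQ : Bad ⊆ Q₀ := by
    rw [hBad]
    exact union_subset (filter_subset _ _) (union_subset (filter_subset _ _) (filter_subset _ _))
  -- the size of the special set
  have hsm : 1024 * ((k₀ : ℝ) ^ 2 * m) ≤ ε' * lam :=
    num3 hε'0 hk1R hrR (by linarith) F1b hmR3 hlvR
  have hsL : 1024 * ((k₀ : ℝ) ^ 2 * L) ≤ ε' * lam :=
    num3 hε'0 hk1R hrR (by linarith) F1b hkLn hlvR
  have hsumk : (k₀ : ℝ) * ((∑ i ∈ Icc 1 I, (2 * i + 4) * (S i).card : ℕ) : ℝ) ≤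
      ε' * lam / 16 := by
    have h6 : ((∑ i ∈ Icc 1 I, (2 * i + 4) * (S i).card : ℕ) : ℝ) ≤ 16 * (k₀ + 1) * m + L := by
      exact_mod_cast hsum
    have h7 : 16 * ((k₀ : ℝ) + 1) * m ≤ 32 * k₀ * m := by nlinarith
    have h8 : (k₀ : ℝ) * ((∑ i ∈ Icc 1 I, (2 * i + 4) * (S i).card : ℕ) : ℝ) ≤
        k₀ * (32 * k₀ * m + L) := mul_le_mul_of_nonneg_left (by linarith) hk0.le
    have h9 : (k₀ : ℝ) * (32 * k₀ * m + L) = 32 * ((k₀ : ℝ) ^ 2 * m) + k₀ * L := by ring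
    have h10 : (k₀ : ℝ) * L ≤ (k₀ : ℝ) ^ 2 * L := by
      have h11 : (k₀ : ℝ) ≤ (k₀ : ℝ) ^ 2 := by nlinarith
      exact mul_le_mul_of_nonneg_right h11 (by linarith)
    have h12 : 0 ≤ ε' * lam := mul_nonneg hε'0.le hlam0
    linarith
  have hsum0 : (0 : ℝ) ≤ ((∑ i ∈ Icc 1 I, (2 * i + 4) * (S i).card : ℕ) : ℝ) := Nat.cast_nonneg _
  have hSSR : ((SS par' I S lf).card : ℝ) ≤
      ((∑ i ∈ Icc 1 I, (2 * i + 4) * (S i).card : ℕ) : ℝ) := by
    exact_mod_cast card_SS par' I S lf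
  have hBadk : (k₀ : ℝ) * Bad.card ≤ ε' * lam / 2 := by
    have h6 : Bad.card ≤ B1.card + (B2.card + B3.card) := by
      rw [hBad]
      exact (card_union_le _ _).trans (add_le_add le_rfl (card_union_le _ _))
    have h7 : (Bad.card : ℝ) ≤ B1.card + (B2.card + B3.card) := by exact_mod_cast h6
    have h8 : (B1.card : ℝ) ≤ θ * lam :=
      le_trans (by exact_mod_cast hB1c) (hlpt.trans (mul_le_mul_of_nonneg_left hlpR' hθ0.le))
    have h9 : (B2.card : ℝ) ≤ ((∑ i ∈ Icc 1 I, (2 * i + 4) * (S i).card : ℕ) : ℝ) :=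
      le_trans (by exact_mod_cast hB2c) hSSR
    have h10 : (B3.card : ℝ) ≤ ((∑ i ∈ Icc 1 I, (2 * i + 4) * (S i).card : ℕ) : ℝ) :=
      le_trans (by exact_mod_cast hB3c) hSSR
    have h11 : (k₀ : ℝ) * (θ * lam) = ε' * lam / 4 := by
      rw [hθ]
      field_simp
    have h12 : (k₀ : ℝ) * Bad.card ≤ k₀ * (θ * lam +
        (((∑ i ∈ Icc 1 I, (2 * i + 4) * (S i).card : ℕ) : ℝ) +
        ((∑ i ∈ Icc 1 I, (2 * i + 4) * (S i).card : ℕ) : ℝ))) :=
      mul_le_mul_of_nonneg_left (by linarith) hk0.le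
    have h13 : (k₀ : ℝ) * (θ * lam +
        (((∑ i ∈ Icc 1 I, (2 * i + 4) * (S i).card : ℕ) : ℝ) +
        ((∑ i ∈ Icc 1 I, (2 * i + 4) * (S i).card : ℕ) : ℝ))) = k₀ * (θ * lam) +
        2 * (k₀ * ((∑ i ∈ Icc 1 I, (2 * i + 4) * (S i).card : ℕ) : ℝ)) := by ring
    have h14 : 0 ≤ ε' * lam := mul_nonneg hε'0.le hlam0
    linarith
  have hkkR : 2 * (k' : ℝ) ≤ k₀ := by exact_mod_cast hk'k
  have hk'0 : (0 : ℝ) ≤ k' := Nat.cast_nonneg _
  have hBadk' : (k' : ℝ) * Bad.card ≤ ε' * lam / 2 := by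
    have : (k' : ℝ) * Bad.card ≤ k₀ * Bad.card :=
      mul_le_mul_of_nonneg_right (by linarith) (Nat.cast_nonneg _)
    linarith
  set Q : Finset ℕ := Q₀ \ Bad with hQ
  set E : Finset ℕ := Q.biUnion (pc par' E₀ Q₀) with hE
  obtain ⟨hD, hcol, hEE, hpc, hcE, hcc⟩ := h4 n par' E₀ Q₀ Bad E Q κ k' hD0 hcol0 hκ' hBadQ hQ hE
  obtain ⟨M, hM1, hM2, hM3, hM4, hM5, hM6⟩ := h5 n Δ par' E Q κ hBD' hD.EC hD.up hcol (by
    intro x hx y hy hxy
    exact hmark x (hEE hx) y (hEE hy) hxy)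
  have hεlam : 0 ≤ ε' * lam := mul_nonneg hε'0.le hlam0
  have hEc : ((range n \ E).card : ℝ) ≤ 3 / 2 * (ε' * lam) := by
    have h6 : (range n \ E).card ≤ (range n \ E₀).card + (E₀ \ E).card := by
      refine (card_le_card ?_).trans (card_union_le _ _)
      intro x hx
      rw [mem_sdiff] at hx
      by_cases hx0 : x ∈ E₀
      · exact mem_union_right _ (mem_sdiff.2 ⟨hx0, hx.2⟩)
      · exact mem_union_left _ (mem_sdiff.2 ⟨hx.1, hx0⟩)
    have h7 : ((range n \ E).card : ℝ) ≤ (range n \ E₀).card + (E₀ \ E).card := by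
      exact_mod_cast h6
    have h8 : ((E₀ \ E).card : ℝ) ≤ k' * Bad.card := by exact_mod_cast hcE
    linarith
  have hout : ∀ q ∈ Q, q ∈ Q₀ ∧ q ∉ B1 ∧ q ∉ B2 ∧ q ∉ B3 := by
    intro q hq
    rw [hQ, mem_sdiff] at hq
    refine ⟨hq.1, fun h => hq.2 ?_, fun h => hq.2 ?_, fun h => hq.2 ?_⟩
    · exact mem_union_left _ h
    · exact mem_union_right _ (mem_union_left _ h)
    · exact mem_union_right _ (mem_union_right _ h)
  have hSSE : ∀ s ∈ SS par' I S lf, s ∉ E := by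
    intro s hs hsE
    rw [hE, mem_biUnion] at hsE
    obtain ⟨q, hq, hsq⟩ := hsE
    obtain ⟨hq0, -, hq2, -⟩ := hout q hq
    exact hq2 (mem_filter.2 ⟨hq0, s, hs, hsq⟩)
  have hSSQ : ∀ s ∈ SS par' I S lf, ∀ q ∈ Q, s ≠ par' q ∧ s ≠ par' (par' q) := by
    intro s hs q hq
    obtain ⟨hq0, -, -, hq3⟩ := hout q hq
    refine ⟨fun h => hq3 (mem_filter.2 ⟨hq0, s, hs, 1, le_rfl, by norm_num, ?_⟩),
      fun h => hq3 (mem_filter.2 ⟨hq0, s, hs, 2, by norm_num, le_rfl, ?_⟩)⟩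
    · rw [h]
      rfl
    · rw [h]
      rfl
  refine ⟨par', I, E, Q, M, κ, S, lf, t, hVT', hBD', hEmb, ?_, ?_, ?_, ?_, ?_⟩
  · refine
      { dcp := hD
        col := hcol
        kap := fun x hx => lt_of_lt_of_le (hκ' x (hEE hx)) (by omega)
        MS := hM1
        Ml := hM2
        Mc := hM3
        Mi := hM4
        Ms := hM5
        Mt := ?_
        k1 := hk1
        b2 := hb2
        Ib := hIb
        t0 := ht0
        tm := htm
        Sr := fun i hi hI => (hS i hi hI).1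
        Se := fun i hi hI => (hS i hi hI).2.1
        Sl := ?_
        SE := ?_
        Sb := fun i hi hI => (hS i hi hI).2.2.2 }
    · intro q hq x hx hxM
      by_contra hcon
      obtain ⟨hq0, hq1, -, -⟩ := hout q hq
      refine hq1 (mem_filter.2 ⟨hq0, by omega, x, ?_, ?_, hM2 x hxM⟩)
      · rw [← hpc q hq]
        exact hx
      · rintro rfl
        exact (hM1 x hxM).2 hq
    · intro i hi hI a ha
      obtain ⟨h6, h7⟩ := (hS i hi hI).2.2.1 a ha
      exact ⟨h6, h7, hSSE _ (lf_mem hi hI ha)⟩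
    · intro i hi hI a ha j hj
      have h6 : par'^[j] a ∈ SS par' I S lf := chain_mem hi hI ha hj
      exact ⟨hSSE _ h6, hSSQ _ h6⟩
  · have h6 : 16 * ε' * lam ≤ ε * lam := mul_le_mul_of_nonneg_right hε'ε hlam0
    linarith
  · have h6 : ∑ i ∈ Icc 1 I, (S i).card ≤ ∑ i ∈ Icc 1 I, (2 * i + 4) * (S i).card := by
      refine sum_le_sum fun i _ => ?_
      exact Nat.le_mul_of_pos_left _ (by omega)
    have h7 : ((∑ i ∈ Icc 1 I, (S i).card : ℕ) : ℝ) ≤
        ((∑ i ∈ Icc 1 I, (2 * i + 4) * (S i).card : ℕ) : ℝ) := by exact_mod_cast h6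
    have h8 : ((∑ i ∈ Icc 1 I, (2 * i + 4) * (S i).card : ℕ) : ℝ) ≤
        k₀ * ((∑ i ∈ Icc 1 I, (2 * i + 4) * (S i).card : ℕ) : ℝ) :=
      le_mul_of_one_le_left hsum0 hk1R
    have h9 : 16 * ε' * lam ≤ ε * lam := mul_le_mul_of_nonneg_right hε'ε hlam0
    linarith
  · intro x hx
    have h6 := (hκ x (hEE hx)).2
    have h7 := hcc x hx
    have h6R : (n : ℝ) ≤ k' * ((E₀.filter (fun y => κ y = κ x)).card : ℝ) := by exact_mod_cast h6
    have h7R : ((E₀.filter (fun y => κ y = κ x)).card : ℝ) ≤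
        (E.filter (fun y => κ y = κ x)).card + Bad.card := by exact_mod_cast h7
    have h8 : (n : ℝ) ≤ k' * ((E.filter (fun y => κ y = κ x)).card + Bad.card) :=
      h6R.trans (mul_le_mul_of_nonneg_left h7R hk'0)
    have h9 : (k' : ℝ) * ((E.filter (fun y => κ y = κ x)).card + Bad.card) =
      k' * (E.filter (fun y => κ y = κ x)).card + k' * Bad.card := by ring
    have h10 : ε' * lam ≤ 1 * n := mul_le_mul (by linarith) hlvn hlam0 (by norm_num)
    have h11 : 2 * (k' : ℝ) * (E.filter (fun y => κ y = κ x)).card ≤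
      k₀ * (E.filter (fun y => κ y = κ x)).card :=
      mul_le_mul_of_nonneg_right hkkR (Nat.cast_nonneg _)
    have h12 : (n : ℝ) ≤ k₀ * (E.filter (fun y => κ y = κ x)).card := by linarith
    exact_mod_cast h12
  · have hQc : Q.card ≤ (range n \ E).card := by
      refine card_le_card_of_injOn par' ?_ ?_
      · intro q hq
        have h : par'^[1] q ∈ range n \ E := hD.chain q hq 1 le_rfl one_le_two
        exact mem_coe.2 h
      · intro q hq q' hq' he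
        exact hD.excl q hq q' hq' 1 1 le_rfl one_le_two le_rfl one_le_two he
    have h6 : (lv n par').card ≤ ((E \ Q).filter (fun x => chd n par' x = ∅)).card +
        (Q.card + (range n \ E).card) := by
      have : lv n par' ⊆ ((E \ Q).filter (fun x => chd n par' x = ∅)) ∪ (Q ∪ (range n \ E)) := by
        intro x hx
        unfold lv at hx
        rw [mem_filter] at hx
        by_cases hxE : x ∈ E
        · by_cases hxQ : x ∈ Q
          · exact mem_union_right _ (mem_union_left _ hxQ)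
          · exact mem_union_left _ (mem_filter.2 ⟨mem_sdiff.2 ⟨hxE, hxQ⟩, hx.2⟩)
        · exact mem_union_right _ (mem_union_right _ (mem_sdiff.2 ⟨hx.1, hxE⟩))
      refine (card_le_card this).trans ((card_union_le _ _).trans (add_le_add le_rfl
        (card_union_le _ _)))
    have h7 : (lv n par').card ≤ Δ * M.card + ((range n \ E).card + (range n \ E).card) := by omega
    have h8 : ((lv n par').card : ℝ) ≤ Δ * M.card + ((range n \ E).card + (range n \ E).card) := by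
      exact_mod_cast h7
    rw [hlvc] at h8
    have h9 : 0 ≤ (Δ : ℝ) * M.card := mul_nonneg (Nat.cast_nonneg _) (Nat.cast_nonneg _)
    have h10 : 16 * ε' * lam ≤ 1 * lam := mul_le_mul_of_nonneg_right hε'1 hlam0
    have h11 : lam ≤ 4 * Δ * M.card := by linarith
    rw [hlam] at h11
    exact_mod_cast h11

end Pool.Agent.RSP
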