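import Pool.Agent.RSP.Targets

/-!
# TYP: colours of the pieces, with marks
-/

set_option autoImplicit false

open Finset

namespace Pool.Agent.RSP

open Pool.Agent.RST Pool.Agent.RSL

namespace TYP_

/-- The root of the piece of `x`. -/
private def top (par : ℕ → ℕ) (Q : Finset ℕ) (x : ℕ) : ℕ :=
  if _h : x ∉ Q ∧ par x < x then top par Q (par x) else x
termination_by x
decreasing_by exact _h.2

private lemma top_of_mem {par : ℕ → ℕ} {Q : Finset ℕ} {x : ℕ} (h : x ∈ Q) : top par Q x = x := by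
  rw [top, dif_neg]
  exact fun h' => h'.1 h

private lemma top_of_lt {par : ℕ → ℕ} {Q : Finset ℕ} {x : ℕ} (h : x ∉ Q) (h1 : par x < x) :
    top par Q x = top par Q (par x) := by
  rw [top, dif_pos ⟨h, h1⟩]

/-- The hypotheses on the pieces. -/
private structure Up (par : ℕ → ℕ) (E Q : Finset ℕ) : Prop where
  QE : Q ⊆ E
  up : ∀ x ∈ E, x ∉ Q → par x < x ∧ par x ∈ E

variable {par : ℕ → ℕ} {E Q : Finset ℕ}

private lemma top_mem (h : Up par E Q) : ∀ x ∈ E, top par Q x ∈ Q := by
  intro x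
  induction x using Nat.strong_induction_on with
  | _ x ih =>
    intro hx
    by_cases hq : x ∈ Q
    · rw [top_of_mem hq]; exact hq
    · obtain ⟨h1, h2⟩ := h.up x hx hq
      rw [top_of_lt hq h1]
      exact ih _ h1 h2

private lemma top_le (h : Up par E Q) : ∀ x ∈ E, top par Q x ≤ x := by
  intro x
  induction x using Nat.strong_induction_on with
  | _ x ih =>
    intro hx
    by_cases hq : x ∈ Q
    · rw [top_of_mem hq]
    · obtain ⟨h1, h2⟩ := h.up x hx hq
      rw [top_of_lt hq h1]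
      exact (ih _ h1 h2).trans h1.le

private lemma top_chain (h : Up par E Q) : ∀ x ∈ E, ∃ j, par^[j] x = top par Q x ∧
    ∀ i < j, par^[i] x ∈ E ∧ par^[i] x ∉ Q := by
  intro x
  induction x using Nat.strong_induction_on with
  | _ x ih =>
    intro hx
    by_cases hq : x ∈ Q
    · exact ⟨0, by rw [top_of_mem hq]; rfl, by intro i hi; omega⟩
    · obtain ⟨h1, h2⟩ := h.up x hx hq
      obtain ⟨j, h3, h4⟩ := ih _ h1 h2
      refine ⟨j + 1, ?_, ?_⟩
      · rw [top_of_lt hq h1, Function.iterate_succ_apply]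
        exact h3
      · intro i hi
        rcases Nat.eq_zero_or_pos i with h5 | h5
        · subst h5; exact ⟨hx, hq⟩
        · obtain ⟨i', rfl⟩ : ∃ i', i = i' + 1 := ⟨i - 1, by omega⟩
          rw [Function.iterate_succ_apply]
          exact h4 i' (by omega)

private lemma top_top (h : Up par E Q) {x : ℕ} (hx : x ∈ E) :
    top par Q (top par Q x) = top par Q x := top_of_mem (top_mem h x hx)

/-- The rank of `x` in its piece. -/
private def rk (par : ℕ → ℕ) (E Q : Finset ℕ) (x : ℕ) : ℕ :=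
  (E.filter (fun y => top par Q y = top par Q x ∧ y < x)).card

private lemma rk_lt {x y : ℕ} (hx : x ∈ E) (ht : top par Q x = top par Q y) (hxy : x < y) :
    rk par E Q x < rk par E Q y := by
  unfold rk
  apply card_lt_card
  rw [ssubset_iff_subset_ne]
  constructor
  · intro z hz
    rw [mem_filter] at hz ⊢
    exact ⟨hz.1, hz.2.1.trans ht, hz.2.2.trans hxy⟩
  · intro heq
    have h1 : x ∈ E.filter (fun z => top par Q z = top par Q y ∧ z < y) := by
      rw [mem_filter]; exact ⟨hx, ht, hxy⟩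
    rw [← heq, mem_filter] at h1
    omega

private lemma rk_inj {x y : ℕ} (hx : x ∈ E) (hy : y ∈ E) (ht : top par Q x = top par Q y)
    (hr : rk par E Q x = rk par E Q y) : x = y := by
  rcases lt_trichotomy x y with h | h | h
  · have := rk_lt hx ht h; omega
  · exact h
  · have := rk_lt hy ht.symm h; omega

private lemma rk_bound (h : Up par E Q) {S : ℕ} (hS : PS par E Q S) {x : ℕ}
    (hx : x ∈ E) : rk par E Q x < S := by
  have h1 := hS (top par Q x) (top_mem h x hx)
    (insert x (E.filter (fun y => top par Q y = top par Q x ∧ y < x))) (by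
      intro y hy
      have hy' : y ∈ E ∧ top par Q y = top par Q x := by
        rw [mem_insert, mem_filter] at hy
        rcases hy with rfl | hy
        · exact ⟨hx, rfl⟩
        · exact ⟨hy.1, hy.2.1⟩
      obtain ⟨j, h2, h3⟩ := top_chain h y hy'.1
      exact ⟨j, h2.trans hy'.2, h3⟩)
  rw [card_insert_of_notMem (by rw [mem_filter]; omega)] at h1
  unfold rk
  omega

private lemma rk_zero (h : Up par E Q) {x : ℕ} (hx : x ∈ E) :
    rk par E Q x = 0 ↔ x ∈ Q := by
  constructor
  · intro h0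
    have h1 := top_mem h x hx
    have h2 := top_le h x hx
    rcases h2.lt_or_eq with h3 | h3
    · have := rk_lt (h.QE h1) (top_top h hx) h3
      omega
    · rw [h3] at h1; exact h1
  · intro hq
    unfold rk
    rw [card_eq_zero, filter_eq_empty_iff]
    intro y hy ⟨h1, h2⟩
    rw [top_of_mem hq] at h1
    have := top_le h y hy
    omega

open Classical in
/-- The rank of the parent of the element of rank `i` (plus one). -/
private noncomputable def f1 (par : ℕ → ℕ) (E Q : Finset ℕ) (q i : ℕ) : ℕ :=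
  if h : ∃ x, x ∈ E ∧ top par Q x = q ∧ rk par E Q x = i ∧ x ∉ Q then
    rk par E Q (par h.choose) + 1 else 0

open Classical in
/-- The mark of the element of rank `i` (plus one). -/
private noncomputable def f2 (par : ℕ → ℕ) (mark : ℕ → ℕ) (E Q : Finset ℕ) (q i : ℕ) : ℕ :=
  if h : ∃ x, x ∈ E ∧ top par Q x = q ∧ rk par E Q x = i then mark h.choose + 1 else 0

private lemma f1_eq {x : ℕ} (hx : x ∈ E) (hxQ : x ∉ Q) :
    f1 par E Q (top par Q x) (rk par E Q x) = rk par E Q (par x) + 1 := by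
  unfold f1
  have h : ∃ y, y ∈ E ∧ top par Q y = top par Q x ∧ rk par E Q y = rk par E Q x ∧ y ∉ Q :=
    ⟨x, hx, rfl, rfl, hxQ⟩
  rw [dif_pos h]
  have h1 := h.choose_spec
  have h2 : h.choose = x := rk_inj h1.1 hx h1.2.1 h1.2.2.1
  rw [h2]

private lemma f1_lt (h : Up par E Q) {S : ℕ} (hS : PS par E Q S) (q i : ℕ) :
    f1 par E Q q i < S + 1 := by
  unfold f1
  split_ifs with hex
  · have h1 := hex.choose_spec
    have h2 := (h.up _ h1.1 h1.2.2.2).2
    have := rk_bound h hS h2
    omega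
  · omega

private lemma f2_eq (mark : ℕ → ℕ) {x : ℕ} (hx : x ∈ E) :
    f2 par mark E Q (top par Q x) (rk par E Q x) = mark x + 1 := by
  unfold f2
  have h : ∃ y, y ∈ E ∧ top par Q y = top par Q x ∧ rk par E Q y = rk par E Q x :=
    ⟨x, hx, rfl, rfl⟩
  rw [dif_pos h]
  have h1 := h.choose_spec
  have h2 : h.choose = x := rk_inj h1.1 hx h1.2.1 h1.2.2
  rw [h2]

private lemma f2_lt {mark : ℕ → ℕ} {μ : ℕ} (hm : ∀ x, mark x < μ) (q i : ℕ) :
    f2 par mark E Q q i < μ + 1 := by
  unfold f2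
  split_ifs with hex
  · have := hm hex.choose
    omega
  · omega

private lemma f2_ne {mark : ℕ → ℕ} {q i : ℕ} (h : f2 par mark E Q q i ≠ 0) :
    ∃ x, x ∈ E ∧ top par Q x = q ∧ rk par E Q x = i ∧ f2 par mark E Q q i = mark x + 1 := by
  unfold f2 at h ⊢
  split_ifs at h ⊢ with hex
  · have h1 := hex.choose_spec
    exact ⟨hex.choose, h1.1, h1.2.1, h1.2.2, rfl⟩
  · exact absurd rfl h

private lemma f1_ne {q i : ℕ} (h : f1 par E Q q i ≠ 0) :
    ∃ x, x ∈ E ∧ top par Q x = q ∧ rk par E Q x = i ∧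
      f1 par E Q q i = rk par E Q (par x) + 1 := by
  unfold f1 at h ⊢
  split_ifs at h ⊢ with hex
  · have h1 := hex.choose_spec
    exact ⟨hex.choose, h1.1, h1.2.1, h1.2.2.1, rfl⟩
  · exact absurd rfl h

end TYP_

open TYP_ in
/-- TYP -/
theorem pTYP : T_TYP := by
  intro S
  refine ⟨(S + 1) ^ S * 2 ^ S * (S + 1) + S, ?_⟩
  intro μ par E Q mark hμ hQE hup hPS hmark
  have h : Up par E Q := ⟨hQE, hup⟩
  -- the set of all pairs of a type and a rank
  let T : Type := (Fin S → Fin (S + 1)) × (Fin S → Fin (μ + 1)) × Fin (S + 1)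
  -- the code
  let pr : ℕ → T := fun x => (fun i => ⟨f1 par E Q (top par Q x) i, f1_lt h hPS _ _⟩,
    fun i => ⟨f2 par mark E Q (top par Q x) i, f2_lt hmark _ _⟩,
    ⟨min (rk par E Q x) S, by omega⟩)
  have hcardT : Fintype.card T = (S + 1) ^ S * ((μ + 1) ^ S * (S + 1)) := by
    simp [T, Fintype.card_prod]
  let e : T ≃ Fin (Fintype.card T) := Fintype.equivFin T
  have hbound : Fintype.card T ≤ ((S + 1) ^ S * 2 ^ S * (S + 1) + S) *
      μ ^ ((S + 1) ^ S * 2 ^ S * (S + 1) + S) := by
    rw [hcardT]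
    have h1 : (μ + 1) ^ S ≤ 2 ^ S * μ ^ S := by
      rw [← Nat.mul_pow]
      exact Nat.pow_le_pow_left (by omega) S
    have h2 : μ ^ S ≤ μ ^ ((S + 1) ^ S * 2 ^ S * (S + 1) + S) :=
      Nat.pow_le_pow_right hμ (by omega)
    calc (S + 1) ^ S * ((μ + 1) ^ S * (S + 1))
        ≤ (S + 1) ^ S * ((2 ^ S * μ ^ S) * (S + 1)) :=
          Nat.mul_le_mul_left _ (Nat.mul_le_mul_right _ h1)
      _ = ((S + 1) ^ S * 2 ^ S * (S + 1)) * μ ^ S := by ring
      _ ≤ ((S + 1) ^ S * 2 ^ S * (S + 1) + S) * μ ^ S :=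
          Nat.mul_le_mul_right _ (Nat.le_add_right _ _)
      _ ≤ _ := Nat.mul_le_mul_left _ h2
  -- consequences of equal codes
  have hrk : ∀ x ∈ E, ∀ y ∈ E, pr x = pr y → rk par E Q x = rk par E Q y := by
    intro x hx y hy hxy
    have h1 := congrArg (fun t : T => (t.2.2 : ℕ)) hxy
    have h2 := rk_bound h hPS hx
    have h3 := rk_bound h hPS hy
    simp only [pr] at h1
    omega
  have hf1 : ∀ x y, pr x = pr y → ∀ i < S, f1 par E Q (top par Q x) i =
      f1 par E Q (top par Q y) i := by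
    intro x y hxy i hi
    have h1 := congrArg (fun t : T => ((t.1 ⟨i, hi⟩ : Fin (S + 1)) : ℕ)) hxy
    exact h1
  have hf2 : ∀ x y, pr x = pr y → ∀ i < S, f2 par mark E Q (top par Q x) i =
      f2 par mark E Q (top par Q y) i := by
    intro x y hxy i hi
    have h1 := congrArg (fun t : T => ((t.2.1 ⟨i, hi⟩ : Fin (μ + 1)) : ℕ)) hxy
    exact h1
  have hnQ : ∀ x ∈ E, ∀ y ∈ E, pr x = pr y → (x ∈ Q ↔ y ∈ Q) := by
    intro x hx y hy hxy
    rw [← rk_zero h hx, ← rk_zero h hy, hrk x hx y hy hxy]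
  have htop : ∀ x ∈ E, x ∉ Q → top par Q (par x) = top par Q x := by
    intro x hx hxq
    exact (top_of_lt hxq (hup x hx hxq).1).symm
  have hparrk : ∀ x ∈ E, ∀ y ∈ E, x ∉ Q → pr x = pr y →
      rk par E Q (par x) = rk par E Q (par y) := by
    intro x hx y hy hxq hxy
    have hyq : y ∉ Q := fun hq => hxq ((hnQ x hx y hy hxy).2 hq)
    have h1 := hf1 x y hxy _ (rk_bound h hPS hx)
    rw [f1_eq hx hxq, hrk x hx y hy hxy, f1_eq hy hyq] at h1
    omega
  -- equality of types depends only on the tops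
  have hty : ∀ x y x' y', top par Q x = top par Q x' → top par Q y = top par Q y' →
      pr x = pr y → (pr x').1 = (pr y').1 ∧ (pr x').2.1 = (pr y').2.1 := by
    intro x y x' y' h1 h2 hxy
    have e1 : (pr x).1 = (pr x').1 := by simp only [pr, h1]
    have e2 : (pr y).1 = (pr y').1 := by simp only [pr, h2]
    have e3 : (pr x).2.1 = (pr x').2.1 := by simp only [pr, h1]
    have e4 : (pr y).2.1 = (pr y').2.1 := by simp only [pr, h2]
    rw [← e1, ← e2, ← e3, ← e4, hxy]
    exact ⟨rfl, rfl⟩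
  have hpar : ∀ x ∈ E, ∀ y ∈ E, x ∉ Q → pr x = pr y → pr (par x) = pr (par y) := by
    intro x hx y hy hxq hxy
    have hyq : y ∉ Q := fun hq => hxq ((hnQ x hx y hy hxy).2 hq)
    obtain ⟨h1, h2⟩ := hty x y (par x) (par y) (htop x hx hxq).symm (htop y hy hyq).symm hxy
    have h3 := hparrk x hx y hy hxq hxy
    have h4 : (pr (par x)).2.2 = (pr (par y)).2.2 := by
      simp only [pr]
      rw [Fin.mk.injEq, h3]
    exact Prod.ext h1 (Prod.ext h2 h4)
  -- the number of elements of a class
  have hclass : ∀ x ∈ E, (E.filter (fun y => ((e (pr y) : ℕ)) = ((e (pr x) : ℕ)))).card =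
      (Q.filter (fun q => (pr q).1 = (pr x).1 ∧ (pr q).2.1 = (pr x).2.1)).card := by
    intro x hx
    refine card_bij (fun y _ => top par Q y) ?_ ?_ ?_
    · intro y hy
      rw [mem_filter] at hy
      have h1 : pr y = pr x := e.injective (Fin.ext hy.2)
      rw [mem_filter]
      refine ⟨top_mem h y hy.1, ?_⟩
      exact hty y x (top par Q y) x (top_top h hy.1).symm rfl h1
    · intro y hy y' hy' hyy
      rw [mem_filter] at hy hy'
      have h1 : pr y = pr x := e.injective (Fin.ext hy.2)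
      have h2 : pr y' = pr x := e.injective (Fin.ext hy'.2)
      exact rk_inj hy.1 hy'.1 hyy (hrk y hy.1 y' hy'.1 (h1.trans h2.symm))
    · intro q hq
      rw [mem_filter] at hq
      obtain ⟨hq, h1, h2⟩ := hq
      have hqt : top par Q q = q := top_of_mem hq
      have h3 : f2 par mark E Q (top par Q q) (rk par E Q x) =
          f2 par mark E Q (top par Q x) (rk par E Q x) := by
        have h4 := congrFun h2 ⟨rk par E Q x, rk_bound h hPS hx⟩
        have h5 := congrArg (fun t : Fin (μ + 1) => (t : ℕ)) h4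
        exact h5
      have h4 : f2 par mark E Q (top par Q q) (rk par E Q x) ≠ 0 := by
        rw [h3, f2_eq mark hx]; omega
      obtain ⟨y, hy, hyt, hyr, -⟩ := f2_ne h4
      have h5 : pr y = pr x := by
        have e1 : (pr y).1 = (pr q).1 := by simp only [pr, hyt]
        have e2 : (pr y).2.1 = (pr q).2.1 := by simp only [pr, hyt]
        have e3 : (pr y).2.2 = (pr x).2.2 := by simp only [pr, hyr]
        exact Prod.ext (e1.trans h1) (Prod.ext (e2.trans h2) e3)
      refine ⟨y, ?_, hyt.trans hqt⟩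
      rw [mem_filter]
      exact ⟨hy, by rw [h5]⟩
  refine ⟨fun x => (e (pr x) : ℕ), ?_, ?_, ?_, ?_, ?_⟩
  · intro x _
    exact lt_of_lt_of_le (e (pr x)).2 hbound
  · intro x hx y hy hxy
    exact hnQ x hx y hy (e.injective (Fin.ext hxy))
  · refine ⟨?_, ?_, ?_, ?_⟩
    · intro x hx y hy hxy
      exact hnQ x hx y hy (e.injective (Fin.ext hxy))
    · intro x hx y hy hxq hxy
      have h1 : pr x = pr y := e.injective (Fin.ext hxy)
      show (e (pr (par x)) : ℕ) = (e (pr (par y)) : ℕ)
      rw [hpar x hx y hy hxq h1]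
    · intro x hx y hy hxq hxy hp
      have h1 : pr x = pr y := e.injective (Fin.ext hxy)
      have hyq : y ∉ Q := fun hq => hxq ((hnQ x hx y hy h1).2 hq)
      exact rk_inj hx hy (by rw [← htop x hx hxq, ← htop y hy hyq, hp]) (hrk x hx y hy h1)
    · intro x hx hxq
      have hpE := (hup x hx hxq).2
      rw [hclass x hx, hclass (par x) hpE]
      have e1 : (pr (par x)).1 = (pr x).1 := by simp only [pr, htop x hx hxq]
      have e2 : (pr (par x)).2.1 = (pr x).2.1 := by simp only [pr, htop x hx hxq]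
      rw [e1, e2]
  · intro x hx y hy hxy
    have h1 : pr x = pr y := e.injective (Fin.ext hxy)
    have h2 := hf2 x y h1 _ (rk_bound h hPS hx)
    rw [f2_eq mark hx, hrk x hx y hy h1, f2_eq mark hy] at h2
    omega
  · intro q hq
    refine hPS q hq _ ?_
    intro x hx
    classical
    unfold pc at hx
    exact (mem_filter.1 hx).2

end Pool.Agent.RSP
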