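import Pool.Agent.RSL.Final
import Pool.Agent.RST.ABS
import Pool.Agent.RST.ALT
import Pool.Agent.RST.SABS
import Pool.Agent.RST.GAD
import Pool.Agent.RST.CHG
import Pool.Agent.RST.PHA
import Pool.Agent.RST.PHJ
import Pool.Agent.RST.FIN
import Pool.Agent.RST.LINK
import Pool.Agent.RST.MULTI
import Pool.Agent.RST.GROW
import Pool.Agent.RST.CTR
import Pool.Agent.RST.BARE
import Pool.Agent.RSP.CASEP
import Pool.Agent.RSP.CASEQ
import Pool.Agent.RSP.DECP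
import Pool.Agent.RSP.EXP
import Pool.Agent.RSP.LEVP
import Pool.Agent.RSP.MAINP
import Pool.Agent.RSP.NODE
import Pool.Agent.RSP.NUMP
import Pool.Agent.RSP.NUMQ
import Pool.Agent.RSP.PHS
import Pool.Agent.RSP.RARE
import Pool.Agent.RSP.TPLP
import Pool.Agent.RSP.TREEP
import Pool.Agent.RSP.TYP

/-!
# RSP: the main theorem
-/

set_option autoImplicit false

namespace Pool.Agent.RSP

open Pool.Agent.RST Pool.Agent.RSL

theorem aCONN : T_CONN := pCONN pSTEP pFREE pSHR (pGROW pSTEP)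
theorem aMULTI : T_MULTI := pMULTI aCONN
theorem aABS : T_ABS := pABS (pCHG pFREE (pGAD (pSABS pSTEP aCONN pALT) aCONN))
theorem aLINK : T_LINK := pLINK aABS (pPHJ (pPHA pPM aMULTI)) (pFIN aMULTI)
theorem aWSL : T_WSL := pWSL pLG pINIT
theorem aDECP : T_DECP := pDECP (pCUT pREG) pTYP pNODE pEXP (pRARE pPIEC (pDISS pPIEC)) pPIEC
  (pDISS pPIEC)
theorem aTREEP : T_TREEP := pTREEP (pLEVP pWALK pORDR pGRDL) aDECP pPIEC (pDISS pPIEC) pACT
theorem aTPLP : T_TPLP := pTPLP (pGNPL pGSUM) pRPART pPM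
theorem aPHS : T_PHS := pPHS (pMATL pPM) (pSLOT pPIEC) pPIEC RSL.aPF
theorem aCASEP : T_CASEP := pCASEP pRPART aWSL aTREEP (pMATL pPM) (pSLOT pPIEC) RSL.aCTX
  RSL.aPF (pCOVL pPIEC) (pFINL pPM pPIEC) pNUMP
theorem aCASEQ : T_CASEQ := pCASEQ pRPART pLG pINIT aWSL aPHS RSL.aDEC pBARE pCTR aTPLP aLINK
  pNUMQ
theorem main_theorem : T_MAINP := pMAINP (pGNPL pGSUM) pRELL aCASEP aCASEQ

end Pool.Agent.RSP
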