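import Pool.Agent.RSP.Defs

/-!
# The targets of the RSP jobs (proofs: Blueprint.lean.txt)
-/

set_option autoImplicit false

open Finset Filter Topology

namespace Pool.Agent.RSP

open Pool.Agent.RST Pool.Agent.RSL

/-! ## The tree -/

/-- LEVP: the special leaf parents, uniform version of `T_LEV` -/
def T_LEVP : Prop := ∀ (Δ k₀ b n m : ℕ) (θ : ℝ) (par : ℕ → ℕ), 1 ≤ Δ → 1 ≤ k₀ → 0 < θ →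
  θ ≤ 1 / 2 → b = (4 * Δ * (Δ + 1) ^ 4) ^ 2 → 1 ≤ m → VT n par → BD n par Δ → b * m ≤ n →
  ((k₀ : ℝ) + 3) * b * m * ((Δ : ℝ) + 1) ^ 6 ≤ θ * (lp n par).card →
  8 * (Δ : ℝ) * Real.sqrt n ≤ θ * (lp n par).card →
  ∃ (par' : ℕ → ℕ) (I : ℕ) (S : ℕ → Finset ℕ) (lf t : ℕ → ℕ), VT n par' ∧ BD n par' Δ ∧
    (lv n par').card = (lv n par).card ∧
    (∀ (V : Type) (H : SimpleGraph V) (f' : ℕ → V), Emb H n par' f' →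
      ∃ f : ℕ → V, Emb H n par f) ∧
    (1 ≤ I ∧ m ≤ b ^ I ∧ b ^ I ≤ b * m) ∧ 0 < t 1 ∧
    (∀ i, 1 ≤ i → i ≤ I → t i ≤ t (i + 1) ∧ t (i + 1) ≤ n) ∧
    (((lp n par').filter (fun y => t 1 ≤ y)).card : ℝ) ≤ θ * (lp n par).card ∧
    (∀ i, 1 ≤ i → i ≤ I → (∀ a ∈ S i, a < t (i + 1) ∧ ∀ j ≤ 2 * i + 2, t i ≤ par'^[j] a) ∧
      (∀ a ∈ S i, ∀ a' ∈ S i, a ≠ a' → ∀ j ≤ 2 * i + 2, ∀ j' ≤ 2 * i + 2,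
        par'^[j] a ≠ par'^[j'] a') ∧
      (∀ a ∈ S i, lf a ∈ chd n par' a ∧ chd n par' (lf a) = ∅) ∧
      (k₀ + 1) * b * m ≤ b ^ i * (S i).card) ∧
    ∑ i ∈ Icc 1 I, (2 * i + 4) * (S i).card ≤ 16 * (k₀ + 1) * m + (Nat.log 2 n + 3) ^ 2

/-- TYP: colours of the pieces, with marks -/
def T_TYP : Prop := ∀ S : ℕ, ∃ A : ℕ, ∀ (μ : ℕ) (par : ℕ → ℕ) (E Q : Finset ℕ) (mark : ℕ → ℕ),
  1 ≤ μ → Q ⊆ E → (∀ x ∈ E, x ∉ Q → par x < x ∧ par x ∈ E) → PS par E Q S →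
  (∀ x, mark x < μ) →
  ∃ κ : ℕ → ℕ, (∀ x ∈ E, κ x < A * μ ^ A) ∧ (∀ x ∈ E, ∀ y ∈ E, κ x = κ y → (x ∈ Q ↔ y ∈ Q)) ∧
    Col par E Q κ ∧ (∀ x ∈ E, ∀ y ∈ E, κ x = κ y → mark x = mark y) ∧
    ∀ q ∈ Q, (pc par E Q q).card ≤ S

/-- NODE: the topological tree -/
def T_NODE : Prop := ∀ (Δ n : ℕ) (par : ℕ → ℕ), 1 ≤ n → VT n par → BD n par Δ →
  ∃ (N' : ℕ) (par' e len : ℕ → ℕ), Nd Δ n par N' par' e len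

/-- EXP: expansion of a decomposition of the topological tree -/
def T_EXP : Prop := ∀ (Δ n N' Lm k' : ℕ) (par par' e len : ℕ → ℕ) (E' Q' : Finset ℕ)
  (κ' : ℕ → ℕ), 1 ≤ n → 1 ≤ Lm → VT n par → BD n par Δ → Nd Δ n par N' par' e len →
  Dcp 2 par' (range N') E' Q' → Col par' E' Q' κ' → (∀ i ∈ E', κ' i < k') →
  (∀ i ∈ E', i ∉ Q' → len i < Lm) →
  (∀ i ∈ E', ∀ i' ∈ E', κ' i = κ' i' → (chd N' par' i = ∅ ↔ chd N' par' i' = ∅) ∧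
    (i ∉ Q' → len i = len i')) →
  ∃ (E Q : Finset ℕ) (κ : ℕ → ℕ), Dcp 2 par (range n) E Q ∧ Col par E Q κ ∧
    (∀ x ∈ E, κ x < (k' + Lm + 1) * (Lm + 1)) ∧
    (∀ x ∈ E, ∀ y ∈ E, κ x = κ y → (chd n par x = ∅ ↔ chd n par y = ∅)) ∧
    Lm * (range n \ E).card ≤ 13 * Lm * (range N' \ E').card + 2 * n

/-- RARE: removal of the pieces of rare types -/
def T_RARE : Prop := ∀ (n : ℕ) (par : ℕ → ℕ) (E₀ Q₀ : Finset ℕ) (κ : ℕ → ℕ) (k₁ τ : ℕ),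
  Dcp 2 par (range n) E₀ Q₀ → Col par E₀ Q₀ κ → (∀ x ∈ E₀, κ x < k₁) →
  ∃ E Q : Finset ℕ, E ⊆ E₀ ∧ Dcp 2 par (range n) E Q ∧ Col par E Q κ ∧
    (E₀ \ E).card ≤ k₁ * k₁ * τ ∧ ∀ x ∈ E, τ ≤ (E.filter (fun y => κ y = κ x)).card

/-- DECP: decomposition of a tree, where the waste is small compared with the number of leaves;
the number of types is polynomial in `r = n / (number of leaves)` -/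
def T_DECP : Prop := ∀ (Δ : ℕ) (ε : ℝ), 1 ≤ Δ → 0 < ε → ∃ A : ℕ, 1 ≤ A ∧ ∀ (n r : ℕ)
  (par : ℕ → ℕ), 1 ≤ n → 1 ≤ r → VT n par → BD n par Δ → n ≤ r * (lv n par).card →
  A * r ^ A ≤ n →
  ∃ (E Q : Finset ℕ) (κ : ℕ → ℕ), Dcp 2 par (range n) E Q ∧ Col par E Q κ ∧
    ((range n \ E).card : ℝ) ≤ ε * (lv n par).card ∧
    (∀ x ∈ E, κ x < A * r ^ A ∧ n ≤ A * r ^ A * (E.filter (fun y => κ y = κ x)).card) ∧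
    (∀ x ∈ E, ∀ y ∈ E, κ x = κ y → (chd n par x = ∅ ↔ chd n par y = ∅))

/-- TREEP: the structure of a tree with at least `n / r` leaves -/
def T_TREEP : Prop := ∀ (Δ : ℕ) (ε : ℝ), 1 ≤ Δ → 0 < ε → ∃ (b A : ℕ), 2 ≤ b ∧ 1 ≤ A ∧
  ∀ (n m r : ℕ) (par : ℕ → ℕ), 1 ≤ n → 1 ≤ m → 1 ≤ r → VT n par → BD n par Δ →
  n ≤ r * (lv n par).card → (A * r ^ A) ^ 3 * m ≤ n →
  ((A * r ^ A) ^ 3 * (Nat.log 2 n + 3) ^ 2) ^ 2 ≤ n →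
  ∃ (par' : ℕ → ℕ) (I : ℕ) (E Q M : Finset ℕ) (κ : ℕ → ℕ) (S : ℕ → Finset ℕ) (lf t : ℕ → ℕ),
    VT n par' ∧ BD n par' Δ ∧
    (∀ (V : Type) (H : SimpleGraph V) (f' : ℕ → V), Emb H n par' f' →
      ∃ f : ℕ → V, Emb H n par f) ∧
    TS n par' (A * r ^ A) m b I E Q M κ S lf t ∧
    ((range n \ E).card : ℝ) ≤ ε * (lv n par).card ∧
    ((∑ i ∈ Icc 1 I, (S i).card : ℕ) : ℝ) ≤ ε * (lv n par).card ∧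
    (∀ x ∈ E, n ≤ A * r ^ A * (E.filter (fun y => κ y = κ x)).card) ∧
    (lv n par).card ≤ 4 * Δ * M.card

/-! ## Many leaves -/

/-- NUMP: the numerical conditions, many leaves -/
def T_NUMP : Prop := ∀ (g C₁ η B₀ : ℝ) (s d : ℕ), 0 < g → 0 ≤ C₁ → 0 < η → 0 ≤ B₀ →
  ∃ C n₀ : ℕ, ∀ n ≥ n₀, ∀ p : ℝ, Real.log n ^ C / n ≤ p → p ≤ 1 →
  1 ≤ n ∧ 0 < p ∧ 1 ≤ Real.log n ∧
  (B₀ * Real.log n ^ s) * (⌈8 * (C₁ * Real.log n) / (g * p)⌉₊ + 1 : ℕ) ≤ n ∧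
  8 * (C₁ * Real.log n) ≤ g * p * (⌈8 * (C₁ * Real.log n) / (g * p)⌉₊ + 1 : ℕ) ∧
  4 * (C₁ * Real.log n) * (1 + d) * (B₀ * Real.log n ^ s) < p * n ∧
  16 * (C₁ * Real.log n) * (B₀ * Real.log n ^ s) ≤ g * p * n ∧
  (B₀ * Real.log n ^ s * ((Nat.log 2 n : ℝ) + 3) ^ 2) ^ 2 ≤ n ∧
  ∀ (k : ℕ) (smin : ℝ), (k : ℝ) ≤ B₀ * Real.log n ^ s → (n : ℝ) ≤ B₀ * Real.log n ^ s * smin →
    (n : ℝ) * k * ((n : ℝ) + 1) ^ k * Real.exp (-(η ^ 2 * smin * (1 / 2 * p * n) / (2 * n))) < 1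

/-- CASEP: trees with at least `n / (log n) ^ s₀` leaves -/
def T_CASEP : Prop := ∀ (Δ s₀ : ℕ) (γ C₁ : ℝ), 1 ≤ Δ → 0 < γ → γ ≤ 1 / 2 → 0 ≤ C₁ →
  ∃ C n₀ : ℕ, ∀ n ≥ n₀, ∀ p : ℝ, Real.log n ^ C / n ≤ p → p ≤ 1 →
  ∀ H : SimpleGraph (Fin n), UU H (γ / 100) p (C₁ * Real.log n) →
  (∀ v, (1 / 2 + γ) * p * n ≤ dg H v univ) →
  ∀ par : ℕ → ℕ, VT n par → BD n par Δ → (n : ℝ) ≤ Real.log n ^ s₀ * (lv n par).card →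
  ∃ f : ℕ → Fin n, Emb H n par f

/-! ## Few leaves -/

/-- TPLP: robustly matchable bipartite templates of logarithmic degree -/
def T_TPLP : Prop := ∃ (C₀ : ℝ) (z₀ : ℕ), 0 < C₀ ∧ ∀ z' z : ℕ, z₀ ≤ z' → z' ≤ z → z ≤ 2 * z' →
  ∃ Γ : ℕ → Finset ℕ, (∀ x < 10 * z', Γ x ⊆ range (9 * z' + z) ∧ (Γ x).Nonempty ∧
      ((Γ x).card : ℝ) ≤ C₀ * Real.log z) ∧
    (∀ y, (((range (10 * z')).filter (fun x => y ∈ Γ x)).card : ℝ) ≤ C₀ * Real.log z) ∧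
    ∀ Z' : Finset ℕ, Z' ⊆ Ico (9 * z') (9 * z' + z) → Z'.card = z' →
      ∃ μ : ℕ → ℕ, Set.BijOn μ (range (10 * z') : Set ℕ) (range (9 * z') ∪ Z' : Finset ℕ) ∧
        ∀ x < 10 * z', μ x ∈ Γ x

/-- PHS: phase 1, with constant chain length -/
def T_PHS : Prop := ∀ (V : Type) [Fintype V] [DecidableEq V] (H : SimpleGraph V)
  (W : Finset V) (g gw η p Ku : ℝ) (d m b : ℕ),
  0 < p → 0 < g → 0 ≤ η → η ≤ g / 2 → 0 ≤ Ku → UU H η p Ku →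
  WS H W gw d m b → OK H W d m ∅ ∅ →
  ∀ (N : ℕ) (par : ℕ → ℕ) (Δ : ℕ) (v₀ : V) (k₀ : ℕ) (E Q : Finset ℕ) (κ : ℕ → ℕ)
  (Vc : ℕ → Finset V), VT N par → BD N par Δ → b + Δ + 2 ≤ d → 1 ≤ N →
  Dcp 2 par (range N) E Q → Col par E Q κ → (∀ x ∈ E, κ x < k₀) →
  (∀ k k', k ≠ k' → Disjoint (Vc k) (Vc k')) →
  (∀ x ∈ E, (Vc (κ x)).card = (E.filter (fun y => κ y = κ x)).card ∧ DG H g p (Vc (κ x)) ∧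
    8 * Ku ≤ g * p * (Vc (κ x)).card) →
  (∀ k, Disjoint (Vc k) W ∧ v₀ ∉ Vc k) → v₀ ∉ W →
  4 * (((range N \ E).card : ℝ) + k₀ * k₀ * m) ≤ gw * (W.card : ℝ) →
  ∃ f : ℕ → V, Emb H N par f ∧ ∀ i < N, f i = v₀ ∨ f i ∈ W ∨ ∃ k < k₀, f i ∈ Vc k

/-- NUMQ: the numerical conditions, few leaves -/
def T_NUMQ : Prop := ∀ (g C₁ η ξ C₀ : ℝ) (k₀ z₀ N₀ Δ : ℕ), 0 < g → g ≤ 1 / 4 → 0 ≤ C₁ → 0 < η →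
  0 < ξ → 0 < C₀ → ∃ C n₀ : ℕ, ∀ n ≥ n₀, ∀ p : ℝ, Real.log n ^ C / n ≤ p → p ≤ 1 →
  ∃ (a ω q K ℓ C3 C4 h m b d z' z J : ℕ) (c1 c2 : ℝ),
    1 ≤ n ∧ 0 < p ∧ 2 * N₀ ≤ n ∧ 2 ≤ K ∧ ℓ = K + 4 * a + 3 ∧ gl a ≤ ℓ ∧ ω = q + (4 * a + 2) ∧
    16 * (a : ℝ) + 16 ≤ g / 4 * ω ∧ 4 * (ω : ℝ) ≤ g * K ∧ C3 = K * q ∧
    4 * ((ℓ : ℝ) * C3) ≤ g / 4 * C4 ∧ (ℓ - 2) * C3 ≤ C4 ∧ 1 ≤ C3 ∧ 1 ≤ C4 ∧
    z' = C4 * h ∧ z = z' + (ℓ - 2) * (K * (q * h)) ∧ z₀ ≤ z' ∧ z ≤ n ∧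
    c1 = 1 / (8 * ((ℓ : ℝ) + 1)) ∧ c2 = K * g * c1 / 12 ∧ g / 400 ≤ c2 ∧
    1 ≤ m ∧ 1 ≤ h ∧ 2 ≤ b ∧ C₀ * Real.log n ≤ b ∧ m ≤ b ^ a ∧ b + Δ + 2 ≤ d ∧
    b + 2 * b + 6 ≤ d ∧ 2 * a + 2 ≤ ℓ ∧
    8 * (C₁ * Real.log n) ≤ g * p * m ∧ 16 * (C₁ * Real.log n) ≤ g / 4 * p * h ∧
    16 * (m : ℝ) * d ≤ h ∧ 4 * (C₁ * Real.log n) * (1 + d) < p * h ∧
    8 * (2 * (a : ℝ) * ((m : ℝ) + b) + 3 * (m : ℝ) * d + ℓ) ≤ g / 4 * h ∧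
    8 * (4 * ((b : ℝ) + 1) * m + 3 * (m : ℝ) * d + 4) ≤ g / 4 * h ∧
    (h : ℝ) ≤ ξ * (n / 2) ∧ (h : ℝ) ≤ g / 400 * n ∧
    80 * (ℓ : ℝ) * (C4 * h) * b ≤ g / 4 * (c2 * n) ∧
    10 * ((C4 : ℝ) * h) + K + 3 ≤ c2 * n ∧
    10 * ((C4 : ℝ) * h) * b + C3 * h ≤ c1 * n ∧
    1000 * (((k₀ : ℝ) * k₀ + 1) * m) ≤ g / 4 * (g / 400 * n) ∧
    (16 : ℝ) * ((ℓ : ℝ) + 1) ≤ Real.log n ^ 3 ∧
    1 ≤ J ∧ (K : ℝ) * 2 ^ (J - 1) * h ≤ c1 * n ∧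
    c1 * n / 2 ≤ (K : ℝ) * 2 ^ (J - 1) * h ∧
    (n : ℝ) * ((k₀ + 5 + J * K + J : ℕ) : ℝ) * ((n : ℝ) + 1) ^ (k₀ + 5 + J * K + J) *
      Real.exp (-(η ^ 2 * h * (1 / 2 * p * n) / (2 * n))) < 1

/-- CASEQ: trees with at most `n / (log n) ^ 3` leaves -/
def T_CASEQ : Prop := ∀ (Δ : ℕ) (γ C₁ : ℝ), 1 ≤ Δ → 0 < γ → γ ≤ 1 / 2 → 0 ≤ C₁ →
  ∃ C n₀ : ℕ, ∀ n ≥ n₀, ∀ p : ℝ, Real.log n ^ C / n ≤ p → p ≤ 1 →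
  ∀ H : SimpleGraph (Fin n), UU H (γ / 100) p (C₁ * Real.log n) →
  (∀ v, (1 / 2 + γ) * p * n ≤ dg H v univ) →
  ∀ par : ℕ → ℕ, VT n par → BD n par Δ → Real.log n ^ 3 * (lv n par).card ≤ n →
  ∃ f : ℕ → Fin n, Emb H n par f

open Classical in
/-- MAINP: the main theorem -/
def T_MAINP : Prop := ∀ Δ : ℕ, 2 ≤ Δ → ∀ γ : ℝ, 0 < γ → ∃ C : ℕ,
  ∀ p : ℕ → ℝ, (∀ n : ℕ, 0 ≤ p n ∧ p n ≤ 1) →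
  (∀ᶠ n : ℕ in atTop, Real.log (n : ℝ) ^ C / (n : ℝ) ≤ p n) →
  Tendsto (fun n : ℕ =>
    ∑ᶠ G : SimpleGraph (Fin n),
      (if (∀ H : SimpleGraph (Fin n), H ≤ G →
            (∀ v : Fin n, (1 / 2 + γ) * (((G.neighborSet v).ncard : ℕ) : ℝ)
                ≤ (((H.neighborSet v).ncard : ℕ) : ℝ)) →
            ∀ T : SimpleGraph (Fin n), T.IsTree →
              (∀ v : Fin n, (T.neighborSet v).ncard ≤ Δ) →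
              ∃ f : Fin n → Fin n, Function.Injective f ∧
                ∀ u v : Fin n, T.Adj u v → H.Adj (f u) (f v))
       then (p n) ^ (G.edgeSet.ncard) *
              (1 - p n) ^ (n.choose 2 - G.edgeSet.ncard)
       else (0 : ℝ)))
    atTop (𝓝 (1 : ℝ))

end Pool.Agent.RSP
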